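import Pool.Agent.K9h49.VC.Ex

/-!
# The parameters of the reduction
-/

namespace Pool.Agent.K9h49.VC

open Finset

/-- Is `p` a prime number? -/
def isP (p : ℕ) : Bool := decide (2 ≤ p) && (List.range p).all fun d => decide (d < 2) ||
  !(decide (p % d = 0))

theorem isP_iff (p : ℕ) : isP p = true ↔ p.Prime := by
  unfold isP
  rw [Bool.and_eq_true, decide_eq_true_iff, List.all_eq_true, Nat.prime_def_lt']
  refine and_congr_right fun h2 => ?_
  constructor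
  · intro h m hm hmp hdvd
    have := h m (List.mem_range.2 hmp)
    rw [Bool.or_eq_true, decide_eq_true_iff, Bool.not_eq_true', decide_eq_false_iff_not] at this
    rcases this with h3 | h3
    · omega
    · exact h3 (Nat.mod_eq_zero_of_dvd hdvd)
  · intro h d hd
    rw [Bool.or_eq_true, decide_eq_true_iff, Bool.not_eq_true', decide_eq_false_iff_not]
    by_cases h3 : d < 2
    · exact Or.inl h3
    · exact Or.inr fun h4 => h d (by omega) (List.mem_range.1 hd) (Nat.dvd_of_mod_eq_zero h4)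

/-- A prime larger than `M`. -/
def prm (M : ℕ) : ℕ :=
  (((List.range (2 * M + 1)).filter fun p => decide (M < p) && isP p).head?).getD 2

theorem prm_spec (M : ℕ) (hM : M ≠ 0) : (prm M).Prime ∧ M < prm M ∧ prm M ≤ 2 * M := by
  obtain ⟨p, hp, h1, h2⟩ := Nat.exists_prime_lt_and_le_two_mul M hM
  have hne : ((List.range (2 * M + 1)).filter fun p => decide (M < p) && isP p) ≠ [] := by
    apply List.ne_nil_of_mem (a := p)
    rw [List.mem_filter, List.mem_range, Bool.and_eq_true, decide_eq_true_iff, isP_iff]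
    exact ⟨by omega, h1, hp⟩
  obtain ⟨q, l, hq⟩ := List.exists_cons_of_ne_nil hne
  have h3 : prm M = q := by
    unfold prm
    rw [hq]
    rfl
  have h4 : q ∈ ((List.range (2 * M + 1)).filter fun p => decide (M < p) && isP p) := by
    rw [hq]; exact List.mem_cons_self
  rw [List.mem_filter, List.mem_range, Bool.and_eq_true, decide_eq_true_iff, isP_iff] at h4
  rw [h3]
  exact ⟨h4.2.2, h4.2.1, by omega⟩

theorem prm_le (M : ℕ) : prm M ≤ 2 * M + 2 := by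
  by_cases h : M = 0
  · subst h; decide
  · have := (prm_spec M h).2.2; omega

/-- The constant of the reduction. -/
def Cc (g κ : ℕ) : ℕ := 16 * g ^ 2 * (2 * 2 ^ κ) ^ (2 * 2 ^ κ) * 2 ^ 2 ^ κ
def D0 (g κ K n : ℕ) : ℕ := (Cc g κ * K * n) ^ 3
def N0 (g κ K n : ℕ) : ℕ := 4 * g ^ 2 * (n * K * D0 g κ K n) ^ g
def NN (g κ K n : ℕ) : ℕ := K * N0 g κ K n
def mm (g κ K n : ℕ) : ℕ := n * NN g κ K n
def QQ (g κ K n : ℕ) : ℕ := prm (mm g κ K n * mm g κ K n)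
def TT (g κ K n : ℕ) : ℕ := D0 g κ K n * QQ g κ K n / N0 g κ K n
def Dl (g κ K n : ℕ) : ℕ := 4 * (n * K) ^ 2 * D0 g κ K n

section

variable {g κ K n : ℕ} (hg : 1 ≤ g) (hκ : 2 * g + 1 ≤ 2 ^ κ) (hK : 1 ≤ K) (hn : 1 ≤ n)

include hg in
theorem Cc_ge : 2 * 2 ^ κ ≤ Cc g κ ∧ 16 ≤ Cc g κ := by
  have h1 : 1 ≤ g ^ 2 := Nat.one_le_pow _ _ hg
  have h2 : 1 ≤ 2 ^ κ := Nat.one_le_two_pow
  have h3 : 2 * 2 ^ κ ≤ (2 * 2 ^ κ) ^ (2 * 2 ^ κ) :=
    Nat.le_self_pow (by positivity) _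
  have h4 : 1 ≤ 2 ^ 2 ^ κ := Nat.one_le_two_pow
  have h5 : 2 * 2 ^ κ * 16 ≤ Cc g κ := by
    unfold Cc
    calc 2 * 2 ^ κ * 16 = 16 * 1 * (2 * 2 ^ κ) * 1 := by ring
      _ ≤ 16 * g ^ 2 * (2 * 2 ^ κ) ^ (2 * 2 ^ κ) * 2 ^ 2 ^ κ := by gcongr
  omega

include hg hK hn in
theorem D0_ge : 2 * 2 ^ κ ≤ D0 g κ K n ∧ 16 ≤ D0 g κ K n := by
  obtain ⟨h1, h2⟩ := Cc_ge (κ := κ) hg
  have h3 : Cc g κ ≤ D0 g κ K n := by
    unfold D0
    calc Cc g κ = Cc g κ * 1 * 1 := by ring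
      _ ≤ Cc g κ * K * n := by gcongr
      _ ≤ _ := Nat.le_self_pow (by norm_num) _
  omega

include hg in
theorem N0_ge : n * K * D0 g κ K n ≤ N0 g κ K n := by
  have h1 : 1 ≤ g ^ 2 := Nat.one_le_pow _ _ hg
  unfold N0
  calc n * K * D0 g κ K n = 1 * 1 * (n * K * D0 g κ K n) := by ring
    _ ≤ 4 * g ^ 2 * (n * K * D0 g κ K n) ^ g := by
      gcongr
      · norm_num
      · exact Nat.le_self_pow (by omega) _

include hg hK hn in
theorem D0_le_N0 : D0 g κ K n ≤ N0 g κ K n :=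
  (Nat.le_mul_of_pos_left _ (by positivity)).trans (N0_ge hg)

include hg hK hn in
theorem N0_pos : 0 < N0 g κ K n := by
  have h1 := (D0_ge (κ := κ) hg hK hn).2
  have h2 := D0_le_N0 (κ := κ) hg hK hn
  omega

include hK hn in
theorem N0_le_mm : N0 g κ K n ≤ mm g κ K n := by
  unfold mm NN
  rw [← mul_assoc]
  exact Nat.le_mul_of_pos_left _ (by positivity)

include hg hK hn in
theorem mm_pos : 0 < mm g κ K n :=
  lt_of_lt_of_le (N0_pos hg hK hn) (N0_le_mm hK hn)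

include hg hK hn in
theorem QQ_spec : (QQ g κ K n).Prime ∧ mm g κ K n * mm g κ K n ≤ QQ g κ K n ∧
    mm g κ K n ≤ QQ g κ K n ∧ N0 g κ K n ≤ QQ g κ K n ∧ 2 * 2 ^ κ ≤ QQ g κ K n := by
  have h0 := mm_pos (κ := κ) hg hK hn
  obtain ⟨h1, h2, _⟩ := prm_spec (mm g κ K n * mm g κ K n) (by positivity)
  have h3 : mm g κ K n ≤ mm g κ K n * mm g κ K n := Nat.le_mul_of_pos_left _ h0
  have h4 := N0_le_mm (g := g) (κ := κ) hK hn
  have h5 := (D0_ge (κ := κ) hg hK hn).1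
  have h6 := D0_le_N0 (κ := κ) hg hK hn
  exact ⟨h1, h2.le, h3.trans h2.le, (h4.trans h3).trans h2.le, by
    unfold QQ; omega⟩

include hg hK hn in
theorem x_bounds : (D0 g κ K n : ℝ) / 2 ≤ (TT g κ K n : ℝ) / QQ g κ K n * N0 g κ K n ∧
    (TT g κ K n : ℝ) / QQ g κ K n * N0 g κ K n ≤ D0 g κ K n := by
  obtain ⟨h1, h2, h3, h4, h5⟩ := QQ_spec (κ := κ) hg hK hn
  have hQ : (0 : ℝ) < QQ g κ K n := by exact_mod_cast h1.pos
  have hN : (0 : ℝ) < N0 g κ K n := by exact_mod_cast N0_pos (κ := κ) hg hK hn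
  have e1 : (TT g κ K n : ℝ) * N0 g κ K n ≤ D0 g κ K n * QQ g κ K n := by
    exact_mod_cast Nat.div_mul_le_self (D0 g κ K n * QQ g κ K n) (N0 g κ K n)
  have e2 : (D0 g κ K n : ℝ) * QQ g κ K n ≤ (TT g κ K n + 1) * N0 g κ K n := by
    have := Nat.lt_mul_div_succ (D0 g κ K n * QQ g κ K n) (N0_pos (κ := κ) hg hK hn)
    have h6 : D0 g κ K n * QQ g κ K n ≤ (TT g κ K n + 1) * N0 g κ K n := by
      unfold TT
      rw [mul_comm (D0 g κ K n * QQ g κ K n / N0 g κ K n + 1)]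
      exact this.le
    exact_mod_cast h6
  have h7 : (16 : ℝ) ≤ D0 g κ K n := by exact_mod_cast (D0_ge (κ := κ) hg hK hn).2
  have h8 : (N0 g κ K n : ℝ) ≤ QQ g κ K n := by exact_mod_cast h4
  constructor
  · rw [div_mul_eq_mul_div, le_div_iff₀ hQ]
    nlinarith
  · rw [div_mul_eq_mul_div, div_le_iff₀ hQ]
    exact e1

include hg hK hn in
theorem TT_le : TT g κ K n ≤ QQ g κ K n := by
  have h1 := D0_le_N0 (κ := κ) hg hK hn
  have h2 := N0_pos (κ := κ) hg hK hn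
  unfold TT
  refine Nat.div_le_of_le_mul ?_
  exact Nat.mul_le_mul_right _ h1

include hg hK hn in
theorem TT_pos : 0 < TT g κ K n := by
  have h1 := (x_bounds (κ := κ) hg hK hn).1
  have h2 : (16 : ℝ) ≤ D0 g κ K n := by exact_mod_cast (D0_ge (κ := κ) hg hK hn).2
  by_contra h
  have h0 : TT g κ K n = 0 := by omega
  rw [h0] at h1
  simp at h1
  linarith

theorem mθ : (mm g κ K n : ℝ) * ((TT g κ K n : ℝ) / QQ g κ K n) =
    n * K * ((TT g κ K n : ℝ) / QQ g κ K n * N0 g κ K n) := by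
  unfold mm NN
  push_cast
  ring

include hg hK hn in
theorem par0 : 1 ≤ (mm g κ K n : ℝ) * ((TT g κ K n : ℝ) / QQ g κ K n) := by
  have h1 := (x_bounds (κ := κ) hg hK hn).1
  have h2 : (16 : ℝ) ≤ D0 g κ K n := by exact_mod_cast (D0_ge (κ := κ) hg hK hn).2
  rw [mθ]
  have h3 : (1 : ℝ) ≤ n := by exact_mod_cast hn
  have h4 : (1 : ℝ) ≤ K := by exact_mod_cast hK
  have h5 : (1 : ℝ) ≤ n * K := by nlinarith
  nlinarith

include hg hK hn in
theorem par1 : 4 * ((g : ℝ) ^ 2 * ((mm g κ K n : ℝ) * ((TT g κ K n : ℝ) / QQ g κ K n)) ^ g) ≤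
    N0 g κ K n := by
  obtain ⟨h1, h2⟩ := x_bounds (κ := κ) hg hK hn
  rw [mθ]
  have e : (N0 g κ K n : ℝ) = 4 * ((g : ℝ) ^ 2 * (n * K * D0 g κ K n) ^ g) := by
    unfold N0; push_cast; ring
  set x := (TT g κ K n : ℝ) / QQ g κ K n * N0 g κ K n with hx
  rw [e]
  have hx0 : 0 ≤ x := by positivity
  gcongr

include hg hK hn in
theorem par2 : 4 * ((mm g κ K n : ℝ) * ((mm g κ K n : ℝ) * ((TT g κ K n : ℝ) / QQ g κ K n))) ≤
    Dl g κ K n * N0 g κ K n := by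
  obtain ⟨h1, h2⟩ := x_bounds (κ := κ) hg hK hn
  rw [mθ]
  have e : (Dl g κ K n : ℝ) * N0 g κ K n =
      4 * ((n * K * N0 g κ K n : ℝ) * (n * K * D0 g κ K n)) := by
    unfold Dl; push_cast; ring
  have e2 : (mm g κ K n : ℝ) = n * K * N0 g κ K n := by unfold mm NN; push_cast; ring
  rw [e, e2]
  gcongr

include hg hκ hK hn in
theorem par3 : 4 * (((TT g κ K n : ℝ) / QQ g κ K n) ^ 2 ^ κ * (mm g κ K n : ℝ) ^ (2 ^ κ + 1) *
      (2 * 2 ^ κ : ℕ) ^ (2 * 2 ^ κ)) ≤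
    ((TT g κ K n : ℝ) / QQ g κ K n * N0 g κ K n) ^ 2 ^ (κ + 1) := by
  obtain ⟨h1, h2⟩ := x_bounds (κ := κ) hg hK hn
  have hm := mθ (g := g) (κ := κ) (K := K) (n := n)
  set x := (TT g κ K n : ℝ) / QQ g κ K n * N0 g κ K n with hx
  set l := 2 ^ κ with hl
  have e1 : ((TT g κ K n : ℝ) / QQ g κ K n) ^ l * (mm g κ K n : ℝ) ^ (l + 1) =
      (n * K * x) ^ l * (n * K * N0 g κ K n) := by
    rw [← hm, mul_pow, pow_succ]
    have e2 : (mm g κ K n : ℝ) = n * K * N0 g κ K n := by unfold mm NN; push_cast; ring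
    rw [← e2]
    ring
  have hD : (0 : ℝ) ≤ (D0 g κ K n : ℝ) / 2 := by positivity
  have hx0 : 0 ≤ x := hD.trans h1
  rw [e1]
  have key : 16 * g ^ 2 * (2 * l) ^ (2 * l) * 2 ^ l * (n * K) ^ (l + 1 + g) ≤
      D0 g κ K n ^ (l - g) := by
    have a1 : Cc g κ * (n * K) ^ (l + 1 + g) ≤ (Cc g κ * K * n) ^ (l + 1 + g) := by
      have : Cc g κ * K * n = Cc g κ * (n * K) := by ring
      rw [this, mul_pow (Cc g κ)]
      exact Nat.mul_le_mul_right _ (Nat.le_self_pow (by omega) _)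
    refine a1.trans ?_
    unfold D0
    rw [← pow_mul]
    refine Nat.pow_le_pow_right ?_ (by omega)
    have := (Cc_ge (κ := κ) hg).2
    positivity
  have key2 : 4 * (2 * l) ^ (2 * l) * (n * K) ^ (l + 1) * N0 g κ K n * 2 ^ l ≤
      D0 g κ K n ^ l := by
    have a1 : D0 g κ K n ^ l = D0 g κ K n ^ g * D0 g κ K n ^ (l - g) := by
      rw [← pow_add]; congr 1; omega
    rw [a1]
    calc 4 * (2 * l) ^ (2 * l) * (n * K) ^ (l + 1) * N0 g κ K n * 2 ^ l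
        = D0 g κ K n ^ g *
          (16 * g ^ 2 * (2 * l) ^ (2 * l) * 2 ^ l * (n * K) ^ (l + 1 + g)) := by
          unfold N0
          rw [mul_pow, pow_add (n * K) (l + 1) g]
          ring
      _ ≤ _ := Nat.mul_le_mul_left _ key
  have key3 : 4 * (2 * (l : ℝ)) ^ (2 * l) * (n * K) ^ (l + 1) * N0 g κ K n ≤ x ^ l := by
    have b1 : (4 * (2 * (l : ℝ)) ^ (2 * l) * (n * K) ^ (l + 1) * N0 g κ K n) * 2 ^ l ≤
        (D0 g κ K n : ℝ) ^ l := by exact_mod_cast key2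
    have b2 : ((D0 g κ K n : ℝ) / 2) ^ l ≤ x ^ l := pow_le_pow_left₀ hD h1 _
    rw [div_pow, div_le_iff₀ (by positivity)] at b2
    have b3 := b1.trans b2
    exact le_of_mul_le_mul_right b3 (by positivity)
  have e3 : x ^ 2 ^ (κ + 1) = x ^ l * x ^ l := by
    rw [← pow_add, pow_succ, mul_two]
  rw [e3]
  calc 4 * ((n * K * x) ^ l * (n * K * N0 g κ K n) * ((2 * l : ℕ) : ℝ) ^ (2 * l))
      = (4 * (2 * (l : ℝ)) ^ (2 * l) * (n * K) ^ (l + 1) * N0 g κ K n) * x ^ l := by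
        push_cast
        rw [mul_pow, pow_succ]
        ring
    _ ≤ x ^ l * x ^ l := mul_le_mul_of_nonneg_right key3 (by positivity)

end

end Pool.Agent.K9h49.VC
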