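import Pool.Agent.K9h49.VC.Def
import Pool.Agent.K9h49.VC.Par

/-!
# The reduction to sparse graphs of large girth: the algorithm
-/

namespace Pool.Agent.K9h49.VC

open Pool.Agent.NPC

/-- All lists of length `k` with entries in `L`. -/
def tup : ℕ → List ℕ → List (List ℕ)
  | 0, _ => [[]]
  | k + 1, L => (tup k L).flatMap fun t => L.map fun x => x :: t

theorem mem_tup {L : List ℕ} : ∀ {k : ℕ} {t : List ℕ}, t ∈ tup k L ↔ t.length = k ∧ ∀ x ∈ t, x ∈ L
  | 0, t => by
    simp only [tup, List.mem_singleton]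
    constructor
    · rintro rfl; simp
    · rintro ⟨h, _⟩; exact List.length_eq_zero_iff.1 h
  | k + 1, t => by
    simp only [tup, List.mem_flatMap, List.mem_map]
    constructor
    · rintro ⟨t', h1, x, hx, rfl⟩
      obtain ⟨h2, h3⟩ := mem_tup.1 h1
      refine ⟨by simp [h2], ?_⟩
      intro y hy
      rcases List.mem_cons.1 hy with rfl | hy
      · exact hx
      · exact h3 y hy
    · rintro ⟨h1, h2⟩
      match t, h1, h2 with
      | [], h1, _ => simp at h1
      | x :: t', h1, h2 =>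
        exact ⟨t', mem_tup.2 ⟨by simpa using h1, fun y hy => h2 y (List.mem_cons_of_mem _ hy)⟩, x,
          h2 x List.mem_cons_self, rfl⟩

/-- The value of a polynomial modulo `Q` (Horner's rule). -/
def hor (Q : ℕ) (σ : List ℕ) (a : ℕ) : ℕ := σ.foldr (fun c acc => (c + a * acc) % Q) 0

/-- Adjacency in the list of edges `E`. -/
def adjB (E : List (ℕ × ℕ)) (u v : ℕ) : Bool := decide ((u, v) ∈ E) || decide ((v, u) ∈ E)

/-- Adjacency in the blown up graph with seed `σ`. -/
def hB (E : List (ℕ × ℕ)) (N m Q T : ℕ) (σ : List ℕ) (s t : ℕ) : Bool :=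
  adjB E (s / N) (t / N) && decide (hor Q σ (min s t * m + max s t) < T)

/-- Is `s` on a cycle of length `k`? -/
def cycB (h : ℕ → ℕ → Bool) (k m s : ℕ) : Bool :=
  (tup k (List.range m)).any fun t => decide (s ∈ t) &&
    ((List.range k).all fun i => (List.range k).all fun j =>
      decide (i = j) || !(decide (t.getD i 0 = t.getD j 0))) &&
    (List.range k).all fun i => h (t.getD i 0) (t.getD ((i + 1) % k) 0)

/-- Is `s` on a cycle of length at most `g`? -/
def shortB (h : ℕ → ℕ → Bool) (m : ℕ) : ℕ → ℕ → Bool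
  | 0, _ => false
  | k + 1, s => shortB h m k s || (decide (3 ≤ k + 1) && cycB h (k + 1) m s)

/-- Is the degree of `s` more than `Δ`? -/
def degB (h : ℕ → ℕ → Bool) (m Δ s : ℕ) : Bool :=
  decide (Δ < ((List.range m).filter fun t => h s t).length)

/-- The bad vertices. -/
def badL (h : ℕ → ℕ → Bool) (m g Δ : ℕ) : List ℕ :=
  (List.range m).filter fun s => shortB h m g s || degB h m Δ s

/-- The edges of the blown up graph, without the bad vertices. -/
def eL (h : ℕ → ℕ → Bool) (m : ℕ) (bad : List ℕ) : List (ℕ × ℕ) :=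
  ((List.range m).flatMap fun s => (List.range m).map fun t => (s, t)).filter fun e =>
    decide (e.1 < e.2) && h e.1 e.2 && !(decide (e.1 ∈ bad)) && !(decide (e.2 ∈ bad))

/-- The new instance. -/
def inst (h : ℕ → ℕ → Bool) (m : ℕ) (bad : List ℕ) : Inst :=
  ((List.range m).map fun _ => (1 : ℚ), eL h m bad)

/-- The set of the vertices whose clouds are almost covered. -/
def back (n N N₀ : ℕ) (C : List ℕ) : List ℕ :=
  (List.range n).filter fun v =>
    decide (((List.range N).filter fun x => !(decide (v * N + x ∈ C))).length < 2 * N₀)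

/-- Is `C` a vertex cover? -/
def okB (E : List (ℕ × ℕ)) (C : List ℕ) : Bool :=
  E.all fun e => decide (e.1 ∈ C) || decide (e.2 ∈ C)

/-- A shortest member of a list of lists. -/
def pick (L : List (List ℕ)) : List ℕ :=
  ((L.filter fun c => L.all fun c' => decide (c.length ≤ c'.length)).head?).getD []

/-- The candidate obtained from the seed `σ`. -/
def cand (A : Inst → List ℕ) (g κ K : ℕ) (I : Inst) (σ : List ℕ) : List ℕ :=
  let n := I.1.length
  let h := hB I.2 (NN g κ K n) (mm g κ K n) (QQ g κ K n) (TT g κ K n) σ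
  back n (NN g κ K n) (N0 g κ K n)
    (A (inst h (mm g κ K n) (badL h (mm g κ K n) g (Dl g κ K n))))

/-- The algorithm. -/
def alg (A : Inst → List ℕ) (g κ K : ℕ) (I : Inst) : List ℕ :=
  pick (List.range I.1.length ::
    ((tup (2 * 2 ^ κ) (List.range (QQ g κ K I.1.length))).map (cand A g κ K I)).filter (okB I.2))

/-! ### Meaning -/

theorem pick_spec (L : List (List ℕ)) (hL : L ≠ []) :
    pick L ∈ L ∧ ∀ c ∈ L, (pick L).length ≤ c.length := by
  have h1 : ∃ c ∈ L, ∀ c' ∈ L, c.length ≤ c'.length := by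
    obtain ⟨c, hc⟩ := List.exists_mem_of_ne_nil L hL
    obtain ⟨d, hd, hmin⟩ := Finset.exists_min_image L.toFinset List.length
      ⟨c, List.mem_toFinset.2 hc⟩
    exact ⟨d, List.mem_toFinset.1 hd, fun c' hc' => hmin c' (List.mem_toFinset.2 hc')⟩
  obtain ⟨c, hc, hmin⟩ := h1
  have hne : (L.filter fun c => L.all fun c' => decide (c.length ≤ c'.length)) ≠ [] := by
    apply List.ne_nil_of_mem (a := c)
    rw [List.mem_filter, List.all_eq_true]
    exact ⟨hc, fun c' hc' => decide_eq_true (hmin c' hc')⟩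
  obtain ⟨q, l, hq⟩ := List.exists_cons_of_ne_nil hne
  have h3 : pick L = q := by
    unfold pick
    rw [hq]
    rfl
  have h4 : q ∈ (L.filter fun c => L.all fun c' => decide (c.length ≤ c'.length)) := by
    rw [hq]; exact List.mem_cons_self
  rw [List.mem_filter, List.all_eq_true] at h4
  rw [h3]
  exact ⟨h4.1, fun c' hc' => of_decide_eq_true (h4.2 c' hc')⟩

theorem hor_pev {Q : ℕ} [NeZero Q] (a : ℕ) : ∀ {r : ℕ} (σ : Fin r → ZMod Q),
    hor Q (List.ofFn fun i => (σ i).val) a = (pev σ a).val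
  | 0, σ => by simp [hor, pev]
  | r + 1, σ => by
    rw [List.ofFn_succ]
    have ih := hor_pev a (fun i => σ i.succ)
    unfold hor at ih ⊢
    rw [List.foldr_cons, ih]
    have e : pev σ a = σ 0 + a * pev (fun i => σ i.succ) a := by
      unfold pev
      rw [Fin.sum_univ_succ, Finset.mul_sum]
      simp only [Fin.val_zero, pow_zero, mul_one, Fin.val_succ, pow_succ]
      congr 1
      refine Finset.sum_congr rfl fun i _ => ?_
      ring
    rw [e, ZMod.val_add, ZMod.val_mul, ZMod.val_natCast]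
    conv_lhs => rw [Nat.add_mod, Nat.mul_mod]
    conv_rhs => rw [Nat.add_mod, Nat.mod_mod, Nat.mul_mod, Nat.mod_mod]

/-- The base relation on the vertices of the blown up graph. -/
def BB (E : List (ℕ × ℕ)) (N m : ℕ) (s t : Fin m) : Prop := adjB E (s.1 / N) (t.1 / N) = true

theorem BB_symm (E : List (ℕ × ℕ)) (N m : ℕ) (s t : Fin m) (h : BB E N m s t) : BB E N m t s := by
  unfold BB adjB at h ⊢
  rw [Bool.or_comm]
  exact h

theorem hB_iff {Q r : ℕ} [NeZero Q] (E : List (ℕ × ℕ)) (N m T : ℕ) (σ : Fin r → ZMod Q)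
    (s t : Fin m) : hB E N m Q T (List.ofFn fun i => (σ i).val) s.1 t.1 = true ↔
      HA T (BB E N m) σ s t := by
  unfold hB HA BB
  rw [Bool.and_eq_true, decide_eq_true_iff, hor_pev]

theorem shortB_iff {h : ℕ → ℕ → Bool} {m : ℕ} : ∀ {g s : ℕ}, shortB h m g s = true ↔
    ∃ k, 3 ≤ k ∧ k ≤ g ∧ cycB h k m s = true
  | 0, s => by
    simp only [shortB, Bool.false_eq_true, false_iff, not_exists]
    rintro k ⟨h1, h2, _⟩
    omega
  | g + 1, s => by
    simp only [shortB, Bool.or_eq_true, Bool.and_eq_true, decide_eq_true_iff]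
    rw [shortB_iff]
    constructor
    · rintro (⟨k, h1, h2, h3⟩ | ⟨h1, h3⟩)
      · exact ⟨k, h1, by omega, h3⟩
      · exact ⟨g + 1, h1, le_rfl, h3⟩
    · rintro ⟨k, h1, h2, h3⟩
      by_cases hk : k ≤ g
      · exact Or.inl ⟨k, h1, hk, h3⟩
      · have : k = g + 1 := by omega
        subst this
        exact Or.inr ⟨h1, h3⟩

theorem cycB_iff {h : ℕ → ℕ → Bool} {m k s : ℕ} : cycB h k m s = true ↔
    ∃ t : List ℕ, t.length = k ∧ (∀ x ∈ t, x < m) ∧ s ∈ t ∧
      (∀ i < k, ∀ j < k, t.getD i 0 = t.getD j 0 → i = j) ∧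
      ∀ i < k, h (t.getD i 0) (t.getD ((i + 1) % k) 0) = true := by
  unfold cycB
  simp only [List.any_eq_true, mem_tup, Bool.and_eq_true, decide_eq_true_iff, List.all_eq_true,
    List.mem_range, Bool.or_eq_true, Bool.not_eq_true', decide_eq_false_iff_not]
  constructor
  · rintro ⟨t, ⟨h1, h2⟩, ⟨h3, h4⟩, h5⟩
    refine ⟨t, h1, h2, h3, fun i hi j hj hij => ?_, h5⟩
    rcases h4 i hi j hj with h6 | h6
    · exact h6
    · exact absurd hij h6
  · rintro ⟨t, h1, h2, h3, h4, h5⟩
    refine ⟨t, ⟨h1, h2⟩, ⟨h3, fun i hi j hj => ?_⟩, h5⟩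
    by_cases h6 : t.getD i 0 = t.getD j 0
    · exact Or.inl (h4 i hi j hj h6)
    · exact Or.inr h6

theorem mem_badL {h : ℕ → ℕ → Bool} {m g Δ s : ℕ} : s ∈ badL h m g Δ ↔
    s < m ∧ (shortB h m g s = true ∨ degB h m Δ s = true) := by
  unfold badL
  rw [List.mem_filter, List.mem_range, Bool.or_eq_true]

theorem mem_eL {h : ℕ → ℕ → Bool} {m : ℕ} {bad : List ℕ} {s t : ℕ} : (s, t) ∈ eL h m bad ↔
    s < t ∧ t < m ∧ h s t = true ∧ s ∉ bad ∧ t ∉ bad := by
  unfold eL
  simp only [List.mem_filter, List.mem_flatMap, List.mem_map, List.mem_range, Bool.and_eq_true,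
    decide_eq_true_iff, Bool.not_eq_true', decide_eq_false_iff_not, Prod.mk.injEq]
  constructor
  · rintro ⟨⟨s', h1, t', h2, rfl, rfl⟩, ⟨⟨h3, h4⟩, h5⟩, h6⟩
    exact ⟨h3, h2, h4, h5, h6⟩
  · rintro ⟨h1, h2, h3, h4, h5⟩
    exact ⟨⟨s, by omega, t, h2, rfl, rfl⟩, ⟨⟨h1, h3⟩, h4⟩, h5⟩

theorem bad_few {Q r : ℕ} [NeZero Q] (E : List (ℕ × ℕ)) (N m T g Δ : ℕ) (σ : Fin r → ZMod Q)
    (s : Fin m)
    (hs : s.1 ∈ badL (hB E N m Q T (List.ofFn fun i => (σ i).val)) m g Δ) :
    badC T (BB E N m) g σ s ∨ badD T (BB E N m) Δ σ s := by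
  classical
  obtain ⟨_, h1 | h1⟩ := mem_badL.1 hs
  · left
    obtain ⟨k, hk3, hkg, h2⟩ := shortB_iff.1 h1
    obtain ⟨t, h3, h4, h5, h6, h7⟩ := cycB_iff.1 h2
    obtain ⟨j, rfl⟩ : ∃ j, k = j + 3 := ⟨k - 3, by omega⟩
    have hlt : ∀ i : Fin (j + 3), t.getD i.1 0 < m := by
      intro i
      rw [List.getD_eq_getElem _ _ (by rw [h3]; exact i.2)]
      exact h4 _ (List.getElem_mem _)
    refine ⟨j, hkg, fun i => ⟨t.getD i.1 0, hlt i⟩, ?_, ?_, ?_⟩
    · intro i i' hii
      exact Fin.ext (h6 i.1 i.2 i'.1 i'.2 (by simpa using hii))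
    · intro i
      rw [← hB_iff]
      have h8 := h7 i.1 i.2
      have h9 : ((i + 1 : Fin (j + 3)) : ℕ) = (i.1 + 1) % (j + 3) := by
        rw [Fin.val_add]
        simp
      simp only [h9]
      exact h8
    · obtain ⟨i, hi, hi'⟩ := List.getElem_of_mem h5
      refine ⟨⟨i, by omega⟩, ?_⟩
      apply Fin.ext
      simp only
      rw [List.getD_eq_getElem _ _ hi, hi']
  · right
    unfold degB at h1
    rw [decide_eq_true_iff] at h1
    unfold badD
    refine lt_of_lt_of_le h1 ?_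
    have h2 : ((List.range m).filter fun t =>
        hB E N m Q T (List.ofFn fun i => (σ i).val) s.1 t).toFinset ⊆
        (Finset.univ.filter fun t => HA T (BB E N m) σ s t).image Fin.val := by
      intro t ht
      rw [List.mem_toFinset, List.mem_filter, List.mem_range] at ht
      exact Finset.mem_image.2 ⟨⟨t, ht.1⟩, Finset.mem_filter.2 ⟨Finset.mem_univ _,
        (hB_iff E N m T σ s ⟨t, ht.1⟩).1 ht.2⟩, rfl⟩
    have h3 := Finset.card_le_card h2
    rw [List.toFinset_card_of_nodup (List.nodup_range.filter _),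
      Finset.card_image_of_injective _ Fin.val_injective] at h3
    exact h3

end Pool.Agent.K9h49.VC
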