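import Mathlib

/-!
# Approximate matchings and covers of the bipartite double cover by an auction
-/

namespace Pool.Agent.K9h49.VC

/-- The neighbours of `u` of price less than `k`, cheapest first. -/
def nb (h : ℕ → ℕ → Bool) (n k : ℕ) (p : List ℕ) (u : ℕ) : List ℕ :=
  (List.range k).flatMap fun j => (List.range n).filter fun v => h u v && decide (p.getD v 0 = j)

/-- The possible bids. -/
def nxt (h : ℕ → ℕ → Bool) (n k : ℕ) (s : List ℕ × List ℕ) : List (ℕ × ℕ) :=
  ((List.range n).filter fun u => !(decide (u ∈ s.2))).flatMap fun u =>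
    ((nb h n k s.1 u).head?).elim [] fun v => [(u, v)]

/-- Update of a list. -/
def upd (n : ℕ) (l : List ℕ) (v x : ℕ) : List ℕ :=
  (List.range n).map fun i => if i = v then x else l.getD i 0

/-- One bid: prices and owners are updated. -/
def bid (h : ℕ → ℕ → Bool) (n k : ℕ) (s : List ℕ × List ℕ) : List ℕ × List ℕ :=
  ((nxt h n k s).head?).elim s fun e =>
    (upd n s.1 e.2 (s.1.getD e.2 0 + 1), upd n s.2 e.2 e.1)

/-- The auction. -/
def auc (h : ℕ → ℕ → Bool) (n k : ℕ) : List ℕ × List ℕ :=
  (List.range (k * n + 1)).foldl (fun s _ => bid h n k s)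
    ((List.range n).map fun _ => 0, (List.range n).map fun _ => n)

/-- The invariant. -/
structure Inv (h : ℕ → ℕ → Bool) (n k : ℕ) (s : List ℕ × List ℕ) : Prop where
  len : s.1.length = n ∧ s.2.length = n
  le : ∀ v < n, s.1.getD v 0 ≤ k
  owned : ∀ v < n, s.2.getD v 0 < n ∨ (s.2.getD v 0 = n ∧ s.1.getD v 0 = 0)
  inj : ∀ v < n, ∀ v' < n, s.2.getD v 0 = s.2.getD v' 0 → s.2.getD v 0 < n → v = v'
  happy : ∀ v < n, s.2.getD v 0 < n → h (s.2.getD v 0) v = true ∧
    ∀ w < n, h (s.2.getD v 0) w = true → s.1.getD v 0 ≤ s.1.getD w 0 + 1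

theorem upd_get {n : ℕ} {l : List ℕ} {v x i : ℕ} (hi : i < n) :
    (upd n l v x).getD i 0 = if i = v then x else l.getD i 0 := by
  unfold upd
  rw [List.getD_eq_getElem _ _ (by simpa using hi)]
  simp

theorem upd_len {n : ℕ} {l : List ℕ} {v x : ℕ} : (upd n l v x).length = n := by simp [upd]

theorem head_flatMap_range (f : ℕ → List ℕ) : ∀ (k v : ℕ),
    ((List.range k).flatMap f).head? = some v → ∃ j < k, v ∈ f j ∧ ∀ j' < j, f j' = []
  | 0, v, h => by simp at h
  | k + 1, v, h => by
    rw [List.range_succ, List.flatMap_append] at h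
    by_cases h0 : (List.range k).flatMap f = []
    · rw [h0, List.nil_append] at h
      simp only [List.flatMap_cons, List.flatMap_nil, List.append_nil] at h
      refine ⟨k, by omega, List.mem_of_head? h, fun j' hj' => ?_⟩
      by_contra hne
      obtain ⟨x, hx⟩ := List.exists_mem_of_ne_nil _ hne
      have : x ∈ (List.range k).flatMap f := List.mem_flatMap.2 ⟨j', List.mem_range.2 hj', hx⟩
      rw [h0] at this
      simp at this
    · obtain ⟨y, l, hy⟩ := List.exists_cons_of_ne_nil h0
      have h1 : ((List.range k).flatMap f).head? = some v := by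
        rw [hy] at h ⊢
        simpa using h
      obtain ⟨j, hj, h2, h3⟩ := head_flatMap_range f k v h1
      exact ⟨j, by omega, h2, h3⟩

theorem nb_head {h : ℕ → ℕ → Bool} {n k : ℕ} {p : List ℕ} {u v : ℕ}
    (hv : (nb h n k p u).head? = some v) :
    v < n ∧ h u v = true ∧ p.getD v 0 < k ∧ ∀ w < n, h u w = true → p.getD v 0 ≤ p.getD w 0 := by
  obtain ⟨j, hj, h1, h2⟩ := head_flatMap_range _ k v hv
  rw [List.mem_filter, List.mem_range, Bool.and_eq_true, decide_eq_true_iff] at h1
  refine ⟨h1.1, h1.2.1, by rw [h1.2.2]; exact hj, fun w hw huw => ?_⟩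
  rw [h1.2.2]
  by_contra hlt
  have h3 := h2 (p.getD w 0) (by omega)
  have h4 : w ∈ (List.range n).filter fun v => h u v && decide (p.getD v 0 = p.getD w 0) := by
    rw [List.mem_filter, List.mem_range, Bool.and_eq_true, decide_eq_true_iff]
    exact ⟨hw, huw, rfl⟩
  rw [h3] at h4
  simp at h4

theorem nb_nil {h : ℕ → ℕ → Bool} {n k : ℕ} {p : List ℕ} {u : ℕ}
    (hv : (nb h n k p u).head? = none) : ∀ w < n, h u w = true → k ≤ p.getD w 0 := by
  intro w hw huw
  by_contra hlt
  rw [List.head?_eq_none_iff] at hv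
  have : w ∈ nb h n k p u := by
    unfold nb
    rw [List.mem_flatMap]
    refine ⟨p.getD w 0, List.mem_range.2 (by omega), ?_⟩
    rw [List.mem_filter, List.mem_range, Bool.and_eq_true, decide_eq_true_iff]
    exact ⟨hw, huw, rfl⟩
  rw [hv] at this
  simp at this

theorem nxt_head {h : ℕ → ℕ → Bool} {n k : ℕ} {s : List ℕ × List ℕ} {e : ℕ × ℕ}
    (he : (nxt h n k s).head? = some e) : e.1 < n ∧ e.1 ∉ s.2 ∧
      (nb h n k s.1 e.1).head? = some e.2 := by
  have h1 := List.mem_of_head? he
  unfold nxt at h1
  rw [List.mem_flatMap] at h1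
  obtain ⟨u, hu, h2⟩ := h1
  rw [List.mem_filter, List.mem_range] at hu
  cases h3 : (nb h n k s.1 u).head? with
  | none => rw [h3] at h2; simp at h2
  | some v =>
    rw [h3] at h2
    simp only [Option.elim_some, List.mem_singleton] at h2
    subst h2
    exact ⟨hu.1, by simpa using hu.2, h3⟩

theorem nxt_nil {h : ℕ → ℕ → Bool} {n k : ℕ} {s : List ℕ × List ℕ}
    (he : (nxt h n k s).head? = none) :
    ∀ u < n, u ∉ s.2 → ∀ w < n, h u w = true → k ≤ s.1.getD w 0 := by
  intro u hu hus
  refine nb_nil ?_
  rw [List.head?_eq_none_iff] at he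
  cases h3 : (nb h n k s.1 u).head? with
  | none => rfl
  | some v =>
    exfalso
    have : (u, v) ∈ nxt h n k s := by
      unfold nxt
      rw [List.mem_flatMap]
      refine ⟨u, ?_, ?_⟩
      · rw [List.mem_filter, List.mem_range]
        exact ⟨hu, by simpa using hus⟩
      · rw [h3]
        simp
    rw [he] at this
    simp at this

theorem not_mem_get {n : ℕ} {l : List ℕ} (hl : l.length = n) {u v : ℕ} (hu : u ∉ l) (hv : v < n) :
    l.getD v 0 ≠ u := by
  intro h
  apply hu
  rw [List.getD_eq_getElem _ _ (by omega)] at h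
  rw [← h]
  exact List.getElem_mem _

theorem inv_bid {h : ℕ → ℕ → Bool} {n k : ℕ} {s : List ℕ × List ℕ} (hs : Inv h n k s) :
    Inv h n k (bid h n k s) ∧ ((nxt h n k s).head? = none ∧ bid h n k s = s ∨
      ∑ v ∈ Finset.range n, (bid h n k s).1.getD v 0 =
        ∑ v ∈ Finset.range n, s.1.getD v 0 + 1) := by
  unfold bid
  cases he : (nxt h n k s).head? with
  | none => exact ⟨hs, Or.inl ⟨rfl, rfl⟩⟩
  | some e =>
    obtain ⟨u, v⟩ := e
    obtain ⟨hu, hus, h1⟩ := nxt_head he
    obtain ⟨hv, huv, hpk, hmin⟩ := nb_head h1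
    simp only at hu hus hv huv hpk hmin h1
    simp only [Option.elim_some]
    refine ⟨⟨⟨upd_len, upd_len⟩, ?_, ?_, ?_, ?_⟩, Or.inr ?_⟩
    · intro w hw
      rw [upd_get hw]
      split_ifs
      · omega
      · exact hs.le w hw
    · intro w hw
      simp only
      rw [upd_get hw, upd_get hw]
      split_ifs
      · exact Or.inl hu
      · exact hs.owned w hw
    · intro w hw w' hw'
      simp only
      rw [upd_get hw, upd_get hw']
      split_ifs with a b b
      · intro _ _; rw [a, b]
      · intro h2 _
        exact absurd h2.symm (not_mem_get hs.len.2 hus hw')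
      · intro h2 _
        exact absurd h2 (not_mem_get hs.len.2 hus hw)
      · exact hs.inj w hw w' hw'
    · intro w hw
      simp only
      rw [upd_get hw, upd_get hw]
      split_ifs with a
      · intro _
        rw [a]
        refine ⟨huv, fun x hx hux => ?_⟩
        have h2 := hmin x hx hux
        rw [upd_get hx]
        split_ifs
        · omega
        · omega
      · intro h2
        obtain ⟨h3, h4⟩ := hs.happy w hw h2
        refine ⟨h3, fun x hx hox => ?_⟩
        have h5 := h4 x hx hox
        rw [upd_get hx]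
        split_ifs with b
        · rw [b] at h5; omega
        · exact h5
    · have e1 : ∀ w ∈ Finset.range n, (upd n s.1 v (s.1.getD v 0 + 1)).getD w 0 =
          s.1.getD w 0 + if w = v then 1 else 0 := by
        intro w hw
        rw [upd_get (Finset.mem_range.1 hw)]
        split_ifs with a
        · rw [a]
        · rfl
      rw [Finset.sum_congr rfl e1, Finset.sum_add_distrib, Finset.sum_ite_eq',
        if_pos (Finset.mem_range.2 hv)]

theorem auc_aux (h : ℕ → ℕ → Bool) (n k : ℕ) : ∀ i : ℕ,
    Inv h n k ((List.range i).foldl (fun s _ => bid h n k s)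
      ((List.range n).map fun _ => 0, (List.range n).map fun _ => n)) ∧
    ((nxt h n k ((List.range i).foldl (fun s _ => bid h n k s)
      ((List.range n).map fun _ => 0, (List.range n).map fun _ => n))).head? = none ∨
      i ≤ ∑ v ∈ Finset.range n, ((List.range i).foldl (fun s _ => bid h n k s)
      ((List.range n).map fun _ => 0, (List.range n).map fun _ => n)).1.getD v 0)
  | 0 => by
    have e1 : ∀ v < n, ((List.range n).map fun _ => 0).getD v 0 = 0 := by
      intro v hv
      rw [List.getD_eq_getElem _ _ (by simpa using hv)]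
      simp
    have e2 : ∀ v < n, ((List.range n).map fun _ => n).getD v 0 = n := by
      intro v hv
      rw [List.getD_eq_getElem _ _ (by simpa using hv)]
      simp
    refine ⟨⟨by simp, fun v hv => ?_, fun v hv => Or.inr ?_, fun v hv v' _ _ h3 => ?_,
      fun v hv h3 => ?_⟩, Or.inr (Nat.zero_le _)⟩
    · show ((List.range n).map fun _ => 0).getD v 0 ≤ k
      rw [e1 v hv]; exact Nat.zero_le _
    · show ((List.range n).map fun _ => n).getD v 0 = n ∧
        ((List.range n).map fun _ => 0).getD v 0 = 0
      exact ⟨e2 v hv, e1 v hv⟩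
    · have h4 : ((List.range n).map fun _ => n).getD v 0 < n := h3
      rw [e2 v hv] at h4
      omega
    · have h4 : ((List.range n).map fun _ => n).getD v 0 < n := h3
      rw [e2 v hv] at h4
      omega
  | i + 1 => by
    obtain ⟨h1, h2⟩ := auc_aux h n k i
    rw [List.range_succ, List.foldl_append, List.foldl_cons, List.foldl_nil]
    set s := (List.range i).foldl (fun s _ => bid h n k s)
      ((List.range n).map fun _ => 0, (List.range n).map fun _ => n)
    obtain ⟨h3, h4⟩ := inv_bid h1
    refine ⟨h3, ?_⟩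
    rcases h4 with ⟨h5, h6⟩ | h5
    · rw [h6]
      exact Or.inl h5
    · rcases h2 with h6 | h6
      · left
        have : bid h n k s = s := by
          unfold bid
          rw [h6]
          rfl
        rw [this]
        exact h6
      · right
        rw [h5]
        omega

theorem auc_spec (h : ℕ → ℕ → Bool) (n k : ℕ) : Inv h n k (auc h n k) ∧
    ∀ u < n, u ∉ (auc h n k).2 → ∀ w < n, h u w = true → k ≤ (auc h n k).1.getD w 0 := by
  obtain ⟨h1, h2⟩ := auc_aux h n k (k * n + 1)
  refine ⟨h1, ?_⟩
  rcases h2 with h2 | h2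
  · exact nxt_nil h2
  · exfalso
    have h3 := Finset.sum_le_card_nsmul (Finset.range n) _ k fun v hv =>
      h1.le v (Finset.mem_range.1 hv)
    rw [Finset.card_range, smul_eq_mul] at h3
    have h4 := Nat.mul_comm n k
    omega

/-- Twice the value of the half-integral solution. -/
def xv (h : ℕ → ℕ → Bool) (n : ℕ) (p : List ℕ) (τ v : ℕ) : ℕ :=
  (if ((List.range n).any fun w => h v w && decide (p.getD w 0 < τ)) = true then 1 else 0) +
    if τ ≤ p.getD v 0 then 1 else 0

section

variable {h : ℕ → ℕ → Bool} {n k : ℕ} (hs : ∀ u v, h u v = h v u)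

include hs in
theorem xv_feasible (p : List ℕ) (τ : ℕ) {u v : ℕ} (hu : u < n) (hv : v < n)
    (huv : h u v = true) : 2 ≤ xv h n p τ u + xv h n p τ v := by
  have key : ∀ a b, b < n → h a b = true →
      (¬ ((List.range n).any fun w => h a w && decide (p.getD w 0 < τ)) = true) →
      τ ≤ p.getD b 0 := by
    intro a b hb hab h1
    by_contra h2
    apply h1
    rw [List.any_eq_true]
    refine ⟨b, List.mem_range.2 hb, ?_⟩
    rw [Bool.and_eq_true, decide_eq_true_iff]
    exact ⟨hab, by omega⟩
  have k1 := key u v hv huv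
  have k2 := key v u hu (by rw [hs]; exact huv)
  unfold xv
  by_cases a1 : ((List.range n).any fun w => h u w && decide (p.getD w 0 < τ)) = true
  · by_cases a2 : ((List.range n).any fun w => h v w && decide (p.getD w 0 < τ)) = true
    · rw [if_pos a1, if_pos a2]; omega
    · rw [if_pos a1, if_neg a2, if_pos (k2 a2)]; omega
  · by_cases a2 : ((List.range n).any fun w => h v w && decide (p.getD w 0 < τ)) = true
    · rw [if_neg a1, if_pos a2, if_pos (k1 a1)]; omega
    · rw [if_neg a1, if_neg a2, if_pos (k1 a1), if_pos (k2 a2)]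

theorem xv_le (p : List ℕ) (τ v : ℕ) : xv h n p τ v ≤ 2 := by
  unfold xv
  split_ifs <;> omega

/-- Weak duality. -/
theorem weak_duality (X : ℕ → ℕ) (hX : ∀ u < n, ∀ v < n, h u v = true → 2 ≤ X u + X v) :
    ((Finset.range n).filter fun v => (auc h n k).2.getD v 0 < n).card ≤
      ∑ v ∈ Finset.range n, X v := by
  obtain ⟨hI, _⟩ := auc_spec h n k
  set s := auc h n k
  set O := (Finset.range n).filter fun v => s.2.getD v 0 < n with hO
  have h1 : 2 * O.card ≤ ∑ v ∈ O, (X (s.2.getD v 0) + X v) := by
    rw [mul_comm, ← smul_eq_mul]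
    refine Finset.card_nsmul_le_sum _ _ _ fun v hv => ?_
    obtain ⟨hv1, hv2⟩ := Finset.mem_filter.1 hv
    exact hX _ hv2 v (Finset.mem_range.1 hv1) (hI.happy v (Finset.mem_range.1 hv1) hv2).1
  have h2 : ∑ v ∈ O, X (s.2.getD v 0) ≤ ∑ v ∈ Finset.range n, X v := by
    rw [← Finset.sum_image (f := X) (g := fun v => s.2.getD v 0) (s := O)]
    · refine Finset.sum_le_sum_of_subset fun u hu => ?_
      obtain ⟨v, hv, rfl⟩ := Finset.mem_image.1 hu
      exact Finset.mem_range.2 (Finset.mem_filter.1 hv).2
    · intro a ha b hb hab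
      obtain ⟨ha1, ha2⟩ := Finset.mem_filter.1 (Finset.mem_coe.1 ha)
      obtain ⟨hb1, _⟩ := Finset.mem_filter.1 (Finset.mem_coe.1 hb)
      exact hI.inj a (Finset.mem_range.1 ha1) b (Finset.mem_range.1 hb1) hab ha2
  have h3 : ∑ v ∈ O, X v ≤ ∑ v ∈ Finset.range n, X v :=
    Finset.sum_le_sum_of_subset (Finset.filter_subset _ _)
  rw [Finset.sum_add_distrib] at h1
  omega

/-- For some threshold the half-integral solution is almost optimal. -/
theorem exists_threshold (hk : 1 ≤ k) : ∃ τ, 1 ≤ τ ∧ τ ≤ k ∧
    k * ∑ v ∈ Finset.range n, xv h n (auc h n k).1 τ v ≤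
      (k + 1) * ((Finset.range n).filter fun v => (auc h n k).2.getD v 0 < n).card := by
  obtain ⟨hI, hstuck⟩ := auc_spec h n k
  set s := auc h n k
  set O := (Finset.range n).filter fun v => s.2.getD v 0 < n with hO
  -- the averaging
  obtain ⟨τ, hτ1, hτ2, hτ3⟩ : ∃ τ, 1 ≤ τ ∧ τ ≤ k ∧
      k * (O.filter fun v => s.1.getD v 0 = τ).card ≤ O.card := by
    by_contra hcon
    push Not at hcon
    have h1 : ∑ τ ∈ Finset.Icc 1 k, (O.filter fun v => s.1.getD v 0 = τ).card ≤ O.card := by
      rw [← Finset.card_biUnion]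
      · refine Finset.card_le_card fun v hv => ?_
        obtain ⟨τ, _, hτ⟩ := Finset.mem_biUnion.1 hv
        exact (Finset.mem_filter.1 hτ).1
      · intro a _ b _ hab
        refine Finset.disjoint_left.2 fun v hv hv' => hab ?_
        rw [← (Finset.mem_filter.1 hv).2, ← (Finset.mem_filter.1 hv').2]
    have h2 : ∑ _τ ∈ Finset.Icc 1 k, O.card <
        ∑ τ ∈ Finset.Icc 1 k, k * (O.filter fun v => s.1.getD v 0 = τ).card := by
      refine Finset.sum_lt_sum_of_nonempty ⟨1, Finset.mem_Icc.2 ⟨le_rfl, hk⟩⟩ fun τ hτ => ?_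
      exact hcon τ (Finset.mem_Icc.1 hτ).1 (Finset.mem_Icc.1 hτ).2
    rw [Finset.sum_const, Nat.card_Icc, ← Finset.mul_sum, smul_eq_mul] at h2
    have h3 := Nat.mul_le_mul_left k h1
    simp only [Nat.add_sub_cancel] at h2
    omega
  refine ⟨τ, hτ1, hτ2, ?_⟩
  have e1 : ∑ v ∈ Finset.range n, xv h n s.1 τ v =
      ((Finset.range n).filter fun v =>
        ((List.range n).any fun w => h v w && decide (s.1.getD w 0 < τ)) = true).card +
      ((Finset.range n).filter fun v => τ ≤ s.1.getD v 0).card := by
    unfold xv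
    rw [Finset.sum_add_distrib, Finset.card_filter, Finset.card_filter]
  have h4 : ((Finset.range n).filter fun v =>
      ((List.range n).any fun w => h v w && decide (s.1.getD w 0 < τ)) = true).card ≤
      (O.filter fun v => s.1.getD v 0 ≤ τ).card := by
    refine le_trans (Finset.card_le_card (t := (O.filter fun v => s.1.getD v 0 ≤ τ).image
      fun v => s.2.getD v 0) fun u hu => ?_) Finset.card_image_le
    obtain ⟨hu1, hu2⟩ := Finset.mem_filter.1 hu
    rw [List.any_eq_true] at hu2
    obtain ⟨w, hw, hw2⟩ := hu2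
    rw [Bool.and_eq_true, decide_eq_true_iff] at hw2
    have hw' := List.mem_range.1 hw
    by_cases hmem : u ∈ s.2
    · obtain ⟨v, hv, hvu⟩ := List.getElem_of_mem hmem
      have hvn : v < n := by rw [← hI.len.2]; exact hv
      have hou : s.2.getD v 0 = u := by rw [List.getD_eq_getElem _ _ hv, hvu]
      have hov : s.2.getD v 0 < n := by rw [hou]; exact Finset.mem_range.1 hu1
      refine Finset.mem_image.2 ⟨v, Finset.mem_filter.2 ⟨Finset.mem_filter.2
        ⟨Finset.mem_range.2 hvn, hov⟩, ?_⟩, hou⟩
      have := (hI.happy v hvn hov).2 w hw' (by rw [hou]; exact hw2.1)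
      omega
    · have := hstuck u (Finset.mem_range.1 hu1) hmem w hw' hw2.1
      omega
  have h5 : ((Finset.range n).filter fun v => τ ≤ s.1.getD v 0).card ≤
      (O.filter fun v => τ ≤ s.1.getD v 0).card := by
    refine Finset.card_le_card fun v hv => ?_
    obtain ⟨hv1, hv2⟩ := Finset.mem_filter.1 hv
    refine Finset.mem_filter.2 ⟨Finset.mem_filter.2 ⟨hv1, ?_⟩, hv2⟩
    rcases hI.owned v (Finset.mem_range.1 hv1) with h6 | h6
    · exact h6
    · omega
  have h6 : (O.filter fun v => s.1.getD v 0 ≤ τ).card + (O.filter fun v => τ ≤ s.1.getD v 0).card =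
      O.card + (O.filter fun v => s.1.getD v 0 = τ).card := by
    rw [← Finset.card_union_add_card_inter]
    congr 1
    · congr 1
      ext v
      simp only [Finset.mem_union, Finset.mem_filter]
      constructor
      · rintro (h7 | h7) <;> exact h7.1
      · intro h7
        rcases Nat.le_total (s.1.getD v 0) τ with h8 | h8
        · exact Or.inl ⟨h7, h8⟩
        · exact Or.inr ⟨h7, h8⟩
    · congr 1
      ext v
      simp only [Finset.mem_inter, Finset.mem_filter]
      constructor
      · rintro ⟨h7, h8⟩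
        exact ⟨h7.1, le_antisymm h7.2 h8.2⟩
      · rintro ⟨h7, h8⟩
        exact ⟨⟨h7, h8.le⟩, ⟨h7, h8.ge⟩⟩
  rw [e1]
  calc k * (_ + _) ≤ k * ((O.filter fun v => s.1.getD v 0 ≤ τ).card +
        (O.filter fun v => τ ≤ s.1.getD v 0).card) := Nat.mul_le_mul_left _ (Nat.add_le_add h4 h5)
    _ = k * O.card + k * (O.filter fun v => s.1.getD v 0 = τ).card := by rw [h6, mul_add]
    _ ≤ (k + 1) * O.card := by rw [add_mul, one_mul]; omega

include hs in
/-- Approximate persistency. -/
theorem persist (hk : 1 ≤ k) : ∃ τ, 1 ≤ τ ∧ τ ≤ k ∧ ∀ C : ℕ → Prop, ∀ [DecidablePred C],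
    (∀ u < n, ∀ v < n, h u v = true → C u ∨ C v) →
    k * (((Finset.range n).filter fun v => xv h n (auc h n k).1 τ v = 2).card +
      ((Finset.range n).filter fun v => xv h n (auc h n k).1 τ v = 1 ∧ C v).card) ≤
      (k + 2) * ((Finset.range n).filter fun v => C v).card ∧
    k * (2 * ((Finset.range n).filter fun v => xv h n (auc h n k).1 τ v = 2).card +
      ((Finset.range n).filter fun v => xv h n (auc h n k).1 τ v = 1).card) ≤
      2 * (k + 1) * ((Finset.range n).filter fun v => C v).card := by
  obtain ⟨τ, h1, h2, h3⟩ := exists_threshold (h := h) (n := n) hk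
  refine ⟨τ, h1, h2, fun C _ hC => ?_⟩
  set X := xv h n (auc h n k).1 τ with hX
  set O := (Finset.range n).filter fun v => (auc h n k).2.getD v 0 < n with hO
  have hXf : ∀ u < n, ∀ v < n, h u v = true → 2 ≤ X u + X v := fun u hu v hv huv =>
    xv_feasible hs _ τ hu hv huv
  have hX2 : ∀ v, X v ≤ 2 := fun v => xv_le _ _ _
  -- the cover itself
  have a1 : O.card ≤ 2 * ((Finset.range n).filter fun v => C v).card := by
    have := weak_duality (h := h) (n := n) (k := k) (fun v => if C v then 2 else 0)
      (fun u hu v hv huv => by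
        rcases hC u hu v hv huv with h4 | h4
        · simp only [h4, if_true]; omega
        · simp only [h4, if_true]; omega)
    rw [← Finset.sum_filter, Finset.sum_const, smul_eq_mul, mul_comm] at this
    exact this
  -- the modified solution
  have a2 : O.card ≤ ∑ v ∈ Finset.range n, (if X v = 0 then (if C v then 1 else 0) else
      if X v = 2 then (if C v then 2 else 1) else 1) := by
    refine weak_duality (h := h) (n := n) (k := k) _ fun u hu v hv huv => ?_
    have b1 := hXf u hu v hv huv
    have b2 := hX2 u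
    have b3 := hX2 v
    have b4 := hC u hu v hv huv
    by_cases c1 : X u = 0
    · have c2 : X v = 2 := by omega
      rw [if_pos c1, if_neg (by omega : ¬ X v = 0), if_pos c2]
      rcases b4 with b4 | b4
      · rw [if_pos b4]; split_ifs <;> omega
      · rw [if_pos b4]; omega
    · by_cases c2 : X v = 0
      · have c3 : X u = 2 := by omega
        rw [if_neg c1, if_pos c3, if_pos c2]
        rcases b4 with b4 | b4
        · rw [if_pos b4]; omega
        · rw [if_pos b4]; split_ifs <;> omega
      · rw [if_neg c1, if_neg c2]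
        split_ifs <;> omega
  have cf : ∀ P : ℕ → Prop, ∀ [DecidablePred P], ((Finset.range n).filter P).card =
      ∑ v ∈ Finset.range n, if P v then 1 else 0 := fun P _ => Finset.card_filter _ _
  have e1 : ∑ v ∈ Finset.range n, X v =
      2 * ((Finset.range n).filter fun v => X v = 2).card +
        ((Finset.range n).filter fun v => X v = 1).card := by
    rw [cf, cf, Finset.mul_sum, ← Finset.sum_add_distrib]
    refine Finset.sum_congr rfl fun v _ => ?_
    have := hX2 v
    split_ifs <;> omega
  have e2 : (∑ v ∈ Finset.range n, (if X v = 0 then (if C v then 1 else 0) else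
      if X v = 2 then (if C v then 2 else 1) else 1)) +
      2 * ((Finset.range n).filter fun v => X v = 2).card +
      ((Finset.range n).filter fun v => X v = 1 ∧ C v).card =
      ∑ v ∈ Finset.range n, X v + ((Finset.range n).filter fun v => C v).card +
        ((Finset.range n).filter fun v => X v = 2).card := by
    rw [cf, cf, cf, Finset.mul_sum, ← Finset.sum_add_distrib, ← Finset.sum_add_distrib,
      ← Finset.sum_add_distrib, ← Finset.sum_add_distrib]
    refine Finset.sum_congr rfl fun v _ => ?_
    have := hX2 v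
    by_cases c0 : X v = 0
    · by_cases cC : C v <;> simp [c0, cC]
    · by_cases c2 : X v = 2
      · by_cases cC : C v <;> simp [c2, cC]
      · have c1 : X v = 1 := by omega
        by_cases cC : C v <;> simp [c1, cC]
  set S := ∑ v ∈ Finset.range n, X v with hS
  set v1 := ((Finset.range n).filter fun v => X v = 2).card
  set ch := ((Finset.range n).filter fun v => X v = 1 ∧ C v).card
  set c := ((Finset.range n).filter fun v => C v).card
  constructor
  · -- v1 + ch <= c + S - |O|, k S <= (k + 1) |O|
    have f1 : v1 + ch + O.card ≤ S + c := by omega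
    have f2 : k * (v1 + ch) + k * O.card ≤ k * S + k * c := by
      rw [← mul_add, ← mul_add]
      exact Nat.mul_le_mul_left _ f1
    have f3 : k * S ≤ k * O.card + O.card := by
      rw [add_mul, one_mul] at h3; exact h3
    rw [add_mul]
    omega
  · rw [← e1]
    calc k * S ≤ (k + 1) * O.card := h3
      _ ≤ (k + 1) * (2 * c) := Nat.mul_le_mul_left _ a1
      _ = 2 * (k + 1) * c := by ring

end

end Pool.Agent.K9h49.VC
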