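import Mathlib

/-!
# Powers of matrices, closed walks and the trace bound
-/

namespace Pool.Agent.K9h49.VC

open Finset

variable {V : Type} [Fintype V] [DecidableEq V]

theorem pow_apply_walk (M : Matrix V V ℝ) (k : ℕ) : ∀ s t : V, (M ^ (k + 1)) s t =
    ∑ w : Fin k → V, ∏ i : Fin (k + 1), M (Fin.cons (α := fun _ => V) s w i)
      (Fin.snoc (α := fun _ => V) w t i) := by
  induction k with
  | zero =>
    intro s t
    rw [Fintype.sum_unique]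
    simp [Fin.snoc]
  | succ k ih =>
    intro s t
    rw [pow_succ', Matrix.mul_apply]
    rw [← (Fin.consEquiv (fun _ : Fin (k + 1) => V)).sum_comp, Fintype.sum_prod_type]
    refine Finset.sum_congr rfl fun u _ => ?_
    rw [ih u t, Finset.mul_sum]
    refine Finset.sum_congr rfl fun w _ => ?_
    rw [Fin.prod_univ_succ (n := k + 1)]
    refine congrArg₂ (· * ·) rfl (Finset.prod_congr rfl fun i _ => ?_)
    have e2 : (Fin.snoc (α := fun _ => V) (Fin.cons (α := fun _ => V) u w : Fin (k + 1) → V) t :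
        Fin (k + 2) → V) i.succ = (Fin.snoc (α := fun _ => V) w t : Fin (k + 1) → V) i := by
      rw [← Fin.cons_snoc_eq_snoc_cons, Fin.cons_succ]
    exact congrArg (M (Fin.cons (α := fun _ => V) u w i)) e2.symm

theorem trace_pow_walk (M : Matrix V V ℝ) (k : ℕ) : (M ^ (k + 1)).trace =
    ∑ w : Fin (k + 1) → V, ∏ i, M (w i) (w (i + 1)) := by
  rw [← (Fin.consEquiv (fun _ : Fin (k + 1) => V)).sum_comp, Fintype.sum_prod_type,
    Matrix.trace]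
  refine Finset.sum_congr rfl fun s _ => ?_
  rw [Matrix.diag_apply, pow_apply_walk]
  refine Finset.sum_congr rfl fun w _ => ?_
  refine Finset.prod_congr rfl fun i _ => ?_
  simp only [Fin.consEquiv_apply]
  congr 1
  induction i using Fin.lastCases with
  | last => rw [Fin.snoc_last, Fin.last_add_one, Fin.cons_zero]
  | cast j => rw [Fin.snoc_castSucc, Fin.coeSucc_eq_succ, Fin.cons_succ]

/-- `|x ∙ M y|^(2^(k+1)) ≤ |x|^(2^(k+1)) |y|^(2^(k+1)) tr M^(2^(k+1))`. -/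
theorem dot_pow_le (M : Matrix V V ℝ) (hM : M.IsSymm) (x y : V → ℝ) (k : ℕ) :
    (x ⬝ᵥ M.mulVec y) ^ 2 ^ (k + 1) ≤
      (x ⬝ᵥ x) ^ 2 ^ k * (y ⬝ᵥ y) ^ 2 ^ k * (M ^ 2 ^ (k + 1)).trace := by
  have hcs : ∀ a b : V → ℝ, (a ⬝ᵥ b) ^ 2 ≤ (a ⬝ᵥ a) * (b ⬝ᵥ b) := by
    intro a b
    have := Finset.sum_mul_sq_le_sq_mul_sq Finset.univ a b
    simpa [dotProduct, sq] using this
  have hnn : ∀ a : V → ℝ, 0 ≤ a ⬝ᵥ a := fun a => by
    unfold dotProduct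
    exact Finset.sum_nonneg fun i _ => mul_self_nonneg _
  have hsym : ∀ j, (M ^ j).IsSymm := fun j => hM.pow j
  have hmove : ∀ j (a b : V → ℝ), (M ^ j).mulVec a ⬝ᵥ b = a ⬝ᵥ (M ^ j).mulVec b := by
    intro j a b
    rw [Matrix.dotProduct_mulVec, ← Matrix.mulVec_transpose, (hsym j).eq]
  set A : ℕ → ℝ := fun j => y ⬝ᵥ (M ^ (2 * j)).mulVec y with hA
  have hAn : ∀ j, A j = (M ^ j).mulVec y ⬝ᵥ (M ^ j).mulVec y := by
    intro j
    rw [hmove, Matrix.mulVec_mulVec, ← pow_add, ← two_mul]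
  have hA0 : ∀ j, 0 ≤ A j := fun j => by rw [hAn]; exact hnn _
  have hAsq : ∀ j, A j ^ 2 ≤ (y ⬝ᵥ y) * A (2 * j) := by
    intro j
    refine (hcs _ _).trans ?_
    rw [hAn (2 * j)]
  have hAk : ∀ j, A 1 ^ 2 ^ j ≤ (y ⬝ᵥ y) ^ (2 ^ j - 1) * A (2 ^ j) := by
    intro j
    induction j with
    | zero => simp
    | succ j ih =>
      have h1 : A 1 ^ 2 ^ (j + 1) = (A 1 ^ 2 ^ j) ^ 2 := by rw [← pow_mul, pow_succ]
      rw [h1]
      calc (A 1 ^ 2 ^ j) ^ 2 ≤ ((y ⬝ᵥ y) ^ (2 ^ j - 1) * A (2 ^ j)) ^ 2 :=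
            pow_le_pow_left₀ (pow_nonneg (hA0 _) _) ih 2
        _ = (y ⬝ᵥ y) ^ (2 * (2 ^ j - 1)) * A (2 ^ j) ^ 2 := by
            rw [mul_pow, ← pow_mul, mul_comm 2]
        _ ≤ (y ⬝ᵥ y) ^ (2 * (2 ^ j - 1)) * ((y ⬝ᵥ y) * A (2 * 2 ^ j)) :=
            mul_le_mul_of_nonneg_left (hAsq _) (pow_nonneg (hnn _) _)
        _ = (y ⬝ᵥ y) ^ (2 ^ (j + 1) - 1) * A (2 ^ (j + 1)) := by
            rw [← mul_assoc, ← pow_succ, pow_succ' 2 j]
            congr 2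
            have := Nat.one_le_two_pow (n := j)
            omega
  have hlast : ∀ j, A j ≤ (y ⬝ᵥ y) * (M ^ (2 * j)).trace := by
    intro j
    rw [hAn, two_mul, pow_add]
    set R := M ^ j with hR
    have hRs : R.IsSymm := hsym j
    have h1 : (R * R).trace = ∑ i, (fun k => R i k) ⬝ᵥ (fun k => R i k) := by
      rw [Matrix.trace]
      refine Finset.sum_congr rfl fun i _ => ?_
      rw [Matrix.diag_apply, Matrix.mul_apply]
      refine Finset.sum_congr rfl fun k _ => ?_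
      show R i k * R k i = R i k * R i k
      rw [hRs.apply]
    rw [h1, Finset.mul_sum]
    have h2 : R.mulVec y ⬝ᵥ R.mulVec y = ∑ i, ((fun k => R i k) ⬝ᵥ y) ^ 2 := by
      simp only [dotProduct, Matrix.mulVec, sq]
    rw [h2]
    refine Finset.sum_le_sum fun i _ => ?_
    rw [mul_comm]
    exact hcs _ _
  have h3 : (x ⬝ᵥ M.mulVec y) ^ 2 ≤ (x ⬝ᵥ x) * A 1 := by
    refine (hcs _ _).trans ?_
    rw [hAn, pow_one]
  calc (x ⬝ᵥ M.mulVec y) ^ 2 ^ (k + 1) = ((x ⬝ᵥ M.mulVec y) ^ 2) ^ 2 ^ k := by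
        rw [← pow_mul, pow_succ' 2 k]
    _ ≤ ((x ⬝ᵥ x) * A 1) ^ 2 ^ k := pow_le_pow_left₀ (sq_nonneg _) h3 _
    _ = (x ⬝ᵥ x) ^ 2 ^ k * A 1 ^ 2 ^ k := mul_pow _ _ _
    _ ≤ (x ⬝ᵥ x) ^ 2 ^ k * ((y ⬝ᵥ y) ^ (2 ^ k - 1) * A (2 ^ k)) :=
        mul_le_mul_of_nonneg_left (hAk k) (pow_nonneg (hnn _) _)
    _ ≤ (x ⬝ᵥ x) ^ 2 ^ k * ((y ⬝ᵥ y) ^ (2 ^ k - 1) *
          ((y ⬝ᵥ y) * (M ^ (2 * 2 ^ k)).trace)) := by
        refine mul_le_mul_of_nonneg_left ?_ (pow_nonneg (hnn _) _)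
        exact mul_le_mul_of_nonneg_left (hlast _) (pow_nonneg (hnn _) _)
    _ = (x ⬝ᵥ x) ^ 2 ^ k * (y ⬝ᵥ y) ^ 2 ^ k * (M ^ 2 ^ (k + 1)).trace := by
        rw [← mul_assoc ((y ⬝ᵥ y) ^ (2 ^ k - 1)), ← pow_succ, pow_succ' 2 k,
          Nat.sub_add_cancel Nat.one_le_two_pow, mul_assoc]

end Pool.Agent.K9h49.VC
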