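import Pool.Agent.K9h49.VC.Kw
import Pool.Agent.K9h49.VC.Tr

/-!
# Closed walks in the random graph
-/

namespace Pool.Agent.K9h49.VC

open Finset

section

variable {V : Type} [DecidableEq V]

theorem sum_pattern [Fintype V] (L m : ℕ) (hm : Fintype.card V = m) (hm0 : 0 < m) :
    ∑ w : Fin L → V, ((1 : ℝ) / m) ^ (univ.image w).card ≤ (L : ℝ) ^ L := by
  classical
  set pat : (Fin L → V) → (Fin L → Fin L) := fun w i =>
    (univ.filter (fun j => w j = w i)).min' ⟨i, by simp⟩ with hpat
  have h1 : ∀ (w : Fin L → V) (i : Fin L), w (pat w i) = w i := by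
    intro w i
    have := Finset.min'_mem (univ.filter (fun j => w j = w i)) ⟨i, by simp⟩
    simpa using this
  have h2 : ∀ w : Fin L → V, (univ.image (pat w)).card ≤ (univ.image w).card := by
    intro w
    refine Finset.card_le_card_of_injOn w (fun i _ => Finset.mem_image_of_mem _ (mem_univ _)) ?_
    intro a ha b hb hab
    obtain ⟨i, _, rfl⟩ := Finset.mem_image.1 (Finset.mem_coe.1 ha)
    obtain ⟨j, _, rfl⟩ := Finset.mem_image.1 (Finset.mem_coe.1 hb)
    have hab' : w i = w j := by
      rw [← h1 w i, ← h1 w j]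
      exact hab
    simp only [hpat, hab']
  rw [← Finset.sum_fiberwise (s := univ) (g := pat)]
  have h3 : ∀ φ : Fin L → Fin L, ∑ w ∈ univ.filter (fun w => pat w = φ),
      ((1 : ℝ) / m) ^ (univ.image w).card ≤ 1 := by
    intro φ
    have h4 : ∀ w ∈ univ.filter (fun w => pat w = φ), ((1 : ℝ) / m) ^ (univ.image w).card ≤
        ((1 : ℝ) / m) ^ (univ.image φ).card := by
      intro w hw
      have hw' : pat w = φ := by simpa using hw
      refine pow_le_pow_of_le_one (by positivity) ?_ ?_
      · rw [div_le_one (by positivity)]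
        exact_mod_cast hm0
      · rw [← hw']
        exact h2 w
    refine (Finset.sum_le_sum h4).trans ?_
    rw [Finset.sum_const, nsmul_eq_mul]
    have h5 : (univ.filter (fun w => pat w = φ)).card ≤ m ^ (univ.image φ).card := by
      have h6 : (univ.filter (fun w => pat w = φ)).card ≤
          Fintype.card (↥(univ.image φ) → V) := by
        rw [← Finset.card_univ]
        refine Finset.card_le_card_of_injOn (fun w i => w i.1) (fun _ _ => mem_univ _) ?_
        intro w hw w' hw' h
        have e1 : pat w = φ := by simpa using hw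
        have e2 : pat w' = φ := by simpa using hw'
        funext i
        rw [← h1 w i, ← h1 w' i, e1, e2]
        exact congrFun h ⟨φ i, Finset.mem_image_of_mem _ (mem_univ _)⟩
      refine h6.trans ?_
      rw [Fintype.card_fun, hm, Fintype.card_coe]
    calc ((univ.filter (fun w => pat w = φ)).card : ℝ) * ((1 : ℝ) / m) ^ (univ.image φ).card
        ≤ (m : ℝ) ^ (univ.image φ).card * ((1 : ℝ) / m) ^ (univ.image φ).card := by
          refine mul_le_mul_of_nonneg_right ?_ (by positivity)
          exact_mod_cast h5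
      _ = 1 := by
          rw [← mul_pow, mul_one_div_cancel (by positivity), one_pow]
  refine (Finset.sum_le_sum fun φ _ => h3 φ).trans ?_
  simp

/-- A closed walk with `e` different labels has at most `e + 1` different vertices. -/
theorem card_walk_le (k : ℕ) (w : Fin (k + 1) → V) (a : V → V → ℕ)
    (ha : ∀ s t s' t', a s t = a s' t' → t = s' ∨ t = t') :
    (univ.image w).card ≤ (univ.image fun i => a (w i) (w (i + 1))).card + 1 := by
  classical
  set u : ℕ → V := fun i => w (Fin.ofNat (k + 1) i) with hu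
  have key : ∀ j, (image u (range (j + 1))).card ≤
      (image (fun i => a (u i) (u (i + 1))) (range j)).card + 1 := by
    intro j
    induction j with
    | zero => simp
    | succ j ih =>
      have f1 : image u (range (j + 1 + 1)) = insert (u (j + 1)) (image u (range (j + 1))) := by
        rw [Finset.range_add_one, Finset.image_insert]
      have f2 : image (fun i => a (u i) (u (i + 1))) (range (j + 1)) =
          insert (a (u j) (u (j + 1))) (image (fun i => a (u i) (u (i + 1))) (range j)) := by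
        rw [Finset.range_add_one, Finset.image_insert]
      rw [f1, f2]
      by_cases h : u (j + 1) ∈ image u (range (j + 1))
      · rw [Finset.insert_eq_of_mem h]
        refine ih.trans (Nat.add_le_add_right (Finset.card_le_card (Finset.subset_insert _ _)) 1)
      · have h' : a (u j) (u (j + 1)) ∉ image (fun i => a (u i) (u (i + 1))) (range j) := by
          intro h2
          obtain ⟨i, hi, h3⟩ := Finset.mem_image.1 h2
          have hi' := Finset.mem_range.1 hi
          rcases ha _ _ _ _ h3.symm with h4 | h4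
          · exact h (Finset.mem_image.2 ⟨i, Finset.mem_range.2 (by omega), h4.symm⟩)
          · exact h (Finset.mem_image.2 ⟨i + 1, Finset.mem_range.2 (by omega), h4.symm⟩)
        rw [Finset.card_insert_of_notMem h']
        exact (Finset.card_insert_le _ _).trans (Nat.add_le_add_right ih 1)
  have h1 : univ.image w = image u (range (k + 1)) := by
    ext v
    simp only [Finset.mem_image, mem_univ, true_and, Finset.mem_range, hu]
    constructor
    · rintro ⟨i, rfl⟩
      refine ⟨i, i.2, ?_⟩
      congr 1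
      ext
      simp [Fin.ofNat, Nat.mod_eq_of_lt i.2]
    · rintro ⟨i, _, rfl⟩
      exact ⟨_, rfl⟩
  rw [h1]
  refine (key k).trans (Nat.add_le_add_right (Finset.card_le_card ?_) 1)
  intro x hx
  obtain ⟨i, hi, rfl⟩ := Finset.mem_image.1 hx
  refine Finset.mem_image.2 ⟨Fin.ofNat (k + 1) i, mem_univ _, ?_⟩
  simp only [hu]
  congr 2
  ext
  simp [Fin.ofNat, Fin.val_add]

end

/-! ### Moments -/

/-- The indicator of `b < T`. -/
def ind (T : ℕ) {Q : ℕ} (b : ZMod Q) : ℝ := if b.val < T then 1 else 0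

theorem sum_ind {Q T : ℕ} [NeZero Q] (hT : T ≤ Q) : ∑ b : ZMod Q, ind T b = T := by
  have h1 : ∑ b : ZMod Q, ind T b = ∑ i ∈ range Q, if i < T then (1 : ℝ) else 0 := by
    refine Finset.sum_nbij' (fun b => b.val) (fun i => (i : ZMod Q)) ?_ ?_ ?_ ?_ ?_
    · intro b _; exact Finset.mem_range.2 (ZMod.val_lt b)
    · intro i _; exact mem_univ _
    · intro b _; exact ZMod.natCast_zmod_val b
    · intro i hi; exact ZMod.val_cast_of_lt (Finset.mem_range.1 hi)
    · intro b _; rfl
  rw [h1, ← Finset.sum_filter, Finset.sum_const, nsmul_eq_mul, mul_one]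
  congr 1
  have : (range Q).filter (fun i => i < T) = range T := by
    ext i; simp only [Finset.mem_filter, Finset.mem_range]; omega
  rw [this, Finset.card_range]

theorem ind_sq (T : ℕ) {Q : ℕ} (b : ZMod Q) : ind T b ^ 2 = ind T b := by
  unfold ind; split_ifs <;> norm_num

theorem moment_one {Q T : ℕ} [NeZero Q] (hT : T ≤ Q) :
    (∑ b : ZMod Q, (ind T b - (T : ℝ) / Q)) / Q = 0 := by
  have hQ : (Q : ℝ) ≠ 0 := Nat.cast_ne_zero.2 (NeZero.ne Q)
  rw [Finset.sum_sub_distrib, sum_ind hT, Finset.sum_const, Finset.card_univ, ZMod.card,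
    nsmul_eq_mul]
  field_simp
  simp

theorem moment_ge {Q T : ℕ} [NeZero Q] (hT : T ≤ Q) (k : ℕ) (hk : 2 ≤ k) :
    |(∑ b : ZMod Q, (ind T b - (T : ℝ) / Q) ^ k) / Q| ≤ (T : ℝ) / Q := by
  have hQ : (0 : ℝ) < Q := Nat.cast_pos.2 (Nat.pos_of_ne_zero (NeZero.ne Q))
  set θ : ℝ := (T : ℝ) / Q with hθ
  have h0 : 0 ≤ θ := by positivity
  have h1 : θ ≤ 1 := by
    rw [hθ, div_le_one hQ]; exact_mod_cast hT
  have hb : ∀ b : ZMod Q, |ind T b - θ| ≤ 1 := by
    intro b
    unfold ind
    split_ifs
    · rw [abs_le]; constructor <;> linarith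
    · rw [abs_le]; constructor <;> linarith
  rw [abs_div, abs_of_pos hQ, div_le_iff₀ hQ]
  calc |∑ b : ZMod Q, (ind T b - θ) ^ k| ≤ ∑ b : ZMod Q, |(ind T b - θ) ^ k| :=
        Finset.abs_sum_le_sum_abs _ _
    _ ≤ ∑ b : ZMod Q, (ind T b - θ) ^ 2 := by
        refine Finset.sum_le_sum fun b _ => ?_
        rw [abs_pow, ← sq_abs (ind T b - θ)]
        exact pow_le_pow_of_le_one (abs_nonneg _) (hb b) hk
    _ = ∑ b : ZMod Q, (ind T b - 2 * θ * ind T b + θ ^ 2) := by
        refine Finset.sum_congr rfl fun b _ => ?_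
        have := ind_sq T b
        nlinarith [this]
    _ = (T : ℝ) - 2 * θ * T + Q * θ ^ 2 := by
        rw [Finset.sum_add_distrib, Finset.sum_sub_distrib, ← Finset.mul_sum, sum_ind hT,
          Finset.sum_const, Finset.card_univ, ZMod.card, nsmul_eq_mul]
    _ ≤ θ * Q := by
        have hTq : (T : ℝ) = θ * Q := by rw [hθ]; field_simp
        rw [hTq]
        nlinarith [mul_nonneg (mul_nonneg h0 h0) hQ.le]

/-- The expectation of a product of centred values of a random polynomial. -/
theorem expect_prod {Q T r L : ℕ} [Fact Q.Prime] (hT : T ≤ Q) (hL : L ≤ r) (hr : r ≤ Q)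
    (lab : Fin L → ℕ) (hlab : ∀ i, lab i < Q) (l : ℕ) (hl : L = 2 * l) :
    ∑ σ : Fin r → ZMod Q, ∏ i, (ind T (pev σ (lab i)) - (T : ℝ) / Q) ≤
      (Q : ℝ) ^ r * if (univ.image lab).card ≤ l then ((T : ℝ) / Q) ^ (univ.image lab).card
        else 0 := by
  classical
  have : NeZero Q := ⟨(Fact.out : Q.Prime).ne_zero⟩
  set S := univ.image lab with hS
  set mu : ℕ → ℕ := fun a => (univ.filter fun i => lab i = a).card with hmu
  have e1 : ∀ σ : Fin r → ZMod Q, ∏ i, (ind T (pev σ (lab i)) - (T : ℝ) / Q) =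
      ∏ a ∈ S, (ind T (pev σ a) - (T : ℝ) / Q) ^ mu a := by
    intro σ
    rw [Finset.prod_comp (fun a => ind T (pev σ a) - (T : ℝ) / Q) lab]
  have hScard : S.card ≤ r := by
    refine (Finset.card_image_le).trans ?_
    simpa using hL
  rw [Finset.sum_congr rfl fun σ _ => e1 σ,
    kwise S hScard hr (fun a ha => by
      obtain ⟨i, _, rfl⟩ := Finset.mem_image.1 ha
      exact hlab i) (fun a b => (ind T b - (T : ℝ) / Q) ^ mu a)]
  refine mul_le_mul_of_nonneg_left ?_ (by positivity)
  have hmu1 : ∀ a ∈ S, 1 ≤ mu a := by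
    intro a ha
    obtain ⟨i, _, rfl⟩ := Finset.mem_image.1 ha
    exact Finset.card_pos.2 ⟨i, by simp⟩
  by_cases h : ∃ a ∈ S, mu a = 1
  · obtain ⟨a, ha, h1⟩ := h
    have h0 : ∏ a ∈ S, ((∑ b : ZMod Q, (ind T b - (T : ℝ) / Q) ^ mu a) / Q) = 0 := by
      refine Finset.prod_eq_zero ha ?_
      rw [h1]
      simp only [pow_one]
      exact moment_one hT
    rw [h0]
    split_ifs <;> positivity
  · have h2 : ∀ a ∈ S, 2 ≤ mu a := by
      intro a ha
      have := hmu1 a ha
      by_contra h3
      exact h ⟨a, ha, by omega⟩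
    have h3 : 2 * S.card ≤ L := by
      have h4 : ∑ a ∈ S, mu a = L := by
        have := Finset.card_eq_sum_card_image lab (univ : Finset (Fin L))
        rw [Finset.card_univ, Fintype.card_fin] at this
        exact this.symm
      rw [← h4, mul_comm, ← smul_eq_mul]
      exact Finset.card_nsmul_le_sum _ _ _ h2
    rw [if_pos (by omega)]
    refine (le_abs_self _).trans ?_
    rw [Finset.abs_prod, ← Finset.prod_const]
    exact Finset.prod_le_prod (fun a _ => abs_nonneg _) fun a ha => moment_ge hT _ (h2 a ha)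

/-- The centred adjacency matrix of the random graph. -/
noncomputable def cen {m Q r : ℕ} (T : ℕ) (B : Fin m → Fin m → Prop) (σ : Fin r → ZMod Q) :
    Matrix (Fin m) (Fin m) ℝ := by
  classical
  exact fun s t => if B s t then ind T (pev σ (min s.1 t.1 * m + max s.1 t.1)) - (T : ℝ) / Q else 0

theorem idx_lt {m Q : ℕ} (hQ : m * m ≤ Q) (s t : Fin m) : min s.1 t.1 * m + max s.1 t.1 < Q := by
  have h1 : min s.1 t.1 + 1 ≤ m := by omega
  have h2 : max s.1 t.1 < m := by omega
  have h3 : (min s.1 t.1 + 1) * m ≤ m * m := Nat.mul_le_mul_right _ h1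
  nlinarith

theorem idx_inj {m : ℕ} {s t s' t' : Fin m}
    (h : min s.1 t.1 * m + max s.1 t.1 = min s'.1 t'.1 * m + max s'.1 t'.1) :
    (s = s' ∧ t = t') ∨ (s = t' ∧ t = s') := by
  have h2 : max s.1 t.1 < m := by omega
  have h2' : max s'.1 t'.1 < m := by omega
  have e1 : min s.1 t.1 = min s'.1 t'.1 := by
    have a1 := Nat.div_add_mod (min s.1 t.1 * m + max s.1 t.1) m
    have e : (min s.1 t.1 * m + max s.1 t.1) / m = (min s'.1 t'.1 * m + max s'.1 t'.1) / m := by
      rw [h]
    rw [mul_comm, Nat.mul_add_div (by omega), mul_comm (min s'.1 t'.1), Nat.mul_add_div (by omega),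
      Nat.div_eq_of_lt h2, Nat.div_eq_of_lt h2'] at e
    simpa using e
  have e2 : max s.1 t.1 = max s'.1 t'.1 := by
    rw [e1] at h; omega
  have : (s.1 = s'.1 ∧ t.1 = t'.1) ∨ (s.1 = t'.1 ∧ t.1 = s'.1) := by omega
  rcases this with h | h
  · exact Or.inl ⟨Fin.ext h.1, Fin.ext h.2⟩
  · exact Or.inr ⟨Fin.ext h.1, Fin.ext h.2⟩

theorem cen_symm {m Q r : ℕ} (T : ℕ) (B : Fin m → Fin m → Prop) (hB : ∀ s t, B s t → B t s)
    (σ : Fin r → ZMod Q) : (cen T B σ).IsSymm := by
  ext s t
  simp only [Matrix.transpose_apply, cen]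
  by_cases h : B s t
  · rw [if_pos h, if_pos (hB _ _ h), min_comm, max_comm]
  · rw [if_neg h, if_neg (fun h' => h (hB _ _ h'))]

/-- The expected trace of a power of the centred adjacency matrix. -/
theorem expect_trace {m Q T r l : ℕ} [Fact Q.Prime] (hT : T ≤ Q) (hl : 0 < l) (hr' : 2 * l ≤ r)
    (hr : r ≤ Q) (hm : 0 < m) (hQ : m * m ≤ Q) (B : Fin m → Fin m → Prop)
    (hθ : 1 ≤ (m : ℝ) * ((T : ℝ) / Q)) :
    ∑ σ : Fin r → ZMod Q, (cen T B σ ^ (2 * l)).trace ≤
      (Q : ℝ) ^ r * (((T : ℝ) / Q) ^ l * (m : ℝ) ^ (l + 1) * (2 * l : ℕ) ^ (2 * l)) := by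
  classical
  obtain ⟨k, hk⟩ : ∃ k, 2 * l = k + 1 := ⟨2 * l - 1, by omega⟩
  set θ : ℝ := (T : ℝ) / Q with hθd
  have hθ0 : 0 ≤ θ := by positivity
  have hm' : (0 : ℝ) < m := Nat.cast_pos.2 hm
  have hw : ∀ w : Fin (k + 1) → Fin m, ∑ σ : Fin r → ZMod Q,
      ∏ i, cen T B σ (w i) (w (i + 1)) ≤
        (Q : ℝ) ^ r * (θ ^ l * (m : ℝ) ^ (l + 1) * ((1 : ℝ) / m) ^ (univ.image w).card) := by
    intro w
    by_cases h : ∀ i, B (w i) (w (i + 1))
    · have e1 : ∀ σ : Fin r → ZMod Q, ∏ i, cen T B σ (w i) (w (i + 1)) =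
          ∏ i, (ind T (pev σ (min (w i).1 (w (i + 1)).1 * m + max (w i).1 (w (i + 1)).1)) -
            (T : ℝ) / Q) := by
        intro σ
        refine Finset.prod_congr rfl fun i _ => ?_
        simp only [cen, if_pos (h i)]
      rw [Finset.sum_congr rfl fun σ _ => e1 σ]
      refine (expect_prod hT (by omega) hr
        (fun i => min (w i).1 (w (i + 1)).1 * m + max (w i).1 (w (i + 1)).1)
        (fun i => idx_lt hQ _ _) l hk.symm).trans ?_
      refine mul_le_mul_of_nonneg_left ?_ (by positivity)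
      split_ifs with h2
      · set e := (univ.image fun i => min (w i).1 (w (i + 1)).1 * m +
          max (w i).1 (w (i + 1)).1).card with he
        have hv : (univ.image w).card ≤ e + 1 :=
          card_walk_le k w (fun s t => min s.1 t.1 * m + max s.1 t.1) fun s t s' t' h3 => by
            rcases idx_inj h3 with h4 | h4
            · exact Or.inr h4.2
            · exact Or.inl h4.2
        calc θ ^ e = θ ^ e * 1 := (mul_one _).symm
          _ ≤ θ ^ e * ((m : ℝ) * θ) ^ (l - e) :=
              mul_le_mul_of_nonneg_left (one_le_pow₀ hθ) (by positivity)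
          _ = θ ^ l * (m : ℝ) ^ (l - e) := by
              rw [mul_pow, mul_comm ((m : ℝ) ^ (l - e)), ← mul_assoc, ← pow_add]
              congr 2
              omega
          _ ≤ θ ^ l * ((m : ℝ) ^ (l + 1) * ((1 : ℝ) / m) ^ (univ.image w).card) := by
              refine mul_le_mul_of_nonneg_left ?_ (by positivity)
              have h3 : (m : ℝ) ^ (l + 1) * ((1 : ℝ) / m) ^ (univ.image w).card =
                  (m : ℝ) ^ (l + 1 - (univ.image w).card) := by
                rw [one_div, inv_pow, ← pow_sub₀ _ hm'.ne' (by omega)]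
              rw [h3]
              exact pow_le_pow_right₀ (by exact_mod_cast hm) (by omega)
          _ = θ ^ l * (m : ℝ) ^ (l + 1) * ((1 : ℝ) / m) ^ (univ.image w).card := by ring
      · positivity
    · push Not at h
      obtain ⟨i, hi⟩ := h
      have e1 : ∀ σ : Fin r → ZMod Q, ∏ i, cen T B σ (w i) (w (i + 1)) = 0 := by
        intro σ
        refine Finset.prod_eq_zero (mem_univ i) ?_
        simp only [cen, if_neg hi]
      rw [Finset.sum_congr rfl fun σ _ => e1 σ]
      simp only [Finset.sum_const_zero]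
      positivity
  have e2 : ∀ σ : Fin r → ZMod Q, (cen T B σ ^ (2 * l)).trace =
      ∑ w : Fin (k + 1) → Fin m, ∏ i, cen T B σ (w i) (w (i + 1)) := by
    intro σ
    rw [hk]
    exact trace_pow_walk _ k
  rw [Finset.sum_congr rfl fun σ _ => e2 σ, Finset.sum_comm]
  refine (Finset.sum_le_sum fun w _ => hw w).trans ?_
  rw [← Finset.mul_sum, ← Finset.mul_sum]
  refine mul_le_mul_of_nonneg_left ?_ (by positivity)
  refine mul_le_mul_of_nonneg_left ?_ (by positivity)
  rw [hk]
  exact sum_pattern (V := Fin m) (k + 1) m (by simp) hm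

end Pool.Agent.K9h49.VC
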