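import Mathlib
import Pool.Agent.H424R2.PPAD.Defs
import Pool.Agent.NPC.Classes

/-!
# Approximation algorithms for weighted vertex cover
-/

namespace Pool.Agent.K9h49.VC

open Pool.Agent.NPC Pool.Agent.H424R2.PPAD

/-- An instance of weighted vertex cover: the list of the weights of the vertices `0, ..., n - 1`
(rational numbers) and the list of the edges. -/
abbrev Inst := List ℚ × List (ℕ × ℕ)

/-- Well-formed instances: the weights are nonnegative, each edge is listed once, as a pair `(u, v)`
of vertices with `u < v`. -/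
structure WF (I : Inst) : Prop where
  nonneg : ∀ w ∈ I.1, 0 ≤ w
  edge : ∀ e ∈ I.2, e.1 < e.2 ∧ e.2 < I.1.length
  nodup : I.2.Nodup

/-- The graph of an instance. -/
def gr (I : Inst) : SimpleGraph (Fin I.1.length) :=
  SimpleGraph.fromRel fun u v => (u.1, v.1) ∈ I.2

/-- The vertices in the list `C` form a vertex cover of the graph of `I`. -/
def IsCover (I : Inst) (C : List ℕ) : Prop :=
  ∀ u v : Fin I.1.length, (gr I).Adj u v → u.1 ∈ C ∨ v.1 ∈ C

/-- The weight of the set of the vertices in the list `C`. -/
def cost (I : Inst) (C : List ℕ) : ℚ := ∑ v : Fin I.1.length, if v.1 ∈ C then I.1.get v else 0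

/-- There is a polynomial-time `c`-approximation algorithm for weighted vertex cover on the
instances with the property `P`. -/
def Approx (P : Inst → Prop) (c : ℝ) : Prop :=
  ∃ A : Inst → List ℕ, PTime A ∧ ∀ I, WF I → P I →
    IsCover I (A I) ∧ ∀ D, IsCover I D → (cost I (A I) : ℝ) ≤ c * (cost I D : ℝ)

/-- All weights are `1`. -/
def UnitW (I : Inst) : Prop := ∀ w ∈ I.1, w = 1

/-- Every cycle has length more than `g` and every degree is at most `|V| ^ ε`. -/
def Sparse (g : ℕ) (ε : ℝ) (I : Inst) : Prop :=
  (∀ (v : Fin I.1.length) (p : (gr I).Walk v v), p.IsCycle → g < p.length) ∧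
    ∀ v : Fin I.1.length, (((gr I).neighborSet v).ncard : ℝ) ≤ (I.1.length : ℝ) ^ ε

/-- `P = NP`. -/
def PeqNP : Prop := ∀ L : Set (List Bool), InNP L → InP L

/-- For every constant `1 ≤ c < 2`, a polynomial-time `c`-approximation algorithm for weighted
vertex cover on the instances with the property `P` exists only if `P = NP`. -/
def HardBelowTwo (P : Inst → Prop) : Prop := ∀ c : ℝ, 1 ≤ c → c < 2 → Approx P c → PeqNP

end Pool.Agent.K9h49.VC
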