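import Pool.Agent.K9h49.VC.Cnt

/-!
# Good seeds exist
-/

namespace Pool.Agent.K9h49.VC

open Finset

/-- Adjacency in the random graph with seed `σ`. -/
def HA {m Q r : ℕ} (T : ℕ) (B : Fin m → Fin m → Prop) (σ : Fin r → ZMod Q) (s t : Fin m) : Prop :=
  B s t ∧ (pev σ (min s.1 t.1 * m + max s.1 t.1)).val < T

/-- Vertices on short cycles. -/
def badC {m Q r : ℕ} (T : ℕ) (B : Fin m → Fin m → Prop) (g : ℕ) (σ : Fin r → ZMod Q)
    (s : Fin m) : Prop :=
  ∃ j, j + 3 ≤ g ∧ ∃ c : Fin (j + 3) → Fin m, Function.Injective c ∧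
    (∀ i, HA T B σ (c i) (c (i + 1))) ∧ ∃ i, c i = s

open Classical in
/-- Vertices of large degree. -/
def badD {m Q r : ℕ} (T : ℕ) (B : Fin m → Fin m → Prop) (Δ : ℕ) (σ : Fin r → ZMod Q)
    (s : Fin m) : Prop :=
  Δ < (univ.filter fun t => HA T B σ s t).card

section

variable {m Q T r : ℕ} [Fact Q.Prime]

theorem expect_ind (hT : T ≤ Q) (hr : r ≤ Q) (S : Finset ℕ) (hS : S.card ≤ r)
    (hlt : ∀ a ∈ S, a < Q) :
    ∑ σ : Fin r → ZMod Q, ∏ a ∈ S, ind T (pev σ a) = (Q : ℝ) ^ r * ((T : ℝ) / Q) ^ S.card := by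
  have : NeZero Q := ⟨(Fact.out : Q.Prime).ne_zero⟩
  rw [kwise S hS hr hlt (fun _ b => ind T b)]
  simp only [sum_ind hT]
  rw [Finset.prod_const]

theorem ind_nonneg (T : ℕ) {Q : ℕ} (b : ZMod Q) : 0 ≤ ind T b := by
  unfold ind; split_ifs <;> norm_num

open Classical in
theorem expect_cyc (hT : T ≤ Q) (hr : r ≤ Q) (hQ : m * m ≤ Q) (B : Fin m → Fin m → Prop) (j : ℕ)
    (hj : j + 3 ≤ r) (c : Fin (j + 3) → Fin m) :
    ∑ σ : Fin r → ZMod Q, (if Function.Injective c ∧ ∀ i, HA T B σ (c i) (c (i + 1)) then (1 : ℝ)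
      else 0) ≤ (Q : ℝ) ^ r * ((T : ℝ) / Q) ^ (j + 3) := by
  by_cases hc : Function.Injective c
  · set lab : Fin (j + 3) → ℕ := fun i => min (c i).1 (c (i + 1)).1 * m + max (c i).1 (c (i + 1)).1
      with hlab
    have hinj : Function.Injective lab := by
      intro i i' h
      rcases idx_inj h with ⟨h1, _⟩ | ⟨h1, h2⟩
      · exact hc h1
      · exfalso
        have e1 := hc h1
        have e2 := hc h2
        rw [← e2, add_assoc] at e1
        have e3 : (1 : Fin (j + 3)) + 1 = 0 := by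
          have := add_left_cancel (a := i) (b := 0) (c := 1 + 1) (by rw [add_zero]; exact e1)
          exact this.symm
        have e4 := congrArg Fin.val e3
        simp only [Fin.val_add, Fin.val_zero] at e4
        have e5 : ((1 : Fin (j + 3)) : ℕ) = 1 := by simp
        rw [e5, Nat.mod_eq_of_lt (by omega)] at e4
        omega
    have hcard : (univ.image lab).card = j + 3 := by
      rw [Finset.card_image_of_injective _ hinj, Finset.card_univ, Fintype.card_fin]
    have key := expect_ind (T := T) hT hr (univ.image lab) (by omega) (fun a ha => by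
      obtain ⟨i, _, rfl⟩ := Finset.mem_image.1 ha
      exact idx_lt hQ _ _)
    rw [hcard] at key
    rw [← key]
    refine Finset.sum_le_sum fun σ _ => ?_
    split_ifs with h
    · refine le_of_eq (Finset.prod_eq_one fun a ha => ?_).symm
      obtain ⟨i, _, rfl⟩ := Finset.mem_image.1 ha
      unfold ind
      exact if_pos (h.2 i).2
    · exact Finset.prod_nonneg fun a _ => ind_nonneg _ _
  · have : ∀ σ : Fin r → ZMod Q, (if Function.Injective c ∧
        ∀ i, HA T B σ (c i) (c (i + 1)) then (1 : ℝ) else 0) = 0 := by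
      intro σ
      rw [if_neg (fun h => hc h.1)]
    rw [Finset.sum_congr rfl fun σ _ => this σ, Finset.sum_const_zero]
    positivity

open Classical in
theorem expect_badC (hT : T ≤ Q) (hr : r ≤ Q) (hQ : m * m ≤ Q) (B : Fin m → Fin m → Prop) (g : ℕ)
    (hg : g ≤ r) (hθ : 1 ≤ (m : ℝ) * ((T : ℝ) / Q)) :
    ∑ σ : Fin r → ZMod Q, ((univ.filter fun s => badC T B g σ s).card : ℝ) ≤
      (Q : ℝ) ^ r * ((g : ℝ) ^ 2 * ((m : ℝ) * ((T : ℝ) / Q)) ^ g) := by
  set θ : ℝ := (T : ℝ) / Q with hθd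
  have hθ0 : 0 ≤ θ := by positivity
  have h1 : ∀ σ : Fin r → ZMod Q, ((univ.filter fun s => badC T B g σ s).card : ℝ) ≤
      ∑ j ∈ range g, if j + 3 ≤ g then (g : ℝ) * ∑ c : Fin (j + 3) → Fin m,
        (if Function.Injective c ∧ ∀ i, HA T B σ (c i) (c (i + 1)) then (1 : ℝ) else 0) else 0 := by
    intro σ
    have h2 : (univ.filter fun s => badC T B g σ s) ⊆ (range g).biUnion fun j =>
        if j + 3 ≤ g then (univ.filter fun c : Fin (j + 3) → Fin m => Function.Injective c ∧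
          ∀ i, HA T B σ (c i) (c (i + 1))).biUnion (fun c => univ.image c) else ∅ := by
      intro s hs
      obtain ⟨j, hj, c, hc1, hc2, i, hi⟩ := (Finset.mem_filter.1 hs).2
      refine Finset.mem_biUnion.2 ⟨j, Finset.mem_range.2 (by omega), ?_⟩
      rw [if_pos hj]
      exact Finset.mem_biUnion.2 ⟨c, Finset.mem_filter.2 ⟨mem_univ _, hc1, hc2⟩,
        Finset.mem_image.2 ⟨i, mem_univ _, hi⟩⟩
    have h3 := (Finset.card_le_card h2).trans Finset.card_biUnion_le
    have h3' := (Nat.cast_le (α := ℝ)).2 h3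
    refine h3'.trans ?_
    · · push_cast
        refine Finset.sum_le_sum fun j _ => ?_
        split_ifs with hj
        · have h4 : ((univ.filter fun c : Fin (j + 3) → Fin m => Function.Injective c ∧
              ∀ i, HA T B σ (c i) (c (i + 1))).biUnion (fun c => univ.image c)).card ≤
              g * (univ.filter fun c : Fin (j + 3) → Fin m => Function.Injective c ∧
              ∀ i, HA T B σ (c i) (c (i + 1))).card := by
            refine Finset.card_biUnion_le.trans ?_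
            rw [mul_comm, ← smul_eq_mul]
            refine Finset.sum_le_card_nsmul _ _ _ fun c _ => ?_
            refine Finset.card_image_le.trans ?_
            simpa using hj
          have h5 : ∑ c : Fin (j + 3) → Fin m, (if Function.Injective c ∧
              ∀ i, HA T B σ (c i) (c (i + 1)) then (1 : ℝ) else 0) =
              ((univ.filter fun c : Fin (j + 3) → Fin m => Function.Injective c ∧
              ∀ i, HA T B σ (c i) (c (i + 1))).card : ℝ) := by
            rw [← Finset.sum_filter, Finset.sum_const, nsmul_eq_mul, mul_one]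
          rw [h5]
          exact_mod_cast h4
        · simp
  refine (Finset.sum_le_sum fun σ _ => h1 σ).trans ?_
  rw [Finset.sum_comm]
  have h6 : ∀ j ∈ range g, ∑ σ : Fin r → ZMod Q, (if j + 3 ≤ g then (g : ℝ) *
      ∑ c : Fin (j + 3) → Fin m, (if Function.Injective c ∧ ∀ i, HA T B σ (c i) (c (i + 1))
        then (1 : ℝ) else 0) else 0) ≤ (Q : ℝ) ^ r * (g * ((m : ℝ) * θ) ^ g) := by
    intro j _
    split_ifs with hj
    · rw [← Finset.mul_sum, Finset.sum_comm]
      have h7 : ∑ c : Fin (j + 3) → Fin m, ∑ σ : Fin r → ZMod Q, (if Function.Injective c ∧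
          ∀ i, HA T B σ (c i) (c (i + 1)) then (1 : ℝ) else 0) ≤
          (m : ℝ) ^ (j + 3) * ((Q : ℝ) ^ r * θ ^ (j + 3)) := by
        refine (Finset.sum_le_sum fun c _ => expect_cyc hT hr hQ B j (by omega) c).trans ?_
        rw [Finset.sum_const, Finset.card_univ, Fintype.card_fun, Fintype.card_fin,
          Fintype.card_fin, nsmul_eq_mul]
        push_cast
        exact le_refl _
      calc (g : ℝ) * _ ≤ (g : ℝ) * ((m : ℝ) ^ (j + 3) * ((Q : ℝ) ^ r * θ ^ (j + 3))) :=
            mul_le_mul_of_nonneg_left h7 (by positivity)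
        _ = (Q : ℝ) ^ r * (g * ((m : ℝ) * θ) ^ (j + 3)) := by rw [mul_pow]; ring
        _ ≤ (Q : ℝ) ^ r * (g * ((m : ℝ) * θ) ^ g) := by
            refine mul_le_mul_of_nonneg_left ?_ (by positivity)
            refine mul_le_mul_of_nonneg_left ?_ (by positivity)
            exact pow_le_pow_right₀ hθ hj
    · rw [Finset.sum_const_zero]
      positivity
  refine (Finset.sum_le_sum h6).trans ?_
  rw [Finset.sum_const, Finset.card_range, nsmul_eq_mul]
  apply le_of_eq
  ring

open Classical in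
theorem expect_badD (hT : T ≤ Q) (hr : r ≤ Q) (hr1 : 1 ≤ r) (hQ : m * m ≤ Q)
    (B : Fin m → Fin m → Prop) (Δ : ℕ) :
    ∑ σ : Fin r → ZMod Q, (Δ : ℝ) * ((univ.filter fun s => badD T B Δ σ s).card : ℝ) ≤
      (Q : ℝ) ^ r * ((m : ℝ) * ((m : ℝ) * ((T : ℝ) / Q))) := by
  have h1 : ∀ σ : Fin r → ZMod Q, (Δ : ℝ) * ((univ.filter fun s => badD T B Δ σ s).card : ℝ) ≤
      ∑ s : Fin m, ∑ t : Fin m, ind T (pev σ (min s.1 t.1 * m + max s.1 t.1)) := by
    intro σ
    have h2 : ∀ s : Fin m, ((univ.filter fun t => HA T B σ s t).card : ℝ) ≤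
        ∑ t : Fin m, ind T (pev σ (min s.1 t.1 * m + max s.1 t.1)) := by
      intro s
      have : ((univ.filter fun t => HA T B σ s t).card : ℝ) =
          ∑ t : Fin m, if HA T B σ s t then (1 : ℝ) else 0 := by
        rw [← Finset.sum_filter, Finset.sum_const, nsmul_eq_mul, mul_one]
      rw [this]
      refine Finset.sum_le_sum fun t _ => ?_
      split_ifs with h
      · unfold ind; rw [if_pos h.2]
      · exact ind_nonneg _ _
    calc (Δ : ℝ) * ((univ.filter fun s => badD T B Δ σ s).card : ℝ)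
        = ∑ s ∈ univ.filter (fun s => badD T B Δ σ s), (Δ : ℝ) := by
          rw [Finset.sum_const, nsmul_eq_mul, mul_comm]
      _ ≤ ∑ s ∈ univ.filter (fun s => badD T B Δ σ s),
            ((univ.filter fun t => HA T B σ s t).card : ℝ) := by
          refine Finset.sum_le_sum fun s hs => ?_
          have := (Finset.mem_filter.1 hs).2
          unfold badD at this
          exact_mod_cast this.le
      _ ≤ ∑ s : Fin m, ((univ.filter fun t => HA T B σ s t).card : ℝ) :=
          Finset.sum_le_sum_of_subset_of_nonneg (Finset.filter_subset _ _)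
            fun _ _ _ => by positivity
      _ ≤ _ := Finset.sum_le_sum fun s _ => h2 s
  refine (Finset.sum_le_sum fun σ _ => h1 σ).trans ?_
  rw [Finset.sum_comm]
  have h3 : ∀ s t : Fin m, ∑ σ : Fin r → ZMod Q,
      ind T (pev σ (min s.1 t.1 * m + max s.1 t.1)) = (Q : ℝ) ^ r * ((T : ℝ) / Q) := by
    intro s t
    have := expect_ind hT hr {min s.1 t.1 * m + max s.1 t.1} (by simpa using hr1) (fun a ha => by
      rw [Finset.mem_singleton] at ha
      rw [ha]; exact idx_lt hQ _ _)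
    simpa using this
  have h4 : ∀ s : Fin m, ∑ σ : Fin r → ZMod Q, ∑ t : Fin m,
      ind T (pev σ (min s.1 t.1 * m + max s.1 t.1)) = m * ((Q : ℝ) ^ r * ((T : ℝ) / Q)) := by
    intro s
    rw [Finset.sum_comm, Finset.sum_congr rfl fun t _ => h3 s t, Finset.sum_const,
      Finset.card_univ, Fintype.card_fin, nsmul_eq_mul]
  rw [Finset.sum_congr rfl fun s _ => h4 s, Finset.sum_const, Finset.card_univ, Fintype.card_fin,
    nsmul_eq_mul]
  apply le_of_eq
  ring

/-- The trace of an even power of a symmetric matrix is nonnegative. -/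
theorem trace_even_nonneg (M : Matrix (Fin m) (Fin m) ℝ) (hM : M.IsSymm) (l : ℕ) :
    0 ≤ (M ^ (2 * l)).trace := by
  rw [two_mul, pow_add, Matrix.trace]
  refine Finset.sum_nonneg fun i _ => ?_
  rw [Matrix.diag_apply, Matrix.mul_apply]
  refine Finset.sum_nonneg fun j _ => ?_
  rw [← (hM.pow l).apply i j]
  exact mul_self_nonneg _

omit [Fact Q.Prime] in
open Classical in
/-- If the trace is small then any two large sets that are completely joined in the base relation
are joined by an edge. -/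
theorem mixing (B : Fin m → Fin m → Prop) (hB : ∀ s t, B s t → B t s) (σ : Fin r → ZMod Q)
    (k N₀ : ℕ) (hN : 0 < N₀)
    (htr : (cen T B σ ^ (2 ^ (k + 1))).trace < ((T : ℝ) / Q * N₀) ^ 2 ^ (k + 1))
    (X Y : Finset (Fin m)) (hX : N₀ ≤ X.card) (hY : N₀ ≤ Y.card) (hXY : ∀ s ∈ X, ∀ t ∈ Y, B s t) :
    ∃ s ∈ X, ∃ t ∈ Y, HA T B σ s t := by
  by_contra hcon
  push Not at hcon
  set θ : ℝ := (T : ℝ) / Q with hθ
  set x : Fin m → ℝ := fun s => if s ∈ X then 1 else 0 with hx
  set y : Fin m → ℝ := fun s => if s ∈ Y then 1 else 0 with hy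
  have e1 : x ⬝ᵥ (cen T B σ).mulVec y = -(θ * (X.card * Y.card)) := by
    have e2 : x ⬝ᵥ (cen T B σ).mulVec y = ∑ s ∈ X, ∑ t ∈ Y, cen T B σ s t := by
      simp only [dotProduct, Matrix.mulVec, hx, hy, ite_mul, one_mul, zero_mul, mul_ite, mul_one,
        mul_zero, Finset.sum_ite_mem, Finset.univ_inter]
    rw [e2]
    have e3 : ∀ s ∈ X, ∀ t ∈ Y, cen T B σ s t = -θ := by
      intro s hs t ht
      have h1 := hcon s hs t ht
      have h2 : ¬ (pev σ (min s.1 t.1 * m + max s.1 t.1)).val < T := fun h => h1 ⟨hXY s hs t ht, h⟩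
      simp only [cen, if_pos (hXY s hs t ht), ind, if_neg h2]
      simp [hθ]
    rw [Finset.sum_congr rfl fun s hs => Finset.sum_congr rfl fun t ht => e3 s hs t ht]
    simp only [Finset.sum_const, nsmul_eq_mul]
    ring
  have e4 : x ⬝ᵥ x = X.card := by
    simp [dotProduct, hx]
  have e5 : y ⬝ᵥ y = Y.card := by
    simp [dotProduct, hy]
  have h := dot_pow_le (cen T B σ) (cen_symm T B hB σ) x y k
  rw [e1, e4, e5, Even.neg_pow (by rw [pow_succ']; exact even_two_mul _)] at h
  have hXp : (0 : ℝ) < X.card := by exact_mod_cast lt_of_lt_of_le hN hX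
  have hYp : (0 : ℝ) < Y.card := by exact_mod_cast lt_of_lt_of_le hN hY
  have h2 : (θ * ((X.card : ℝ) * Y.card)) ^ 2 ^ (k + 1) =
      ((X.card : ℝ) ^ 2 ^ k * (Y.card : ℝ) ^ 2 ^ k) *
        (θ ^ 2 ^ (k + 1) * ((X.card : ℝ) ^ 2 ^ k * (Y.card : ℝ) ^ 2 ^ k)) := by
    rw [pow_succ 2 k, mul_pow, mul_two, pow_add ((X.card : ℝ) * Y.card), mul_pow]
    ring
  rw [h2] at h
  have h3 := le_of_mul_le_mul_left h (by positivity)
  have h4 : (θ * N₀) ^ 2 ^ (k + 1) ≤
      θ ^ 2 ^ (k + 1) * ((X.card : ℝ) ^ 2 ^ k * (Y.card : ℝ) ^ 2 ^ k) := by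
    rw [mul_pow]
    refine mul_le_mul_of_nonneg_left ?_ (by positivity)
    rw [pow_succ 2 k, mul_two, pow_add]
    refine mul_le_mul ?_ ?_ (by positivity) (by positivity)
    · exact pow_le_pow_left₀ (by positivity) (by exact_mod_cast hX) _
    · exact pow_le_pow_left₀ (by positivity) (by exact_mod_cast hY) _
  linarith

open Classical in
/-- Good seeds exist. -/
theorem exists_good (hT : T ≤ Q) (hr : r ≤ Q) (k : ℕ) (hr' : 2 * 2 ^ k ≤ r) (g : ℕ) (hg : g ≤ r)
    (hm : 0 < m) (hQ : m * m ≤ Q)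
    (B : Fin m → Fin m → Prop) (hB : ∀ s t, B s t → B t s) (N₀ Δ : ℕ) (hN : 0 < N₀) (hΔ : 0 < Δ)
    (hT0 : 0 < T)
    (hθ : 1 ≤ (m : ℝ) * ((T : ℝ) / Q))
    (h1 : 4 * ((g : ℝ) ^ 2 * ((m : ℝ) * ((T : ℝ) / Q)) ^ g) ≤ N₀)
    (h2 : 4 * ((m : ℝ) * ((m : ℝ) * ((T : ℝ) / Q))) ≤ Δ * N₀)
    (h3 : 4 * (((T : ℝ) / Q) ^ 2 ^ k * (m : ℝ) ^ (2 ^ k + 1) * (2 * 2 ^ k : ℕ) ^ (2 * 2 ^ k)) ≤
      ((T : ℝ) / Q * N₀) ^ 2 ^ (k + 1)) :
    ∃ σ : Fin r → ZMod Q, (univ.filter fun s => badC T B g σ s ∨ badD T B Δ σ s).card ≤ N₀ ∧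
      ∀ X Y : Finset (Fin m), N₀ ≤ X.card → N₀ ≤ Y.card → (∀ s ∈ X, ∀ t ∈ Y, B s t) →
        ∃ s ∈ X, ∃ t ∈ Y, HA T B σ s t := by
  have hQ0 : (0 : ℝ) < Q := by exact_mod_cast (Fact.out : Q.Prime).pos
  have hθ0 : 0 < (T : ℝ) / Q := by positivity
  set P : ℝ := ((T : ℝ) / Q * N₀) ^ 2 ^ (k + 1) with hP
  have hP0 : 0 < P := by positivity
  set f : (Fin r → ZMod Q) → ℝ := fun σ =>
    ((univ.filter fun s => badC T B g σ s).card : ℝ) / N₀ +
      ((Δ : ℝ) * ((univ.filter fun s => badD T B Δ σ s).card : ℝ)) / (Δ * N₀) +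
      (cen T B σ ^ (2 * 2 ^ k)).trace / P with hf
  have hsum : ∑ σ, f σ ≤ (Q : ℝ) ^ r * (3 / 4) := by
    simp only [hf]
    rw [Finset.sum_add_distrib, Finset.sum_add_distrib, ← Finset.sum_div, ← Finset.sum_div,
      ← Finset.sum_div]
    have a1 : (∑ σ : Fin r → ZMod Q, ((univ.filter fun s => badC T B g σ s).card : ℝ)) / N₀ ≤
        (Q : ℝ) ^ r * (1 / 4) := by
      rw [div_le_iff₀ (by positivity)]
      refine (expect_badC hT hr hQ B g hg hθ).trans ?_
      rw [mul_assoc]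
      refine mul_le_mul_of_nonneg_left ?_ (by positivity)
      linarith
    have a2 : (∑ σ : Fin r → ZMod Q,
        (Δ : ℝ) * ((univ.filter fun s => badD T B Δ σ s).card : ℝ)) / (Δ * N₀) ≤
        (Q : ℝ) ^ r * (1 / 4) := by
      rw [div_le_iff₀ (by positivity)]
      refine (expect_badD hT hr (by have := Nat.one_le_two_pow (n := k); omega) hQ B Δ).trans ?_
      rw [mul_assoc]
      refine mul_le_mul_of_nonneg_left ?_ (by positivity)
      linarith
    have a3 : (∑ σ : Fin r → ZMod Q, (cen T B σ ^ (2 * 2 ^ k)).trace) / P ≤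
        (Q : ℝ) ^ r * (1 / 4) := by
      rw [div_le_iff₀ hP0]
      refine (expect_trace (l := 2 ^ k) hT (Nat.two_pow_pos k) hr' hr hm hQ B hθ).trans ?_
      rw [mul_assoc ((Q : ℝ) ^ r) (1 / 4) P]
      refine mul_le_mul_of_nonneg_left ?_ (by positivity)
      linarith
    linarith
  have hcard : ∑ _σ : Fin r → ZMod Q, (1 : ℝ) = (Q : ℝ) ^ r := by
    have : NeZero Q := ⟨(Fact.out : Q.Prime).ne_zero⟩
    simp
  obtain ⟨σ, hσ⟩ : ∃ σ, f σ < 1 := by
    by_contra hcon
    push Not at hcon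
    have := Finset.sum_le_sum fun (σ : Fin r → ZMod Q) (_ : σ ∈ univ) => hcon σ
    rw [hcard] at this
    have h5 : (0 : ℝ) < (Q : ℝ) ^ r := by positivity
    linarith
  have b1 : 0 ≤ ((univ.filter fun s => badC T B g σ s).card : ℝ) / N₀ := by positivity
  have b2 : 0 ≤ ((Δ : ℝ) * ((univ.filter fun s => badD T B Δ σ s).card : ℝ)) / (Δ * N₀) := by
    positivity
  have b3 : 0 ≤ (cen T B σ ^ (2 * 2 ^ k)).trace / P :=
    div_nonneg (trace_even_nonneg _ (cen_symm T B hB σ) _) hP0.le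
  have b2' : ((Δ : ℝ) * ((univ.filter fun s => badD T B Δ σ s).card : ℝ)) / (Δ * N₀) =
      ((univ.filter fun s => badD T B Δ σ s).card : ℝ) / N₀ := by
    rw [mul_div_mul_left _ _ (by positivity)]
  simp only [hf] at hσ
  refine ⟨σ, ?_, ?_⟩
  · have c1 : (((univ.filter fun s => badC T B g σ s).card : ℝ) +
        ((univ.filter fun s => badD T B Δ σ s).card : ℝ)) / N₀ < 1 := by
      rw [add_div, ← b2']
      linarith
    rw [div_lt_one (by positivity)] at c1
    have c2 : (univ.filter fun s => badC T B g σ s ∨ badD T B Δ σ s).card ≤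
        (univ.filter fun s => badC T B g σ s).card + (univ.filter fun s => badD T B Δ σ s).card := by
      rw [Finset.filter_or]
      exact Finset.card_union_le _ _
    have c3 : (univ.filter fun s => badC T B g σ s).card +
        (univ.filter fun s => badD T B Δ σ s).card < N₀ := by exact_mod_cast c1
    omega
  · have c1 : (cen T B σ ^ (2 * 2 ^ k)).trace / P < 1 := by linarith
    rw [div_lt_one hP0] at c1
    refine mixing B hB σ k N₀ hN ?_
    rw [pow_succ' 2 k]
    rw [hP, pow_succ' 2 k] at c1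
    exact c1

end

end Pool.Agent.K9h49.VC
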