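import Pool.Agent.K9h49.VC.NPt

/-!
# Large independent sets in sparse graphs of large girth
-/

namespace Pool.Agent.K9h49.VC

open Pool.Agent.NPC Pool.Agent.H424R2.PPAD

/-- The list `S` lists, without repetitions, the vertices of an independent set of the graph
of `I`. -/
structure IsIndep (I : Inst) (S : List ℕ) : Prop where
  nodup : S.Nodup
  lt : ∀ v ∈ S, v < I.1.length
  indep : ∀ u v : Fin I.1.length, (gr I).Adj u v → ¬ (u.1 ∈ S ∧ v.1 ∈ S)

/-- Some polynomial-time algorithm finds an independent set of at least `δ |V|` vertices in each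
graph that has the property `P` and has an independent set of at least `(1/2 - δ) |V|`
vertices. -/
def FindsIndep (P : Inst → Prop) (δ : ℝ) : Prop :=
  ∃ A : Inst → List ℕ, PTime A ∧ ∀ I, WF I → UnitW I → P I →
    (∃ S, IsIndep I S ∧ (1 / 2 - δ) * I.1.length ≤ S.length) →
      IsIndep I (A I) ∧ δ * I.1.length ≤ (A I).length

/-- The complement. -/
def cmp (n : ℕ) (C : List ℕ) : List ℕ := (List.range n).filter fun v => !(decide (v ∈ C))

theorem mem_cmp {n : ℕ} {C : List ℕ} {v : ℕ} : v ∈ cmp n C ↔ v < n ∧ v ∉ C := by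
  unfold cmp
  simp

theorem cnt_add (n : ℕ) (C : List ℕ) : (cmp n C).length + cnt n C = n := by
  classical
  rw [cnt_card]
  unfold cmp
  rw [filter_len]
  have h := Finset.card_filter_add_card_filter_not (s := Finset.range n) (fun v => v ∈ C)
  rw [Finset.card_range] at h
  have e : (Finset.range n).filter (fun v => (!(decide (v ∈ C))) = true) =
      (Finset.range n).filter fun v => ¬ v ∈ C := by
    ext v
    simp
  rw [e]
  omega

theorem cnt_cmp {n : ℕ} {S : List ℕ} (h1 : S.Nodup) (h2 : ∀ v ∈ S, v < n) :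
    cnt n (cmp n S) + S.length = n := by
  classical
  have e1 := cnt_add n S
  have e2 : cnt n S = S.length := by
    rw [cnt_card, ← List.toFinset_card_of_nodup h1]
    congr 1
    ext v
    simp only [Finset.mem_filter, Finset.mem_range, List.mem_toFinset]
    exact ⟨fun h => h.2, fun h => ⟨h2 v h, h⟩⟩
  have e3 : cnt n (cmp n S) = (cmp n S).length := by
    have hnd : (cmp n S).Nodup := List.nodup_range.filter _
    rw [cnt_card, ← List.toFinset_card_of_nodup hnd]
    congr 1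
    ext v
    simp only [Finset.mem_filter, Finset.mem_range, List.mem_toFinset]
    exact ⟨fun h => h.2, fun h => ⟨(mem_cmp.1 h).1, h⟩⟩
  omega

theorem cover_of_indep {I : Inst} {S : List ℕ} (hS : IsIndep I S) :
    IsCover I (cmp I.1.length S) := by
  intro u v huv
  have h := hS.indep u v huv
  rw [mem_cmp, mem_cmp]
  by_cases h1 : u.1 ∈ S
  · exact Or.inr ⟨v.2, fun h2 => h ⟨h1, h2⟩⟩
  · exact Or.inl ⟨u.2, h1⟩

theorem indep_of_cover {I : Inst} {D : List ℕ} (hD : IsCover I D) :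
    IsIndep I (cmp I.1.length D) := by
  refine ⟨List.nodup_range.filter _, fun v hv => (mem_cmp.1 hv).1, fun u v huv h => ?_⟩
  rcases hD u v huv with h1 | h1
  · exact (mem_cmp.1 h.1).2 h1
  · exact (mem_cmp.1 h.2).2 h1

theorem cmp_poly {α : Type} [TEnc α] {n : α → ℕ} {C : α → List ℕ} (hn : UPoly n) (hC : Poly C) :
    Poly (fun a => cmp (n a) (C a)) := by
  unfold cmp
  refine NPC.Poly.filter (l := fun a => List.range (n a)) (p := fun a v => !(decide (v ∈ C a)))
    hn.range ?_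
  exact NPC.Poly.not (NPC.Poly.decide_mem (NPC.Poly.snd NPC.Poly.id)
    (hC.comp (NPC.Poly.fst NPC.Poly.id)))

theorem cmpA_poly {A : Inst → List ℕ} (hA : Poly A) : Poly (fun I => cmp I.1.length (A I)) :=
  cmp_poly (UPoly.length (NPC.Poly.fst NPC.Poly.id)) hA

theorem near_of_finds {P : Inst → Prop} {δ : ℝ} (h : FindsIndep P δ) : NearHalf P δ := by
  obtain ⟨A, hA, hA'⟩ := h
  refine ⟨fun I => cmp I.1.length (A I), PTime.of_poly (cmpA_poly hA.toPoly),
    fun I hI hU hP hD => ?_⟩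
  obtain ⟨D, hD1, hD2⟩ := hD
  obtain ⟨h1, h2⟩ := hA' I hI hU hP ⟨_, indep_of_cover hD1, by
    have e : (((cmp I.1.length D).length + cnt I.1.length D : ℕ) : ℝ) = I.1.length := by
      rw [cnt_add]
    push_cast at e
    linarith⟩
  refine ⟨cover_of_indep h1, ?_⟩
  have e : ((cnt I.1.length (cmp I.1.length (A I)) + (A I).length : ℕ) : ℝ) = I.1.length := by
    rw [cnt_cmp h1.nodup h1.lt]
  push_cast at e
  simp only
  linarith

theorem finds_of_near {P : Inst → Prop} {δ : ℝ} (h : NearHalf P δ) : FindsIndep P δ := by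
  obtain ⟨A, hA, hA'⟩ := h
  refine ⟨fun I => cmp I.1.length (A I), PTime.of_poly (cmpA_poly hA.toPoly),
    fun I hI hU hP hS => ?_⟩
  obtain ⟨S, hS1, hS2⟩ := hS
  obtain ⟨h1, h2⟩ := hA' I hI hU hP ⟨_, cover_of_indep hS1, by
    have e : ((cnt I.1.length (cmp I.1.length S) + S.length : ℕ) : ℝ) = I.1.length := by
      rw [cnt_cmp hS1.nodup hS1.lt]
    push_cast at e
    linarith⟩
  refine ⟨indep_of_cover h1, ?_⟩
  have e : (((cmp I.1.length (A I)).length + cnt I.1.length (A I) : ℕ) : ℝ) = I.1.length := by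
    rw [cnt_add]
  push_cast at e
  simp only
  linarith

theorem near_mono {P : Inst → Prop} {δ δ' : ℝ} (hδ : δ' ≤ δ) (h : NearHalf P δ) :
    NearHalf P δ' := by
  obtain ⟨A, hA, hA'⟩ := h
  refine ⟨A, hA, fun I hI hU hP hD => ?_⟩
  obtain ⟨D, hD1, hD2⟩ := hD
  have h0 : (0 : ℝ) ≤ I.1.length := by positivity
  obtain ⟨h1, h2⟩ := hA' I hI hU hP ⟨D, hD1, by nlinarith⟩
  exact ⟨h1, by nlinarith⟩

theorem unit_of_near {δ : ℝ} (hδ : 0 < δ) (hδ' : δ ≤ 1 / 2) (h : NearHalf (fun _ => True) δ) :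
    Approx UnitW (2 - 2 * δ ^ 2) := by
  obtain ⟨A, hA, hA'⟩ := h
  obtain ⟨k, hk⟩ := exists_nat_ge (2 / δ)
  have hk' : 2 ≤ δ * k := by
    rw [div_le_iff₀ hδ] at hk
    linarith
  refine ⟨algN A k, PTime.of_poly (algN_poly hA.toPoly k), fun I hI hU => ?_⟩
  obtain ⟨h1, h2⟩ := algN_correct hδ hδ' hk' A (fun J hJ hJU hJD => hA' J hJ hJU trivial hJD) I hI
  refine ⟨h1, fun D hD => ?_⟩
  have h3 := h2 D hD
  rw [cost_unit hU, cost_unit hU]
  push_cast
  exact h3

theorem near_of_approx {P : Inst → Prop} {c : ℝ} (hc1 : 1 ≤ c)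
    (h : Approx P c) : NearHalf P ((2 - c) / (2 * (1 + c))) := by
  obtain ⟨A, hA, hA'⟩ := h
  refine ⟨A, hA, fun I hI hU hP hD => ?_⟩
  obtain ⟨D, hD1, hD2⟩ := hD
  obtain ⟨h1, h2⟩ := hA' I hI hP
  refine ⟨h1, ?_⟩
  have h3 := h2 D hD1
  rw [cost_unit hU, cost_unit hU] at h3
  push_cast at h3
  have h4 : (0 : ℝ) < 1 + c := by linarith
  have h5 : c * (1 / 2 + (2 - c) / (2 * (1 + c))) = 1 - (2 - c) / (2 * (1 + c)) := by
    field_simp
    ring
  calc (cnt I.1.length (A I) : ℝ) ≤ c * (cnt I.1.length D : ℝ) := h3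
    _ ≤ c * ((1 / 2 + (2 - c) / (2 * (1 + c))) * I.1.length) :=
        mul_le_mul_of_nonneg_left hD2 (by linarith)
    _ = _ := by rw [← mul_assoc, h5]

theorem cost_nonneg {I : Inst} (hI : WF I) (D : List ℕ) : 0 ≤ cost I D := by
  unfold cost
  refine Finset.sum_nonneg fun v _ => ?_
  split_ifs
  · exact hI.nonneg _ (List.get_mem _ _)
  · exact le_rfl

theorem approx_le {P : Inst → Prop} {c c' : ℝ} (hcc : c ≤ c') (h : Approx P c) : Approx P c' := by
  obtain ⟨A, hA, hA'⟩ := h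
  refine ⟨A, hA, fun I hI hP => ?_⟩
  obtain ⟨h1, h2⟩ := hA' I hI hP
  refine ⟨h1, fun D hD => (h2 D hD).trans (mul_le_mul_of_nonneg_right hcc ?_)⟩
  exact_mod_cast cost_nonneg hI D

theorem indep_form (g : ℕ) {ε : ℝ} (hε : 0 < ε) :
    (∃ c : ℝ, c < 2 ∧ Approx (fun _ => True) c) ↔
      ∃ δ : ℝ, 0 < δ ∧ FindsIndep (Sparse g ε) δ := by
  constructor
  · rintro ⟨c, hc, h⟩
    have h1 : Approx (Sparse g ε) (max c 1) :=
      approx_mono (fun _ _ => trivial) (approx_le (le_max_left c 1) h)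
    have h2 : max c 1 < 2 := max_lt hc (by norm_num)
    have h3 : 1 ≤ max c 1 := le_max_right c 1
    refine ⟨(2 - max c 1) / (2 * (1 + max c 1)), div_pos (by linarith) (by linarith), ?_⟩
    exact finds_of_near (near_of_approx h3 h1)
  · rintro ⟨δ, hδ, h⟩
    set δ₁ := min δ (1 / 2) with hδ₁
    have h1 : 0 < δ₁ := lt_min hδ (by norm_num)
    have h2 : δ₁ ≤ 1 / 2 := min_le_right _ _
    have h3 := near_of_sparse g hε h1 (by linarith) (near_mono (min_le_left _ _)
      (near_of_finds h))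
    have h4 := unit_of_near (half_pos h1) (by linarith) h3
    have h5 : 0 < (δ₁ / 2) ^ 2 := by positivity
    have h6 : (δ₁ / 2) ^ 2 ≤ 1 := by nlinarith
    exact ⟨2 - (δ₁ / 2) ^ 2, by linarith, all_of_unit (by linarith) (by linarith) h4⟩

end Pool.Agent.K9h49.VC
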