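import Pool.Agent.K9h49.VC.Near
import Pool.Agent.K9h49.VC.Auc

/-!
# Approximate kernels: from nearly bipartite graphs to all graphs
-/

namespace Pool.Agent.K9h49.VC

open Pool.Agent.NPC Pool.Agent.H424R2.PPAD

/-- The value of the half-integral solution (times two). -/
def XV (k : ℕ) (I : Inst) (τ v : ℕ) : ℕ :=
  xv (adjB I.2) I.1.length (auc (adjB I.2) I.1.length k).1 τ v

/-- The vertices of value one half. -/
def oN (k : ℕ) (I : Inst) (τ : ℕ) : List ℕ :=
  own I.1.length fun v => if XV k I τ v = 1 then 1 else 0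

/-- The subgraph of the vertices of value one half. -/
def jN (k : ℕ) (I : Inst) (τ : ℕ) : Inst :=
  inst (fun s t => adjB I.2 ((oN k I τ).getD s 0) ((oN k I τ).getD t 0)) (oN k I τ).length []

/-- First candidate. -/
def cA (A : Inst → List ℕ) (k : ℕ) (I : Inst) (τ : ℕ) : List ℕ :=
  (List.range I.1.length).filter fun v => decide (XV k I τ v = 2) ||
    (decide (XV k I τ v = 1) && decide (v ∈ backW I.1.length (oN k I τ) (A (jN k I τ))))

/-- Second candidate. -/
def cB (k : ℕ) (I : Inst) (τ : ℕ) : List ℕ :=
  (List.range I.1.length).filter fun v => decide (1 ≤ XV k I τ v)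

/-- The algorithm. -/
def algN (A : Inst → List ℕ) (k : ℕ) (I : Inst) : List ℕ :=
  pick (List.range I.1.length ::
    ((List.range k).flatMap fun j => [cA A k I (j + 1), cB k I (j + 1)]).filter (okB I.2))

theorem adjB_symm (E : List (ℕ × ℕ)) (u v : ℕ) : adjB E u v = adjB E v u := by
  unfold adjB
  rw [Bool.or_comm]

theorem cnt_card (n : ℕ) (C : List ℕ) : cnt n C = ((Finset.range n).filter fun v => v ∈ C).card := by
  unfold cnt
  rw [Finset.card_filter]

theorem filter_len (n : ℕ) (p : ℕ → Bool) : ((List.range n).filter p).length =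
    ((Finset.range n).filter fun v => p v = true).card := by
  rw [← List.toFinset_card_of_nodup (List.nodup_range.filter _)]
  congr 1
  ext v
  simp

theorem cover_adj {I : Inst} (hI : WF I) {D : List ℕ} (hD : IsCover I D) (u v : ℕ)
    (huv : adjB I.2 u v = true) : u ∈ D ∨ v ∈ D := by
  have hD' := (isCover_iff hI D).1 hD
  unfold okB at hD'
  rw [List.all_eq_true] at hD'
  unfold adjB at huv
  rw [Bool.or_eq_true, decide_eq_true_iff, decide_eq_true_iff] at huv
  rcases huv with h3 | h3
  · simpa using hD' _ h3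
  · rw [or_comm]
    simpa using hD' _ h3

theorem okB_of_adj {I : Inst} (hI : WF I) {C : List ℕ}
    (h : ∀ u < I.1.length, ∀ v < I.1.length, adjB I.2 u v = true → u ∈ C ∨ v ∈ C) :
    okB I.2 C = true := by
  unfold okB
  rw [List.all_eq_true]
  intro e he
  obtain ⟨h1, h2⟩ := hI.edge e he
  have := h e.1 (by omega) e.2 h2 (by
    unfold adjB
    rw [Bool.or_eq_true, decide_eq_true_iff]
    exact Or.inl he)
  simpa using this

theorem algN_correct {δ : ℝ} (hδ : 0 < δ) (hδ' : δ ≤ 1 / 2) {k : ℕ} (hk : 2 ≤ δ * k)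
    (A : Inst → List ℕ)
    (hA : ∀ J, WF J → UnitW J →
      (∃ D, IsCover J D ∧ (cnt J.1.length D : ℝ) ≤ (1 / 2 + δ) * J.1.length) →
        IsCover J (A J) ∧ (cnt J.1.length (A J) : ℝ) ≤ (1 - δ) * J.1.length)
    (I : Inst) (hI : WF I) :
    IsCover I (algN A k I) ∧ ∀ D, IsCover I D →
      (cnt I.1.length (algN A k I) : ℝ) ≤ (2 - 2 * δ ^ 2) * cnt I.1.length D := by
  classical
  set n := I.1.length with hn
  set L := List.range I.1.length ::
    ((List.range k).flatMap fun j => [cA A k I (j + 1), cB k I (j + 1)]).filter (okB I.2) with hL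
  have halg : algN A k I = pick L := rfl
  obtain ⟨hp1, hp2⟩ := pick_spec L (by rw [hL]; simp)
  have hk1 : 1 ≤ k := by
    by_contra h0
    have : k = 0 := by omega
    rw [this] at hk
    simp at hk
    linarith
  have hk0 : (0 : ℝ) < k := by exact_mod_cast hk1
  have hsub : ∀ C ∈ L, okB I.2 C = true ∧ cnt n C = C.length := by
    intro C hC
    rw [hL] at hC
    have key : ∀ p : ℕ → Bool, cnt n ((List.range n).filter p) =
        ((List.range n).filter p).length := by
      intro p
      rw [cnt_card, filter_len]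
      congr 1
      ext v
      simp only [Finset.mem_filter, Finset.mem_range, List.mem_filter, List.mem_range]
      tauto
    rcases List.mem_cons.1 hC with rfl | hC
    · constructor
      · refine okB_of_adj hI fun u hu v _ _ => Or.inl (List.mem_range.2 hu)
      · rw [cnt_card, List.length_range]
        have : (Finset.range n).filter (fun v => v ∈ List.range I.1.length) = Finset.range n := by
          ext v
          simp only [Finset.mem_filter, Finset.mem_range, List.mem_range, hn]
          tauto
        rw [this, Finset.card_range]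
    · obtain ⟨h1, h2⟩ := List.mem_filter.1 hC
      refine ⟨h2, ?_⟩
      obtain ⟨j, _, h3⟩ := List.mem_flatMap.1 h1
      simp only [List.mem_cons, List.not_mem_nil, or_false] at h3
      rcases h3 with rfl | rfl
      · exact key _
      · exact key _
  rw [halg]
  refine ⟨(isCover_iff hI _).2 (hsub _ hp1).1, fun D hD => ?_⟩
  rw [(hsub _ hp1).2]
  obtain ⟨τ, hτ1, hτ2, hτ3⟩ := persist (h := adjB I.2) (n := n) (adjB_symm I.2) hk1
  obtain ⟨hp3, hp4⟩ := hτ3 (fun v => v ∈ D) (fun u _ v _ huv => cover_adj hI hD u v huv)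
  rw [← cnt_card] at hp3 hp4
  have hX : ∀ v, xv (adjB I.2) n (auc (adjB I.2) n k).1 τ v = XV k I τ v := fun v => rfl
  simp only [hX] at hp3 hp4
  set v1 := ((Finset.range n).filter fun v => XV k I τ v = 2).card with hv1
  set vh := ((Finset.range n).filter fun v => XV k I τ v = 1).card with hvh
  set ch := ((Finset.range n).filter fun v => XV k I τ v = 1 ∧ v ∈ D).card with hch
  set c := cnt n D with hc
  have hfeas : ∀ u < n, ∀ v < n, adjB I.2 u v = true → 2 ≤ XV k I τ u + XV k I τ v :=
    fun u hu v hv huv => xv_feasible (adjB_symm I.2) _ τ hu hv huv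
  have hle : ∀ v, XV k I τ v ≤ 2 := fun v => xv_le _ _ _
  have hmem : ∀ C, C = cA A k I τ ∨ C = cB k I τ → okB I.2 C = true → C ∈ L := by
    intro C hC hok
    rw [hL]
    refine List.mem_cons_of_mem _ (List.mem_filter.2 ⟨?_, hok⟩)
    refine List.mem_flatMap.2 ⟨τ - 1, List.mem_range.2 (by omega), ?_⟩
    have : τ - 1 + 1 = τ := by omega
    rw [this]
    simpa using hC
  -- real versions of the inequalities
  have r1 : (k : ℝ) * (v1 + ch) ≤ (k + 2) * c := by exact_mod_cast hp3
  have r2 : (k : ℝ) * (2 * v1 + vh) ≤ 2 * (k + 1) * c := by exact_mod_cast hp4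
  have q1 : (v1 : ℝ) + ch ≤ (1 + δ) * c := by
    have h0 : (0 : ℝ) ≤ c := by positivity
    have h1 : (k : ℝ) * (v1 + ch) ≤ k * ((1 + δ) * c) := by nlinarith
    exact le_of_mul_le_mul_left h1 hk0
  have q2 : 2 * (v1 : ℝ) + vh ≤ 2 * (1 + δ) * c := by
    have h0 : (0 : ℝ) ≤ c := by positivity
    have h1 : (k : ℝ) * (2 * v1 + vh) ≤ k * (2 * (1 + δ) * c) := by nlinarith
    exact le_of_mul_le_mul_left h1 hk0
  have h0c : (0 : ℝ) ≤ c := by positivity
  have h0v : (0 : ℝ) ≤ v1 := by positivity
  have h0h : (0 : ℝ) ≤ vh := by positivity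
  set w : ℕ → ℕ := fun v => if XV k I τ v = 1 then 1 else 0 with hw
  have hown : own n w = oN k I τ := rfl
  have hlen : (oN k I τ).length = vh := by
    have h1 := own_sum (fun _ => 1) w n
    rw [hown] at h1
    simp only [List.map_const', List.sum_replicate, smul_eq_mul, mul_one] at h1
    rw [h1, hvh, Finset.card_filter]
  have hwsum : ∀ C : List ℕ, ∑ v ∈ Finset.range n, w v * (if v ∈ C then 1 else 0) =
      ((Finset.range n).filter fun v => XV k I τ v = 1 ∧ v ∈ C).card := by
    intro C
    rw [Finset.card_filter]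
    refine Finset.sum_congr rfl fun v _ => ?_
    simp only [hw]
    by_cases h1 : XV k I τ v = 1 <;> by_cases h2 : v ∈ C <;> simp [h1, h2]
  by_cases hcase : (ch : ℝ) ≤ (1 / 2 + δ) * vh
  · -- the algorithm finds a small cover of the kernel
    obtain ⟨hl1, hl2⟩ := lift_coverW hI w hD
    rw [hwsum] at hl2
    have hJl : (jN k I τ).1.length = vh := by
      unfold jN
      rw [inst_length, hlen]
    obtain ⟨hA1, hA2⟩ := hA (jN k I τ) inst_wf inst_unit ⟨_, hl1, by
      rw [hJl]
      have h1 : cnt vh ((List.range (own I.1.length w).length).filter fun s =>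
          decide ((own I.1.length w).getD s 0 ∈ D)) = ch := by
        have h2 : (own I.1.length w).length = vh := hlen
        rw [← h2]
        exact hl2
      rw [h1]
      exact hcase⟩
    have hbok : IsCover I (backW n (oN k I τ) (A (jN k I τ))) := backW_ok hI w _ hA1
    have hok : okB I.2 (cA A k I τ) = true := by
      refine okB_of_adj hI fun u hu v hv huv => ?_
      have h1 := hfeas u hu v hv huv
      have h2 := hle u
      have h3 := hle v
      have h4 := cover_adj hI hbok u v huv
      unfold cA
      simp only [List.mem_filter, List.mem_range, Bool.or_eq_true, Bool.and_eq_true,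
        decide_eq_true_iff]
      by_cases h5 : XV k I τ u = 2
      · exact Or.inl ⟨hu, Or.inl h5⟩
      · by_cases h6 : XV k I τ v = 2
        · exact Or.inr ⟨hv, Or.inl h6⟩
        · have h7 : XV k I τ u = 1 := by omega
          have h8 : XV k I τ v = 1 := by omega
          rcases h4 with h4 | h4
          · exact Or.inl ⟨hu, Or.inr ⟨h7, h4⟩⟩
          · exact Or.inr ⟨hv, Or.inr ⟨h8, h4⟩⟩
    have h1 := hp2 _ (hmem _ (Or.inl rfl) hok)
    have h2 : (cA A k I τ).length = v1 + ((Finset.range n).filter fun v =>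
        XV k I τ v = 1 ∧ v ∈ backW n (oN k I τ) (A (jN k I τ))).card := by
      unfold cA
      rw [filter_len, hv1, ← Finset.card_union_of_disjoint]
      · congr 1
        ext v
        simp only [Finset.mem_filter, Finset.mem_range, Finset.mem_union, Bool.or_eq_true,
          Bool.and_eq_true, decide_eq_true_iff]
        tauto
      · rw [Finset.disjoint_left]
        intro v hv hv'
        have a1 := (Finset.mem_filter.1 hv).2
        have a2 := (Finset.mem_filter.1 hv').2.1
        omega
    have h3 := backW_cost (I := I) w (A (jN k I τ))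
    rw [← hn, hown, hwsum, hlen] at h3
    rw [hJl] at hA2
    have h4 : ((cA A k I τ).length : ℝ) ≤ v1 + (1 - δ) * vh := by
      rw [h2]
      push_cast
      have : ((((Finset.range n).filter fun v =>
        XV k I τ v = 1 ∧ v ∈ backW n (oN k I τ) (A (jN k I τ))).card : ℕ) : ℝ) ≤
          (cnt vh (A (jN k I τ)) : ℝ) := by exact_mod_cast h3
      linarith
    have h5 : ((pick L).length : ℝ) ≤ (cA A k I τ).length := by exact_mod_cast h1
    refine h5.trans (h4.trans ?_)
    have h6 : (vh : ℝ) ≤ 2 * (1 + δ) * c - 2 * v1 := by linarith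
    have h7 : (1 - δ) * (vh : ℝ) ≤ (1 - δ) * (2 * (1 + δ) * c - 2 * v1) :=
      mul_le_mul_of_nonneg_left h6 (by linarith)
    nlinarith [mul_nonneg h0v (by linarith : (0 : ℝ) ≤ 1 - 2 * δ)]
  · -- every cover of the kernel is large
    push Not at hcase
    have hok : okB I.2 (cB k I τ) = true := by
      refine okB_of_adj hI fun u hu v hv huv => ?_
      have h1 := hfeas u hu v hv huv
      unfold cB
      simp only [List.mem_filter, List.mem_range, decide_eq_true_iff]
      by_cases h5 : 1 ≤ XV k I τ u
      · exact Or.inl ⟨hu, h5⟩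
      · exact Or.inr ⟨hv, by omega⟩
    have h1 := hp2 _ (hmem _ (Or.inr rfl) hok)
    have h2 : (cB k I τ).length = v1 + vh := by
      unfold cB
      rw [filter_len, hv1, hvh, ← Finset.card_union_of_disjoint]
      · congr 1
        ext v
        have := hle v
        simp only [Finset.mem_filter, Finset.mem_range, Finset.mem_union, decide_eq_true_iff]
        constructor
        · rintro ⟨h3, h4⟩
          by_cases h5 : XV k I τ v = 2
          · exact Or.inl ⟨h3, h5⟩
          · exact Or.inr ⟨h3, by omega⟩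
        · rintro (⟨h3, h4⟩ | ⟨h3, h4⟩)
          · exact ⟨h3, by omega⟩
          · exact ⟨h3, by omega⟩
      · rw [Finset.disjoint_left]
        intro v hv hv'
        have a1 := (Finset.mem_filter.1 hv).2
        have a2 := (Finset.mem_filter.1 hv').2
        omega
    have h5 : ((pick L).length : ℝ) ≤ v1 + vh := by
      have : ((pick L).length : ℝ) ≤ (cB k I τ).length := by exact_mod_cast h1
      rw [h2] at this
      push_cast at this
      exact this
    refine h5.trans ?_
    have h6 : (1 / 2 + δ) * ((v1 : ℝ) + vh) ≤ (1 + δ) * c := by nlinarith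
    have h7 : (1 + δ) * (c : ℝ) ≤ (1 / 2 + δ) * ((2 - 2 * δ ^ 2) * c) := by
      have h8 : (1 + δ) ≤ (1 / 2 + δ) * (2 - 2 * δ ^ 2) := by nlinarith [mul_pos hδ hδ]
      calc (1 + δ) * (c : ℝ) ≤ ((1 / 2 + δ) * (2 - 2 * δ ^ 2)) * c :=
            mul_le_mul_of_nonneg_right h8 h0c
        _ = _ := by ring
    have h9 : (1 / 2 + δ) * ((v1 : ℝ) + vh) ≤ (1 / 2 + δ) * ((2 - 2 * δ ^ 2) * c) := h6.trans h7
    exact le_of_mul_le_mul_left h9 (by linarith)

end Pool.Agent.K9h49.VC
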