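import Mathlib

/-!
# Independence of the values of a random polynomial
-/

namespace Pool.Agent.K9h49.VC

open Finset

/-- The value at `a` of the polynomial with coefficients `σ`. -/
def pev {Q r : ℕ} (σ : Fin r → ZMod Q) (a : ℕ) : ZMod Q := ∑ j, σ j * (a : ZMod Q) ^ (j : ℕ)

theorem pev_inj {Q r : ℕ} [Fact Q.Prime] (S : Finset ℕ) (hS : S.card = r)
    (hlt : ∀ a ∈ S, a < Q) :
    Function.Injective (fun (σ : Fin r → ZMod Q) (a : S) => pev σ a.1) := by
  intro σ τ h
  set p : Polynomial (ZMod Q) := ∑ j : Fin r, Polynomial.C (σ j - τ j) * Polynomial.X ^ (j : ℕ)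
    with hp
  have hdeg : p.degree < (r : ℕ) := by
    rw [hp]
    refine lt_of_le_of_lt (Polynomial.degree_sum_le _ _) ?_
    refine (Finset.sup_lt_iff (WithBot.bot_lt_coe r)).2 fun j _ => ?_
    refine lt_of_le_of_lt (Polynomial.degree_C_mul_X_pow_le _ _) ?_
    exact WithBot.coe_lt_coe.2 j.2
  have hcast : Set.InjOn (fun a : ℕ => (a : ZMod Q)) S := by
    intro a ha b hb hab
    have := (ZMod.natCast_eq_natCast_iff' a b Q).1 hab
    rwa [Nat.mod_eq_of_lt (hlt a ha), Nat.mod_eq_of_lt (hlt b hb)] at this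
  have hcard : (S.image (fun a : ℕ => (a : ZMod Q))).card = r := by
    rw [Finset.card_image_of_injOn hcast, hS]
  have h0 : p = 0 := by
    refine Polynomial.eq_zero_of_degree_lt_of_eval_finset_eq_zero
      (S.image (fun a : ℕ => (a : ZMod Q))) (by rw [hcard]; exact hdeg) ?_
    intro x hx
    obtain ⟨a, ha, rfl⟩ := Finset.mem_image.1 hx
    have h1 := congrFun h ⟨a, ha⟩
    simp only [pev] at h1
    rw [hp, Polynomial.eval_finsetSum]
    simp only [Polynomial.eval_mul, Polynomial.eval_C, Polynomial.eval_pow, Polynomial.eval_X,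
      sub_mul, Finset.sum_sub_distrib]
    rw [h1, sub_self]
  funext j
  have h2 : p.coeff j = σ j - τ j := by
    rw [hp, Polynomial.finsetSum_coeff]
    simp only [Polynomial.coeff_C_mul_X_pow]
    rw [Finset.sum_eq_single j]
    · simp
    · intro i _ hij
      have : (j : ℕ) ≠ (i : ℕ) := fun h => hij (Fin.ext h.symm)
      simp [this]
    · simp
  rw [h0, Polynomial.coeff_zero] at h2
  exact sub_eq_zero.1 h2.symm

/-- The values of a random polynomial of degree less than `r` at `r` points are independent. -/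
theorem kwise {Q r : ℕ} [Fact Q.Prime] (S : Finset ℕ) (hS : S.card ≤ r) (hr : r ≤ Q)
    (hlt : ∀ a ∈ S, a < Q) (h : ℕ → ZMod Q → ℝ) :
    ∑ σ : Fin r → ZMod Q, ∏ a ∈ S, h a (pev σ a) =
      (Q : ℝ) ^ r * ∏ a ∈ S, ((∑ b, h a b) / Q) := by
  have hQ : 0 < Q := (Fact.out : Q.Prime).pos
  obtain ⟨S', h1, h2, h3⟩ := Finset.exists_subsuperset_card_eq (s := S) (t := Finset.range Q)
    (fun a ha => Finset.mem_range.2 (hlt a ha)) hS (by simpa using hr)
  have hbij : Function.Bijective (fun (σ : Fin r → ZMod Q) (a : S') => pev σ a.1) := by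
    rw [Fintype.bijective_iff_injective_and_card]
    refine ⟨pev_inj S' h3 fun a ha => Finset.mem_range.1 (h2 ha), ?_⟩
    simp [h3]
  set h' : ℕ → ZMod Q → ℝ := fun a b => if a ∈ S then h a b else 1 with hh'
  have e1 : ∀ σ : Fin r → ZMod Q, ∏ a ∈ S, h a (pev σ a) = ∏ a : S', h' a.1 (pev σ a.1) := by
    intro σ
    rw [Finset.prod_coe_sort S' (fun a => h' a (pev σ a))]
    rw [← Finset.prod_subset h1]
    · refine Finset.prod_congr rfl fun a ha => ?_
      simp [hh', ha]
    · intro a _ ha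
      simp [hh', ha]
  rw [Finset.sum_congr rfl fun σ _ => e1 σ]
  have e2 := Fintype.sum_bijective _ hbij (fun σ => ∏ a : S', h' a.1 (pev σ a.1))
    (fun β => ∏ a : S', h' a.1 (β a)) (fun σ => rfl)
  rw [e2]
  have e3 : ∑ β : S' → ZMod Q, ∏ a : S', h' a.1 (β a) = ∏ a : S', ∑ b, h' a.1 b := by
    rw [Finset.prod_univ_sum]
    simp
  rw [e3, Finset.prod_coe_sort S' (fun a => ∑ b, h' a b)]
  have e4 : ∏ a ∈ S', ((∑ b, h' a b) / (Q : ℝ)) = ∏ a ∈ S, ((∑ b, h a b) / Q) := by
    rw [← Finset.prod_subset h1]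
    · refine Finset.prod_congr rfl fun a ha => ?_
      simp [hh', ha]
    · intro a _ ha
      have : (Q : ℝ) ≠ 0 := by positivity
      simp only [hh', ha, if_false, Finset.sum_const, Finset.card_univ, ZMod.card, nsmul_eq_mul,
        mul_one]
      exact div_self this
  rw [← e4, Finset.prod_div_distrib, Finset.prod_const, h3]
  have : (Q : ℝ) ^ r ≠ 0 := by positivity
  field_simp

end Pool.Agent.K9h49.VC
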