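import Pool.Agent.K9h49.VC.Wt

/-!
# The theorem on vertex covers of sparse graphs of large girth
-/

namespace Pool.Agent.K9h49.VC

open Pool.Agent.NPC Pool.Agent.H424R2.PPAD

section

variable {α : Type} [TEnc α]

theorem size_mul_le (a b : ℕ) : (a * b).size ≤ a.size + b.size := by
  rw [Nat.size_le, pow_add]
  exact Nat.mul_lt_mul'' (Nat.lt_size_self a) (Nat.lt_size_self b)

theorem size_prod_le : ∀ l : List ℕ, (l.foldr (fun x s => x * s) 1).size ≤ sz l
  | [] => by simp [Nat.size_one]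
  | a :: l => by
    have h1 := size_prod_le l
    have h2 := size_mul_le a (l.foldr (fun x s => x * s) 1)
    have h3 := size_le_sz a
    rw [List.foldr_cons, sz_list_cons]
    omega

theorem prod_poly {l : α → List ℕ} (hl : Poly l) : Poly (fun a => (l a).prod) := by
  obtain ⟨r, hr⟩ := hl.sz_le
  refine (NPC.Poly.foldr (s := fun _ => 1) (F := fun _ x s => x * s) hl (NPC.Poly.const 1)
    (NPC.Poly.mul (NPC.Poly.fst (NPC.Poly.snd NPC.Poly.id))
      (NPC.Poly.snd (NPC.Poly.snd NPC.Poly.id)))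
    (Polynomial.C 4 * r + Polynomial.C 1) ?_).congr fun a => ?_
  · intro a k _
    have h1 := sz_nat_le (((l a).drop k).foldr (fun x s => x * s) 1)
    have h2 := size_prod_le ((l a).drop k)
    have h3 := NPC.Poly.sz_drop_le (l a) k
    have h4 := hr a
    simp only [Polynomial.eval_add, Polynomial.eval_mul, Polynomial.eval_C]
    omega
  · rfl

theorem num_poly {f : α → ℚ} (hf : Poly f) : Poly (fun a => (f a).num.natAbs) :=
  NPC.Poly.snd (f := fun a => (decide ((f a).num < 0), (f a).num.natAbs))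
    (NPC.Poly.fst (f := fun a => ((f a).num, (f a).den)) hf)

theorem den_poly {f : α → ℚ} (hf : Poly f) : Poly (fun a => (f a).den) :=
  NPC.Poly.snd (f := fun a => ((f a).num, (f a).den)) hf

theorem dn_poly {W : α → List ℚ} (hW : Poly W) : Poly (fun a => dn (W a)) :=
  prod_poly (NPC.Poly.map (F := fun _ (w : ℚ) => w.den) hW
    (den_poly (NPC.Poly.snd NPC.Poly.id)))

theorem zs_poly {W : α → List ℚ} (hW : Poly W) : Poly (fun a => zs (W a)) := by
  refine NPC.Poly.map (F := fun a (w : ℚ) => w.num.natAbs * (dn (W a) / w.den)) hW ?_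
  exact NPC.Poly.mul (num_poly (NPC.Poly.snd NPC.Poly.id))
    (NPC.Poly.div ((dn_poly hW).comp (NPC.Poly.fst NPC.Poly.id))
      (den_poly (NPC.Poly.snd NPC.Poly.id)))

theorem wt_le (n K B τ : ℕ) (Z : List ℕ) (v : ℕ) : wt n K B τ Z v ≤ n * K + 1 + B := by
  unfold wt
  split_ifs with h
  · have : Z.getD v 0 * (n * K) / τ ≤ n * K := Nat.div_le_of_le_mul (Nat.mul_le_mul_right _ h)
    omega
  · omega

theorem wt_upoly {n B τ v : α → ℕ} {Z : α → List ℕ} (K : ℕ) (hn : UPoly n) (hB : UPoly B)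
    (hτ : Poly τ) (hZ : Poly Z) (hv : Poly v) :
    UPoly (fun a => wt (n a) K (B a) (τ a) (Z a) (v a)) := by
  have hg := NPC.Poly.getD (d := fun _ => 0) hZ hv (NPC.Poly.const 0)
  refine UPoly.of_le (n := fun a => n a * K + 1 + B a) ?_
    (UPoly.add (UPoly.add (UPoly.mul hn (UPoly.const K)) (UPoly.const 1)) hB)
    fun a => wt_le _ _ _ _ _ _
  exact NPC.Poly.ite (NPC.Poly.decide_le hg hτ) (NPC.Poly.succ (NPC.Poly.div
    (NPC.Poly.mul hg (NPC.Poly.mul hn.toPoly (NPC.Poly.const K))) hτ)) hB.toPoly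

theorem own_poly {n : α → ℕ} {w : α → ℕ → ℕ} (hn : UPoly n)
    (hw : UPoly (fun p : α × ℕ => w p.1 p.2)) : Poly (fun a => own (n a) (w a)) := by
  refine NPC.Poly.flatMap (F := fun a v => (List.range (w a v)).map fun _ => v) hn.range ?_
  exact NPC.Poly.map (l := fun p : α × ℕ => List.range (w p.1 p.2)) (F := fun p _ => p.2)
    hw.range (NPC.Poly.snd (NPC.Poly.fst NPC.Poly.id))

theorem backW_poly {n : α → ℕ} {o C : α → List ℕ} (hn : UPoly n) (ho : Poly o) (hC : Poly C) :
    Poly (fun a => backW (n a) (o a) (C a)) := by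
  unfold backW
  refine NPC.Poly.filter (l := fun a => List.range (n a))
    (p := fun a v => (List.range (o a).length).all fun s =>
      !(decide ((o a).getD s 0 = v)) || decide (s ∈ C a)) hn.range ?_
  refine NPC.Poly.all (l := fun x : α × ℕ => List.range (o x.1).length)
    (p := fun (x : α × ℕ) s => !(decide ((o x.1).getD s 0 = x.2)) || decide (s ∈ C x.1))
    ((UPoly.length ho).range.comp (NPC.Poly.fst NPC.Poly.id)) ?_
  have f1 := NPC.Poly.fst (NPC.Poly.fst (NPC.Poly.id (α := (α × ℕ) × ℕ)))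
  exact NPC.Poly.or (NPC.Poly.not (NPC.Poly.decide_eq (NPC.Poly.getD (ho.comp f1)
    (NPC.Poly.snd NPC.Poly.id) (NPC.Poly.const 0)) (NPC.Poly.snd (NPC.Poly.fst NPC.Poly.id))))
    (NPC.Poly.decide_mem (NPC.Poly.snd NPC.Poly.id) (hC.comp f1))

theorem zc_poly {n : α → ℕ} {Z C : α → List ℕ} (hn : UPoly n) (hZ : Poly Z) (hC : Poly C) :
    Poly (fun a => zc (n a) (Z a) (C a)) := by
  unfold zc
  refine NPC.Poly.sum (NPC.Poly.map (l := fun a => List.range (n a))
    (F := fun a v => if v ∈ C a then (Z a).getD v 0 else 0) hn.range ?_)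
  have f1 := NPC.Poly.fst (NPC.Poly.id (α := α × ℕ))
  have f2 := NPC.Poly.snd (NPC.Poly.id (α := α × ℕ))
  exact NPC.Poly.ite (NPC.Poly.decide_mem f2 (hC.comp f1))
    (NPC.Poly.getD (hZ.comp f1) f2 (NPC.Poly.const 0)) (NPC.Poly.const 0)

theorem pickW_poly {n : α → ℕ} {Z : α → List ℕ} {L : α → List (List ℕ)} (hn : UPoly n)
    (hZ : Poly Z) (hL : Poly L) : Poly (fun a => pickW (n a) (Z a) (L a)) := by
  have h1 : Poly (fun a => ((L a).filter fun c =>
      (L a).all fun c' => decide (zc (n a) (Z a) c ≤ zc (n a) (Z a) c')).head?) := by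
    refine NPC.Poly.head? (NPC.Poly.filter (l := L) (p := fun a c =>
      (L a).all fun c' => decide (zc (n a) (Z a) c ≤ zc (n a) (Z a) c')) hL ?_)
    refine NPC.Poly.all (l := fun x : α × List ℕ => L x.1) (p := fun (x : α × List ℕ) c' =>
      decide (zc (n x.1) (Z x.1) x.2 ≤ zc (n x.1) (Z x.1) c'))
      (hL.comp (NPC.Poly.fst NPC.Poly.id)) ?_
    have f1 := NPC.Poly.fst (NPC.Poly.fst (NPC.Poly.id (α := (α × List ℕ) × List ℕ)))
    exact NPC.Poly.decide_le (zc_poly (hn.comp f1) (hZ.comp f1)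
      (NPC.Poly.snd (NPC.Poly.fst NPC.Poly.id)))
      (zc_poly (hn.comp f1) (hZ.comp f1) (NPC.Poly.snd NPC.Poly.id))
  refine (NPC.Poly.optCases (h := fun _ b => b) h1 (NPC.Poly.const ([] : List ℕ))
    (NPC.Poly.snd NPC.Poly.id)).congr fun a => ?_
  unfold pickW
  cases ((L a).filter fun c => (L a).all fun c' =>
    decide (zc (n a) (Z a) c ≤ zc (n a) (Z a) c')).head? <;> rfl

end

theorem algW_poly {A : Inst → List ℕ} (hA : Poly A) (K b : ℕ) : Poly (algW A K b) := by
  have hn : UPoly (fun I : Inst => I.1.length) := UPoly.length (NPC.Poly.fst NPC.Poly.id)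
  have hZ : Poly (fun I : Inst => zs I.1) := zs_poly (NPC.Poly.fst NPC.Poly.id)
  have hcand : Poly (fun p : Inst × ℕ => candW A K b p.1 p.2) := by
    have hn1 : UPoly (fun p : Inst × ℕ => p.1.1.length) := hn.comp (NPC.Poly.fst NPC.Poly.id)
    have hB1 : UPoly (fun p : Inst × ℕ =>
        b * (p.1.1.length * (p.1.1.length * K + 1)) + 1) :=
      UPoly.add (UPoly.mul (UPoly.const b) (UPoly.mul hn1 (UPoly.add (UPoly.mul hn1
        (UPoly.const K)) (UPoly.const 1)))) (UPoly.const 1)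
    have ho : Poly (fun p : Inst × ℕ => own p.1.1.length
        (wt p.1.1.length K (b * (p.1.1.length * (p.1.1.length * K + 1)) + 1) p.2 (zs p.1.1))) := by
      refine own_poly (w := fun p : Inst × ℕ => wt p.1.1.length K
        (b * (p.1.1.length * (p.1.1.length * K + 1)) + 1) p.2 (zs p.1.1)) hn1 ?_
      have f1 := NPC.Poly.fst (NPC.Poly.id (α := (Inst × ℕ) × ℕ))
      exact wt_upoly K (hn1.comp f1) (hB1.comp f1) (NPC.Poly.snd f1)
        (hZ.comp (NPC.Poly.fst f1)) (NPC.Poly.snd NPC.Poly.id)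
    have hh : HPoly (fun (p : Inst × ℕ) (s t : ℕ) => adjB p.1.2
        ((own p.1.1.length (wt p.1.1.length K (b * (p.1.1.length * (p.1.1.length * K + 1)) + 1)
          p.2 (zs p.1.1))).getD s 0)
        ((own p.1.1.length (wt p.1.1.length K (b * (p.1.1.length * (p.1.1.length * K + 1)) + 1)
          p.2 (zs p.1.1))).getD t 0)) := by
      have f1 := NPC.Poly.fst (NPC.Poly.id (α := (Inst × ℕ) × ℕ × ℕ))
      have f2 := NPC.Poly.snd (NPC.Poly.id (α := (Inst × ℕ) × ℕ × ℕ))
      exact adjB_poly (NPC.Poly.snd (NPC.Poly.fst f1))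
        (NPC.Poly.getD (ho.comp f1) (NPC.Poly.fst f2) (NPC.Poly.const 0))
        (NPC.Poly.getD (ho.comp f1) (NPC.Poly.snd f2) (NPC.Poly.const 0))
    exact backW_poly hn1 ho (hA.comp (inst_poly hh (UPoly.length ho) (NPC.Poly.const [])))
  exact pickW_poly hn hZ (NPC.Poly.map (F := fun I τ => candW A K b I τ)
    (NPC.Poly.cons (NPC.Poly.const 0) hZ) hcand)

/-- From unit weights to arbitrary weights. -/
theorem all_of_unit {c c' : ℝ} (hc : 0 ≤ c) (hcc : c < c') (h : Approx UnitW c) :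
    Approx (fun _ => True) c' := by
  obtain ⟨A, hA, hA'⟩ := h
  obtain ⟨b, hb⟩ := exists_nat_ge c
  obtain ⟨K₁, hK₁⟩ := exists_nat_gt (c / (c' - c))
  set K := max K₁ 1 with hK
  have hK1 : 1 ≤ K := le_max_right _ _
  have hKc : c * (K + 1) ≤ c' * K := by
    have h1 : (K₁ : ℝ) ≤ K := by exact_mod_cast le_max_left K₁ 1
    have h2 : 0 < c' - c := by linarith
    rw [div_lt_iff₀ h2] at hK₁
    nlinarith
  refine ⟨algW A K b, PTime.of_poly (algW_poly hA.toPoly K b), fun I hI _ => ?_⟩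
  obtain ⟨h1, h2⟩ := algW_correct hK1 hc hb A hA' I hI
  refine ⟨h1, fun D hD => ?_⟩
  have h3 := h2 D hD
  have hK2 : (0 : ℝ) < (K : ℝ) := by exact_mod_cast hK1
  have h4 : (0 : ℝ) ≤ (cost I D : ℝ) := by
    have : 0 ≤ cost I D := by
      unfold cost
      refine Finset.sum_nonneg fun v _ => ?_
      split_ifs
      · exact hI.nonneg _ (List.get_mem _ _)
      · exact le_rfl
    exact_mod_cast this
  have h5 : (cost I (algW A K b I) : ℝ) * K ≤ (c' * (cost I D : ℝ)) * K := by
    refine h3.trans ?_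
    nlinarith [mul_le_mul_of_nonneg_right hKc h4]
  exact le_of_mul_le_mul_right h5 hK2

/-- The main theorem. -/
theorem main (g : ℕ) {ε c c' : ℝ} (hε : 0 < ε) (hc : 0 ≤ c) (hcc : c < c')
    (h : Approx (fun I => UnitW I ∧ Sparse g ε I) c) : Approx (fun _ => True) c' := by
  have h1 : Approx UnitW ((c + c') / 2) := unit_of_sparse g hε (by linarith) h
  exact all_of_unit (by linarith) (by linarith) h1

theorem approx_mono {P P' : Inst → Prop} (hP : ∀ I, P I → P' I) {c : ℝ} (h : Approx P' c) :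
    Approx P c := by
  obtain ⟨A, hA, hA'⟩ := h
  exact ⟨A, hA, fun I hI hI' => hA' I hI (hP I hI')⟩

theorem main_iff (g : ℕ) {ε : ℝ} (hε : 0 < ε) :
    HardBelowTwo (fun _ => True) ↔ HardBelowTwo (fun I => UnitW I ∧ Sparse g ε I) := by
  constructor
  · intro h c h1 h2 h3
    exact h ((c + 2) / 2) (by linarith) (by linarith)
      (main g hε (by linarith) (by linarith) h3)
  · intro h c h1 h2 h3
    exact h c h1 h2 (approx_mono (fun _ _ => trivial) h3)

end Pool.Agent.K9h49.VC
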