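import Pool.Agent.K9h49.VC.Ker

/-!
# Approximate kernels: running time
-/

namespace Pool.Agent.K9h49.VC

open Pool.Agent.NPC Pool.Agent.H424R2.PPAD

section

variable {α : Type} [TEnc α]

theorem nb_poly {h : α → ℕ → ℕ → Bool} {n u : α → ℕ} {p : α → List ℕ} (hh : HPoly h)
    (hn : UPoly n) (hp : Poly p) (hu : Poly u) (k : ℕ) :
    Poly (fun a => nb (h a) (n a) k (p a) (u a)) := by
  unfold nb
  refine NPC.Poly.flatMap (l := fun _ => List.range k) (F := fun a j =>
    (List.range (n a)).filter fun v => h a (u a) v && decide ((p a).getD v 0 = j))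
    (NPC.Poly.const _) ?_
  refine NPC.Poly.filter (l := fun x : α × ℕ => List.range (n x.1))
    (p := fun (x : α × ℕ) v => h x.1 (u x.1) v && decide ((p x.1).getD v 0 = x.2))
    (hn.range.comp (NPC.Poly.fst NPC.Poly.id)) ?_
  have f1 := NPC.Poly.fst (NPC.Poly.fst (NPC.Poly.id (α := (α × ℕ) × ℕ)))
  exact NPC.Poly.and (hh.app f1 (hu.comp f1) (NPC.Poly.snd NPC.Poly.id))
    (NPC.Poly.decide_eq (NPC.Poly.getD (hp.comp f1) (NPC.Poly.snd NPC.Poly.id) (NPC.Poly.const 0))
      (NPC.Poly.snd (NPC.Poly.fst NPC.Poly.id)))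

theorem elimH {β γ : Type} [TEnc β] [TEnc γ] {l : α → List β} {g : α → γ} {f : α → β → γ}
    (hl : Poly l) (hg : Poly g) (hf : Poly (fun p : α × β => f p.1 p.2)) :
    Poly (fun a => ((l a).head?).elim (g a) (f a)) := by
  refine (NPC.Poly.optCases (h := f) (NPC.Poly.head? hl) hg hf).congr fun a => ?_
  cases (l a).head? <;> rfl

theorem nxt_poly {h : α → ℕ → ℕ → Bool} {n : α → ℕ} {s : α → List ℕ × List ℕ} (hh : HPoly h)
    (hn : UPoly n) (hs : Poly s) (k : ℕ) : Poly (fun a => nxt (h a) (n a) k (s a)) := by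
  unfold nxt
  refine NPC.Poly.flatMap (l := fun a => (List.range (n a)).filter fun u =>
    !(decide (u ∈ (s a).2))) (F := fun a u => ((nb (h a) (n a) k (s a).1 u).head?).elim []
      fun v => [(u, v)]) ?_ ?_
  · refine NPC.Poly.filter (l := fun a => List.range (n a)) (p := fun a u =>
      !(decide (u ∈ (s a).2))) hn.range ?_
    exact NPC.Poly.not (NPC.Poly.decide_mem (NPC.Poly.snd NPC.Poly.id)
      (NPC.Poly.snd (hs.comp (NPC.Poly.fst NPC.Poly.id))))
  · have f1 := NPC.Poly.fst (NPC.Poly.id (α := α × ℕ))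
    refine elimH (l := fun x : α × ℕ => nb (h x.1) (n x.1) k (s x.1).1 x.2)
      (g := fun _ => ([] : List (ℕ × ℕ))) (f := fun (x : α × ℕ) v => [(x.2, v)]) ?_
      (NPC.Poly.const _) ?_
    · exact nb_poly (h := fun x : α × ℕ => h x.1) hh.fst (hn.comp f1)
        (NPC.Poly.fst (hs.comp f1)) (NPC.Poly.snd NPC.Poly.id) k
    · exact NPC.Poly.cons (NPC.Poly.pair (NPC.Poly.snd (NPC.Poly.fst NPC.Poly.id))
        (NPC.Poly.snd NPC.Poly.id)) (NPC.Poly.const [])

theorem upd_poly {n v x : α → ℕ} {l : α → List ℕ} (hn : UPoly n) (hl : Poly l) (hv : Poly v)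
    (hx : Poly x) : Poly (fun a => upd (n a) (l a) (v a) (x a)) := by
  unfold upd
  refine NPC.Poly.map (l := fun a => List.range (n a)) (F := fun a i =>
    if i = v a then x a else (l a).getD i 0) hn.range ?_
  have f1 := NPC.Poly.fst (NPC.Poly.id (α := α × ℕ))
  have f2 := NPC.Poly.snd (NPC.Poly.id (α := α × ℕ))
  exact NPC.Poly.ite (NPC.Poly.decide_eq f2 (hv.comp f1)) (hx.comp f1)
    (NPC.Poly.getD (hl.comp f1) f2 (NPC.Poly.const 0))

theorem bid_poly {h : α → ℕ → ℕ → Bool} {n : α → ℕ} {s : α → List ℕ × List ℕ} (hh : HPoly h)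
    (hn : UPoly n) (hs : Poly s) (k : ℕ) : Poly (fun a => bid (h a) (n a) k (s a)) := by
  unfold bid
  refine elimH (l := fun a => nxt (h a) (n a) k (s a)) (g := s)
    (f := fun a e => (upd (n a) (s a).1 e.2 ((s a).1.getD e.2 0 + 1), upd (n a) (s a).2 e.2 e.1))
    (nxt_poly hh hn hs k) hs ?_
  have f1 := NPC.Poly.fst (NPC.Poly.id (α := α × (ℕ × ℕ)))
  have f2 := NPC.Poly.snd (NPC.Poly.id (α := α × (ℕ × ℕ)))
  exact NPC.Poly.pair (upd_poly (hn.comp f1) (NPC.Poly.fst (hs.comp f1)) (NPC.Poly.snd f2)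
    (NPC.Poly.succ (NPC.Poly.getD (NPC.Poly.fst (hs.comp f1)) (NPC.Poly.snd f2)
      (NPC.Poly.const 0))))
    (upd_poly (hn.comp f1) (NPC.Poly.snd (hs.comp f1)) (NPC.Poly.snd f2) (NPC.Poly.fst f2))

theorem sz_le_of_getD {l : List ℕ} {n B : ℕ} (hl : l.length = n) (hB : ∀ v < n, l.getD v 0 ≤ B) :
    sz l ≤ n * (4 * B + 2) + 1 := by
  have h1 := sz_le_length_mul l (4 * B + 1) (fun x hx => by
    obtain ⟨i, hi, rfl⟩ := List.getElem_of_mem hx
    have h2 := hB i (by omega)
    rw [List.getD_eq_getElem _ _ hi] at h2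
    have h3 := sz_nat_le l[i]
    have h4 := NPC.Poly.size_le_self l[i]
    omega)
  rw [hl] at h1
  exact h1

theorem auc_poly {h : α → ℕ → ℕ → Bool} {n : α → ℕ} (hh : HPoly h) (hn : UPoly n) (k : ℕ) :
    Poly (fun a => auc (h a) (n a) k) := by
  unfold auc
  obtain ⟨r, hr⟩ := NPC.Poly.sz_le hn
  have hr' : ∀ a, n a ≤ r.eval (sz a) := by
    intro a
    have h1 := hr a
    have h2 := length_lt_sz (List.replicate (n a) ())
    rw [List.length_replicate] at h2
    omega
  refine NPC.Poly.foldl (l := fun a => List.range (k * n a + 1))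
    (s := fun a => ((List.range (n a)).map fun _ => 0, (List.range (n a)).map fun _ => n a))
    (F := fun a s _ => bid (h a) (n a) k s)
    (UPoly.add (UPoly.mul (UPoly.const k) hn) (UPoly.const 1)).range ?_ ?_
    (r * Polynomial.C (4 * k + 2) + r * (4 * r + Polynomial.C 2) + Polynomial.C 3) ?_
  · exact NPC.Poly.pair (NPC.Poly.map (F := fun _ _ => 0) hn.range (NPC.Poly.const 0))
      (NPC.Poly.map (F := fun a _ => n a) hn.range (hn.toPoly.comp (NPC.Poly.fst NPC.Poly.id)))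
  · have f1 := NPC.Poly.fst (NPC.Poly.id (α := α × (List ℕ × List ℕ) × ℕ))
    have f2 := NPC.Poly.fst (NPC.Poly.snd (NPC.Poly.id (α := α × (List ℕ × List ℕ) × ℕ)))
    exact bid_poly (h := fun x : α × (List ℕ × List ℕ) × ℕ => h x.1) hh.fst (hn.comp f1) f2 k
  · intro a j _
    rw [List.take_range]
    obtain ⟨hI, _⟩ := auc_aux (h a) (n a) k (min j (k * n a + 1))
    set s := (List.range (min j (k * n a + 1))).foldl (fun s _ => bid (h a) (n a) k s)
      ((List.range (n a)).map fun _ => 0, (List.range (n a)).map fun _ => n a)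
    have e1 := sz_le_of_getD hI.len.1 hI.le
    have e2 := sz_le_of_getD (B := n a) hI.len.2 (fun v hv => by
      rcases hI.owned v hv with h3 | h3
      · exact h3.le
      · exact h3.1.le)
    have e3 : sz s = sz s.1 + sz s.2 + 1 := sz_pair s.1 s.2
    rw [e3]
    simp only [Polynomial.eval_add, Polynomial.eval_mul, Polynomial.eval_C, Polynomial.eval_ofNat]
    have e4 := hr' a
    have e5 : n a * (4 * k + 2) ≤ r.eval (sz a) * (4 * k + 2) := Nat.mul_le_mul_right _ e4
    have e6 : n a * (4 * n a + 2) ≤ r.eval (sz a) * (4 * r.eval (sz a) + 2) :=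
      Nat.mul_le_mul e4 (by omega)
    omega

theorem xv_poly {h : α → ℕ → ℕ → Bool} {n τ v : α → ℕ} {p : α → List ℕ} (hh : HPoly h)
    (hn : UPoly n) (hp : Poly p) (hτ : Poly τ) (hv : Poly v) :
    Poly (fun a => xv (h a) (n a) (p a) (τ a) (v a)) := by
  unfold xv
  refine NPC.Poly.add ?_ ?_
  · refine NPC.Poly.ite (p := fun a => ((List.range (n a)).any fun w => h a (v a) w &&
      decide ((p a).getD w 0 < τ a)) = true) (NPC.Poly.decide_bool ?_) (NPC.Poly.const 1)
      (NPC.Poly.const 0)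
    refine NPC.Poly.any (l := fun a => List.range (n a)) (p := fun a w => h a (v a) w &&
      decide ((p a).getD w 0 < τ a)) hn.range ?_
    have f1 := NPC.Poly.fst (NPC.Poly.id (α := α × ℕ))
    have f2 := NPC.Poly.snd (NPC.Poly.id (α := α × ℕ))
    exact NPC.Poly.and (hh.app f1 (hv.comp f1) f2)
      (NPC.Poly.decide_lt (NPC.Poly.getD (hp.comp f1) f2 (NPC.Poly.const 0)) (hτ.comp f1))
  · exact NPC.Poly.ite (NPC.Poly.decide_le hτ (NPC.Poly.getD hp hv (NPC.Poly.const 0)))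
      (NPC.Poly.const 1) (NPC.Poly.const 0)

end

theorem adj_hpoly {α : Type} [TEnc α] {f : α → Inst} (hf : Poly f) :
    HPoly (fun (a : α) => adjB (f a).2) := by
  have f1 := NPC.Poly.fst (NPC.Poly.id (α := α × ℕ × ℕ))
  have f2 := NPC.Poly.snd (NPC.Poly.id (α := α × ℕ × ℕ))
  exact adjB_poly (NPC.Poly.snd (hf.comp f1)) (NPC.Poly.fst f2) (NPC.Poly.snd f2)

theorem XV_poly {α : Type} [TEnc α] {f : α → Inst} {τ v : α → ℕ} (hf : Poly f) (hτ : Poly τ)
    (hv : Poly v) (k : ℕ) : Poly (fun a => XV k (f a) (τ a) (v a)) := by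
  have hn : UPoly (fun a => (f a).1.length) := UPoly.length (NPC.Poly.fst hf)
  unfold XV
  exact xv_poly (h := fun a => adjB (f a).2) (n := fun a => (f a).1.length)
    (p := fun a => (auc (adjB (f a).2) (f a).1.length k).1) (adj_hpoly hf) hn
    (NPC.Poly.fst (auc_poly (adj_hpoly hf) hn k)) hτ hv

theorem oN_poly {α : Type} [TEnc α] {f : α → Inst} {τ : α → ℕ} (hf : Poly f) (hτ : Poly τ)
    (k : ℕ) : Poly (fun a => oN k (f a) (τ a)) := by
  have hn : UPoly (fun a => (f a).1.length) := UPoly.length (NPC.Poly.fst hf)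
  unfold oN
  refine own_poly (n := fun a => (f a).1.length)
    (w := fun a v => if XV k (f a) (τ a) v = 1 then 1 else 0) hn ?_
  have f1 := NPC.Poly.fst (NPC.Poly.id (α := α × ℕ))
  have f2 := NPC.Poly.snd (NPC.Poly.id (α := α × ℕ))
  refine UPoly.of_le (n := fun _ => 1) ?_ (UPoly.const 1) fun a => by split_ifs <;> omega
  exact NPC.Poly.ite (NPC.Poly.decide_eq (XV_poly (hf.comp f1) (hτ.comp f1) f2 k)
    (NPC.Poly.const 1)) (NPC.Poly.const 1) (NPC.Poly.const 0)

theorem jN_poly {α : Type} [TEnc α] {f : α → Inst} {τ : α → ℕ} (hf : Poly f) (hτ : Poly τ)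
    (k : ℕ) : Poly (fun a => jN k (f a) (τ a)) := by
  have ho := oN_poly hf hτ k
  unfold jN
  refine inst_poly (h := fun a s t => adjB (f a).2 ((oN k (f a) (τ a)).getD s 0)
    ((oN k (f a) (τ a)).getD t 0)) (m := fun a => (oN k (f a) (τ a)).length)
    (bad := fun _ => []) ?_ (UPoly.length ho) (NPC.Poly.const [])
  have f1 := NPC.Poly.fst (NPC.Poly.id (α := α × ℕ × ℕ))
  have f2 := NPC.Poly.snd (NPC.Poly.id (α := α × ℕ × ℕ))
  exact adjB_poly (NPC.Poly.snd (hf.comp f1))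
    (NPC.Poly.getD (ho.comp f1) (NPC.Poly.fst f2) (NPC.Poly.const 0))
    (NPC.Poly.getD (ho.comp f1) (NPC.Poly.snd f2) (NPC.Poly.const 0))

theorem cA_poly {α : Type} [TEnc α] {f : α → Inst} {τ : α → ℕ} {A : Inst → List ℕ} (hA : Poly A)
    (hf : Poly f) (hτ : Poly τ) (k : ℕ) : Poly (fun a => cA A k (f a) (τ a)) := by
  have hn : UPoly (fun a => (f a).1.length) := UPoly.length (NPC.Poly.fst hf)
  unfold cA
  refine NPC.Poly.filter (l := fun a => List.range (f a).1.length)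
    (p := fun a v => decide (XV k (f a) (τ a) v = 2) ||
    (decide (XV k (f a) (τ a) v = 1) && decide (v ∈ backW (f a).1.length (oN k (f a) (τ a))
      (A (jN k (f a) (τ a)))))) hn.range ?_
  have f1 := NPC.Poly.fst (NPC.Poly.id (α := α × ℕ))
  have f2 := NPC.Poly.snd (NPC.Poly.id (α := α × ℕ))
  have hX := XV_poly (hf.comp f1) (hτ.comp f1) f2 k
  refine NPC.Poly.or (NPC.Poly.decide_eq hX (NPC.Poly.const 2))
    (NPC.Poly.and (NPC.Poly.decide_eq hX (NPC.Poly.const 1)) (NPC.Poly.decide_mem f2 ?_))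
  exact backW_poly (n := fun x : α × ℕ => (f x.1).1.length) (hn.comp f1)
    (oN_poly (hf.comp f1) (hτ.comp f1) k) (hA.comp (jN_poly (hf.comp f1) (hτ.comp f1) k))

theorem cB_poly {α : Type} [TEnc α] {f : α → Inst} {τ : α → ℕ}
    (hf : Poly f) (hτ : Poly τ) (k : ℕ) : Poly (fun a => cB k (f a) (τ a)) := by
  have hn : UPoly (fun a => (f a).1.length) := UPoly.length (NPC.Poly.fst hf)
  unfold cB
  refine NPC.Poly.filter (l := fun a => List.range (f a).1.length)
    (p := fun a v => decide (1 ≤ XV k (f a) (τ a) v)) hn.range ?_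
  have f1 := NPC.Poly.fst (NPC.Poly.id (α := α × ℕ))
  have f2 := NPC.Poly.snd (NPC.Poly.id (α := α × ℕ))
  exact NPC.Poly.decide_le (NPC.Poly.const 1) (XV_poly (hf.comp f1) (hτ.comp f1) f2 k)

theorem algN_poly {A : Inst → List ℕ} (hA : Poly A) (k : ℕ) : Poly (algN A k) := by
  have hn : UPoly (fun I : Inst => I.1.length) := UPoly.length (NPC.Poly.fst NPC.Poly.id)
  have f1 := NPC.Poly.fst (NPC.Poly.id (α := Inst × ℕ))
  have f2 := NPC.Poly.snd (NPC.Poly.id (α := Inst × ℕ))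
  refine pick_poly (L := fun I => List.range I.1.length ::
    ((List.range k).flatMap fun j => [cA A k I (j + 1), cB k I (j + 1)]).filter (okB I.2)) ?_
  refine NPC.Poly.cons hn.range (NPC.Poly.filter
    (l := fun I => (List.range k).flatMap fun j => [cA A k I (j + 1), cB k I (j + 1)])
    (p := fun I C => okB I.2 C) ?_ ?_)
  · refine NPC.Poly.flatMap (l := fun _ => List.range k)
      (F := fun I j => [cA A k I (j + 1), cB k I (j + 1)]) (NPC.Poly.const _) ?_
    exact NPC.Poly.cons (cA_poly hA f1 (NPC.Poly.succ f2) k)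
      (NPC.Poly.cons (cB_poly f1 (NPC.Poly.succ f2) k) (NPC.Poly.const []))
  · exact okB_poly (NPC.Poly.snd (NPC.Poly.fst NPC.Poly.id)) (NPC.Poly.snd NPC.Poly.id)

end Pool.Agent.K9h49.VC
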