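import Pool.Agent.K9h49.VC.Main

/-!
# Nearly bipartite graphs: from sparse graphs of large girth to all graphs
-/

namespace Pool.Agent.K9h49.VC

open Pool.Agent.NPC Pool.Agent.H424R2.PPAD

/-- On the unit weight instances with the property `P` and a vertex cover with at most
`(1/2 + δ) |V|` vertices, a vertex cover with at most `(1 - δ) |V|` vertices can be found in
polynomial time. -/
def NearHalf (P : Inst → Prop) (δ : ℝ) : Prop :=
  ∃ A : Inst → List ℕ, PTime A ∧ ∀ I, WF I → UnitW I → P I →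
    (∃ D, IsCover I D ∧ (cnt I.1.length D : ℝ) ≤ (1 / 2 + δ) * I.1.length) →
      IsCover I (A I) ∧ (cnt I.1.length (A I) : ℝ) ≤ (1 - δ) * I.1.length

theorem alg_near {g₀ g κ K : ℕ} {ε δ : ℝ} (hg : 1 ≤ g) (hg₀ : g₀ ≤ g) (hε : 0 < ε)
    (hgε : 3 ≤ (g : ℝ) * ε) (hκ : 2 * g + 1 ≤ 2 ^ κ) (hK : 3 ≤ K)
    (A : Inst → List ℕ)
    (hA : ∀ J, WF J → UnitW J → Sparse g₀ ε J →
      (∃ D, IsCover J D ∧ (cnt J.1.length D : ℝ) ≤ (1 / 2 + δ) * J.1.length) →
        IsCover J (A J) ∧ (cnt J.1.length (A J) : ℝ) ≤ (1 - δ) * J.1.length)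
    (I : Inst) (hI : WF I)
    (hD : ∃ D, IsCover I D ∧ (cnt I.1.length D : ℝ) ≤ (1 / 2 + δ) * I.1.length) :
    IsCover I (alg A g κ K I) ∧
      (cnt I.1.length (alg A g κ K I) : ℝ) * (K - 2) ≤ (1 - δ) * K * I.1.length := by
  classical
  set n := I.1.length with hn
  set L := List.range I.1.length ::
    ((tup (2 * 2 ^ κ) (List.range (QQ g κ K I.1.length))).map (cand A g κ K I)).filter (okB I.2)
    with hL
  have halg : alg A g κ K I = pick L := rfl
  obtain ⟨hp1, hp2⟩ := pick_spec L (by rw [hL]; simp)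
  have hsub : ∀ C ∈ L, okB I.2 C = true ∧ cnt n C = C.length := by
    intro C hC
    rw [hL] at hC
    rcases List.mem_cons.1 hC with rfl | hC
    · constructor
      · unfold okB
        rw [List.all_eq_true]
        intro e he
        obtain ⟨h1, h2⟩ := hI.edge e he
        rw [Bool.or_eq_true, decide_eq_true_iff, List.mem_range]
        exact Or.inl (by omega)
      · unfold cnt
        rw [List.length_range]
        have : ∀ v ∈ Finset.range n, (if v ∈ List.range I.1.length then 1 else 0) = 1 := by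
          intro v hv
          rw [if_pos (List.mem_range.2 (Finset.mem_range.1 hv))]
        rw [Finset.sum_congr rfl this]
        simp [hn]
    · obtain ⟨h1, h2⟩ := List.mem_filter.1 hC
      refine ⟨h2, ?_⟩
      obtain ⟨σ, _, rfl⟩ := List.mem_map.1 h1
      exact cnt_back _ _ _ _
  rw [halg]
  refine ⟨(isCover_iff hI _).2 (hsub _ hp1).1, ?_⟩
  obtain ⟨D, hD, hDc⟩ := hD
  by_cases hn0 : n = 0
  · have h0 : ∀ C, cnt n C = 0 := by
      intro C
      rw [hn0]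
      simp [cnt]
    rw [h0, hn0]
    simp
  have hn1 : 1 ≤ n := Nat.one_le_iff_ne_zero.2 hn0
  have hK1 : 1 ≤ K := by omega
  obtain ⟨hQp, hQ1, hQ2, hQ3, hQ4⟩ := QQ_spec (κ := κ) hg hK1 hn1
  have : Fact (QQ g κ K n).Prime := ⟨hQp⟩
  have : NeZero (QQ g κ K n) := ⟨hQp.ne_zero⟩
  obtain ⟨σ, hσ1, hσ2⟩ := exists_good (r := 2 * 2 ^ κ) (TT_le (κ := κ) hg hK1 hn1) hQ4 κ le_rfl g
    (by omega) (mm_pos hg hK1 hn1) hQ1 (BB I.2 (NN g κ K n) (mm g κ K n)) (BB_symm _ _ _)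
    (N0 g κ K n) (Dl g κ K n) (N0_pos hg hK1 hn1) (by
      have := (D0_ge (κ := κ) hg hK1 hn1).2
      unfold Dl
      positivity) (TT_pos hg hK1 hn1) (par0 hg hK1 hn1) (par1 hg hK1 hn1) (par2 hg hK1 hn1)
      (par3 hg hκ hK1 hn1)
  set τ : List ℕ := List.ofFn fun i => (σ i).val with hτ
  set h := hB I.2 (NN g κ K n) (mm g κ K n) (QQ g κ K n) (TT g κ K n) τ with hh
  set J := inst h (mm g κ K n) (badL h (mm g κ K n) g (Dl g κ K n)) with hJ
  have hJs : Sparse g₀ ε J :=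
    sparse_mono hg₀ (inst_sparse (hB_symm _ _ _ _ _ _) ε (Dl_le hg hK1 hn1 hε hgε))
  obtain ⟨h3, h4⟩ := lift_cover hI hD n (NN g κ K n) (mm g κ K n) (QQ g κ K n) (TT g κ K n) rfl τ
    (badL h (mm g κ K n) g (Dl g κ K n))
  have hJl : J.1.length = mm g κ K n := inst_length
  have hmn : (mm g κ K n : ℝ) = n * NN g κ K n := by unfold mm; push_cast; ring
  obtain ⟨hA1, hA2⟩ := hA J inst_wf inst_unit hJs ⟨_, h3, by
    rw [hJl, h4, hmn]
    push_cast
    have : (0 : ℝ) ≤ NN g κ K n := by positivity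
    nlinarith [mul_le_mul_of_nonneg_left hDc this]⟩
  have hcand : cand A g κ K I τ = back n (NN g κ K n) (N0 g κ K n) (A J) := rfl
  have hok : okB I.2 (cand A g κ K I τ) = true := by
    rw [hcand]
    refine back_ok hI n (NN g κ K n) (mm g κ K n) (TT g κ K n) g (Dl g κ K n) (N0 g κ K n) hn rfl σ
      (fun F hF => ?_) hσ2 (A J) hA1
    refine le_trans (Finset.card_le_card fun s hs => ?_) hσ1
    exact Finset.mem_filter.2 ⟨Finset.mem_univ _, hF s hs⟩
  have hτmem : τ ∈ tup (2 * 2 ^ κ) (List.range (QQ g κ K I.1.length)) := by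
    rw [mem_tup]
    refine ⟨by simp [hτ], fun x hx => ?_⟩
    rw [hτ, List.mem_ofFn] at hx
    obtain ⟨i, rfl⟩ := hx
    exact List.mem_range.2 (ZMod.val_lt _)
  have hmemL : cand A g κ K I τ ∈ L := by
    rw [hL]
    exact List.mem_cons_of_mem _ (List.mem_filter.2 ⟨List.mem_map.2 ⟨τ, hτmem, rfl⟩, hok⟩)
  have h1 := hp2 _ hmemL
  have h2 := back_cost n (NN g κ K n) (N0 g κ K n) (A J)
  rw [← hcand] at h2
  rw [hJl] at hA2
  have h6 : cnt (n * NN g κ K n) (A J) = cnt (mm g κ K n) (A J) := rfl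
  rw [h6] at h2
  have hN : NN g κ K n = K * N0 g κ K n := rfl
  have hN0 : (0 : ℝ) < N0 g κ K n := by exact_mod_cast N0_pos (κ := κ) hg hK1 hn1
  have h7 : ((cand A g κ K I τ).length : ℝ) * ((K - 2) * N0 g κ K n) ≤
      (1 - δ) * (K * N0 g κ K n * n) := by
    have a1 : (((cand A g κ K I τ).length * (NN g κ K n - 2 * N0 g κ K n) : ℕ) : ℝ) ≤
        cnt (mm g κ K n) (A J) := by exact_mod_cast h2
    have a2 : NN g κ K n - 2 * N0 g κ K n = (K - 2) * N0 g κ K n := by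
      rw [hN, Nat.sub_mul]
    rw [a2] at a1
    push_cast [Nat.cast_sub (show 2 ≤ K by omega)] at a1
    refine a1.trans (hA2.trans (le_of_eq ?_))
    rw [hmn, hN]
    push_cast
    ring
  rw [(hsub _ hp1).2]
  have h8 : ((pick L).length : ℝ) ≤ (cand A g κ K I τ).length := by exact_mod_cast h1
  have hK2 : (0 : ℝ) < (K : ℝ) - 2 := by
    have : (3 : ℝ) ≤ K := by exact_mod_cast hK
    linarith
  have h9 : ((cand A g κ K I τ).length : ℝ) * (K - 2) ≤ (1 - δ) * K * n := by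
    have : ((cand A g κ K I τ).length : ℝ) * (K - 2) * N0 g κ K n ≤
        ((1 - δ) * K * n) * N0 g κ K n := by linarith
    exact le_of_mul_le_mul_right this hN0
  calc ((pick L).length : ℝ) * (K - 2) ≤ ((cand A g κ K I τ).length : ℝ) * (K - 2) :=
        mul_le_mul_of_nonneg_right h8 hK2.le
    _ ≤ _ := h9

/-- From sparse graphs of large girth to all graphs. -/
theorem near_of_sparse (g₀ : ℕ) {ε δ : ℝ} (hε : 0 < ε) (hδ : 0 < δ) (hδ1 : δ < 1)
    (h : NearHalf (Sparse g₀ ε) δ) : NearHalf (fun _ => True) (δ / 2) := by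
  obtain ⟨A, hA, hA'⟩ := h
  obtain ⟨g₁, hg₁⟩ := exists_nat_gt (3 / ε)
  set g := max (max g₀ g₁) 1 with hg
  have hg1 : 1 ≤ g := le_max_right _ _
  have hg0 : g₀ ≤ g := (le_max_left _ _).trans (le_max_left _ _)
  have hgε : 3 ≤ (g : ℝ) * ε := by
    have h1 : (g₁ : ℝ) ≤ g := by exact_mod_cast (le_max_right g₀ g₁).trans (le_max_left _ _)
    rw [div_lt_iff₀ hε] at hg₁
    nlinarith
  have hκ : 2 * g + 1 ≤ 2 ^ (2 * g + 1) := Nat.lt_two_pow_self.le
  obtain ⟨K₁, hK₁⟩ := exists_nat_gt (4 / δ)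
  set K := max K₁ 3 with hK
  have hK3 : 3 ≤ K := le_max_right _ _
  have hKc : (1 - δ) * K ≤ (1 - δ / 2) * (K - 2) := by
    have h1 : (K₁ : ℝ) ≤ K := by exact_mod_cast le_max_left K₁ 3
    rw [div_lt_iff₀ hδ] at hK₁
    nlinarith
  refine ⟨alg A g (2 * g + 1) K, PTime.of_poly (alg_poly hA.toPoly g (2 * g + 1) K),
    fun I hI _ _ hD => ?_⟩
  obtain ⟨D, hD1, hD2⟩ := hD
  obtain ⟨h1, h2⟩ := alg_near (ε := ε) (δ := δ) hg1 hg0 hε hgε hκ hK3 A hA' I hI ⟨D, hD1, by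
    have : (0 : ℝ) ≤ I.1.length := by positivity
    nlinarith⟩
  refine ⟨h1, ?_⟩
  have hK2 : (0 : ℝ) < (K : ℝ) - 2 := by
    have : (3 : ℝ) ≤ K := by exact_mod_cast hK3
    linarith
  have h5 : (cnt I.1.length (alg A g (2 * g + 1) K I) : ℝ) * (K - 2) ≤
      ((1 - δ / 2) * I.1.length) * (K - 2) := by
    refine h2.trans ?_
    have : (0 : ℝ) ≤ I.1.length := by positivity
    nlinarith [mul_le_mul_of_nonneg_right hKc this]
  exact le_of_mul_le_mul_right h5 hK2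

end Pool.Agent.K9h49.VC
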