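import Pool.Agent.K9h49.VC.Red

/-!
# The reduction to sparse graphs of large girth: running time
-/

namespace Pool.Agent.K9h49.VC

open Pool.Agent.NPC Pool.Agent.H424R2.PPAD

section

variable {α : Type} [TEnc α]

theorem upow {n : α → ℕ} (hn : UPoly n) : ∀ k : ℕ, UPoly (fun a => n a ^ k)
  | 0 => by simpa using UPoly.const (α := α) 1
  | k + 1 => by simpa only [pow_succ] using UPoly.mul (upow hn k) hn

theorem nmin {m n : α → ℕ} (hm : Poly m) (hn : Poly n) : Poly (fun a => min (m a) (n a)) :=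
  NPC.Poly.min hm hn

theorem nmax {m n : α → ℕ} (hm : Poly m) (hn : Poly n) : Poly (fun a => max (m a) (n a)) :=
  NPC.Poly.max hm hn

theorem tup_poly {L : α → List ℕ} (hL : Poly L) : ∀ k, Poly (fun a => tup k (L a))
  | 0 => NPC.Poly.const [[]]
  | k + 1 => by
    refine NPC.Poly.flatMap (F := fun a t => (L a).map fun x => x :: t) (tup_poly hL k) ?_
    refine NPC.Poly.map (F := fun p x => x :: p.2) (hL.comp (NPC.Poly.fst NPC.Poly.id)) ?_
    exact NPC.Poly.cons (NPC.Poly.snd NPC.Poly.id) (NPC.Poly.snd (NPC.Poly.fst NPC.Poly.id))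

theorem hor_le (Q : ℕ) (σ : List ℕ) (a : ℕ) : hor Q σ a ≤ Q + (σ.sum + a * Q) ∨ Q = 0 := by
  by_cases h : Q = 0
  · exact Or.inr h
  · left
    unfold hor
    cases σ with
    | nil => simp
    | cons c σ =>
      rw [List.foldr_cons]
      have := Nat.mod_lt (c + a * List.foldr (fun c acc => (c + a * acc) % Q) 0 σ)
        (Nat.pos_of_ne_zero h)
      omega

theorem hor_poly {Q a : α → ℕ} {σ : α → List ℕ} (hQ : Poly Q) (hσ : Poly σ) (ha : Poly a)
    (hQ0 : ∀ x, Q x ≠ 0) : Poly (fun x => hor (Q x) (σ x) (a x)) := by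
  obtain ⟨q, hq⟩ := hQ.sz_le
  refine NPC.Poly.foldr (F := fun x c acc => (c + a x * acc) % Q x) hσ (NPC.Poly.const 0) ?_
    (2 * q + Polynomial.C 10) ?_
  · exact NPC.Poly.mod (NPC.Poly.add (NPC.Poly.fst (NPC.Poly.snd NPC.Poly.id))
      (NPC.Poly.mul (ha.comp (NPC.Poly.fst NPC.Poly.id))
        (NPC.Poly.snd (NPC.Poly.snd NPC.Poly.id)))) (hQ.comp (NPC.Poly.fst NPC.Poly.id))
  · intro x k _
    have h1 : ((σ x).drop k).foldr (fun c acc => (c + a x * acc) % Q x) 0 ≤ Q x := by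
      cases (σ x).drop k with
      | nil => simp
      | cons c l =>
        rw [List.foldr_cons]
        exact (Nat.mod_lt _ (Nat.pos_of_ne_zero (hQ0 x))).le
    have h2 := sz_nat_mono_le h1
    have h3 := hq x
    simp only [Polynomial.eval_add, Polynomial.eval_mul, Polynomial.eval_C, Polynomial.eval_ofNat]
    omega

theorem adjB_poly {E : α → List (ℕ × ℕ)} {u v : α → ℕ} (hE : Poly E) (hu : Poly u) (hv : Poly v) :
    Poly (fun a => adjB (E a) (u a) (v a)) :=
  (NPC.Poly.or (NPC.Poly.decide_mem (NPC.Poly.pair hu hv) hE)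
    (NPC.Poly.decide_mem (NPC.Poly.pair hv hu) hE)).congr fun a => by
      unfold adjB
      congr 1 <;> exact decide_eq_decide.2 Iff.rfl

theorem hB_poly {E : α → List (ℕ × ℕ)} {N m Q T s t : α → ℕ} {σ : α → List ℕ} (hE : Poly E)
    (hN : Poly N) (hm : Poly m) (hQ : Poly Q) (hQ0 : ∀ x, Q x ≠ 0) (hT : Poly T) (hσ : Poly σ)
    (hs : Poly s) (ht : Poly t) :
    Poly (fun a => hB (E a) (N a) (m a) (Q a) (T a) (σ a) (s a) (t a)) :=
  NPC.Poly.and (adjB_poly hE (NPC.Poly.div hs hN) (NPC.Poly.div ht hN))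
    (NPC.Poly.decide_lt (hor_poly hQ hσ (NPC.Poly.add (NPC.Poly.mul (nmin hs ht) hm) (nmax hs ht))
      hQ0) hT)

/-- A family of relations that can be tested in polynomial time. -/
def HPoly (h : α → ℕ → ℕ → Bool) : Prop := Poly (fun p : α × ℕ × ℕ => h p.1 p.2.1 p.2.2)

theorem HPoly.app {β : Type} [TEnc β] {h : α → ℕ → ℕ → Bool} (hh : HPoly h) {f : β → α}
    {s t : β → ℕ} (hf : Poly f) (hs : Poly s) (ht : Poly t) :
    Poly (fun b => h (f b) (s b) (t b)) :=
  NPC.Poly.comp (g := fun p : α × ℕ × ℕ => h p.1 p.2.1 p.2.2) hh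
    (NPC.Poly.pair hf (NPC.Poly.pair hs ht))

theorem cycB_poly {h : α → ℕ → ℕ → Bool} {m s : α → ℕ} (hh : HPoly h) (hm : UPoly m) (hs : Poly s)
    (k : ℕ) : Poly (fun a => cycB (h a) k (m a) (s a)) := by
  unfold cycB
  have ht : Poly (fun a => tup k (List.range (m a))) := tup_poly hm.range k
  refine NPC.Poly.any (l := fun a => tup k (List.range (m a)))
    (p := fun a t => decide (s a ∈ t) &&
    ((List.range k).all fun i => (List.range k).all fun j =>
      decide (i = j) || !(decide (t.getD i 0 = t.getD j 0))) &&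
    (List.range k).all fun i => h a (t.getD i 0) (t.getD ((i + 1) % k) 0)) ht ?_
  refine NPC.Poly.and (NPC.Poly.and ?_ ?_) ?_
  · exact NPC.Poly.decide_mem (hs.comp (NPC.Poly.fst NPC.Poly.id)) (NPC.Poly.snd NPC.Poly.id)
  · refine NPC.Poly.all (p := fun (x : α × List ℕ) i => (List.range k).all fun j =>
      decide (i = j) || !(decide (x.2.getD i 0 = x.2.getD j 0))) (NPC.Poly.const _) ?_
    refine NPC.Poly.all (p := fun (x : (α × List ℕ) × ℕ) j =>
      decide (x.2 = j) || !(decide (x.1.2.getD x.2 0 = x.1.2.getD j 0))) (NPC.Poly.const _) ?_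
    have e1 : Poly (fun x : ((α × List ℕ) × ℕ) × ℕ => x.1.2) :=
      NPC.Poly.snd (NPC.Poly.fst NPC.Poly.id)
    have e2 : Poly (fun x : ((α × List ℕ) × ℕ) × ℕ => x.2) := NPC.Poly.snd NPC.Poly.id
    have e3 : Poly (fun x : ((α × List ℕ) × ℕ) × ℕ => x.1.1.2) :=
      NPC.Poly.snd (NPC.Poly.fst (NPC.Poly.fst NPC.Poly.id))
    exact NPC.Poly.or (NPC.Poly.decide_eq e1 e2) (NPC.Poly.not (NPC.Poly.decide_eq
      (NPC.Poly.getD e3 e1 (NPC.Poly.const 0)) (NPC.Poly.getD e3 e2 (NPC.Poly.const 0))))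
  · refine NPC.Poly.all (p := fun (x : α × List ℕ) i => h x.1 (x.2.getD i 0)
      (x.2.getD ((i + 1) % k) 0)) (NPC.Poly.const _) ?_
    have e2 : Poly (fun x : (α × List ℕ) × ℕ => x.2) := NPC.Poly.snd NPC.Poly.id
    have e3 : Poly (fun x : (α × List ℕ) × ℕ => x.1.2) := NPC.Poly.snd (NPC.Poly.fst NPC.Poly.id)
    exact hh.app (NPC.Poly.fst (NPC.Poly.fst NPC.Poly.id))
      (NPC.Poly.getD e3 e2 (NPC.Poly.const 0))
      (NPC.Poly.getD e3 (NPC.Poly.mod (NPC.Poly.succ e2) (NPC.Poly.const k)) (NPC.Poly.const 0))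

theorem shortB_poly {h : α → ℕ → ℕ → Bool} {m s : α → ℕ} (hh : HPoly h) (hm : UPoly m)
    (hs : Poly s) : ∀ g : ℕ, Poly (fun a => shortB (h a) (m a) g (s a))
  | 0 => NPC.Poly.const false
  | g + 1 => NPC.Poly.or (shortB_poly hh hm hs g)
      (NPC.Poly.and (NPC.Poly.const _) (cycB_poly hh hm hs (g + 1)))

theorem HPoly.fst {β : Type} [TEnc β] {h : α → ℕ → ℕ → Bool} (hh : HPoly h) :
    HPoly (fun p : α × β => h p.1) :=
  hh.app (NPC.Poly.fst (NPC.Poly.fst NPC.Poly.id)) (NPC.Poly.fst (NPC.Poly.snd NPC.Poly.id))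
    (NPC.Poly.snd (NPC.Poly.snd NPC.Poly.id))

theorem degB_poly {h : α → ℕ → ℕ → Bool} {m Δ s : α → ℕ} (hh : HPoly h) (hm : UPoly m)
    (hΔ : Poly Δ) (hs : Poly s) : Poly (fun a => degB (h a) (m a) (Δ a) (s a)) := by
  refine NPC.Poly.decide_lt hΔ (NPC.Poly.length (NPC.Poly.filter (p := fun a t => h a (s a) t)
    hm.range ?_))
  exact hh.app (NPC.Poly.fst NPC.Poly.id) (hs.comp (NPC.Poly.fst NPC.Poly.id))
    (NPC.Poly.snd NPC.Poly.id)

theorem badL_poly {h : α → ℕ → ℕ → Bool} {m Δ : α → ℕ} (hh : HPoly h) (hm : UPoly m)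
    (hΔ : Poly Δ) (g : ℕ) : Poly (fun a => badL (h a) (m a) g (Δ a)) := by
  refine NPC.Poly.filter (p := fun a s => shortB (h a) (m a) g s || degB (h a) (m a) (Δ a) s)
    hm.range ?_
  exact NPC.Poly.or (shortB_poly (h := fun p : α × ℕ => h p.1) hh.fst
      (hm.comp (NPC.Poly.fst NPC.Poly.id)) (NPC.Poly.snd NPC.Poly.id) g)
    (degB_poly (h := fun p : α × ℕ => h p.1) hh.fst (hm.comp (NPC.Poly.fst NPC.Poly.id))
      (hΔ.comp (NPC.Poly.fst NPC.Poly.id)) (NPC.Poly.snd NPC.Poly.id))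

theorem eL_poly {h : α → ℕ → ℕ → Bool} {m : α → ℕ} {bad : α → List ℕ} (hh : HPoly h)
    (hm : UPoly m) (hb : Poly bad) : Poly (fun a => eL (h a) (m a) (bad a)) := by
  refine NPC.Poly.filter (p := fun a (e : ℕ × ℕ) => decide (e.1 < e.2) && h a e.1 e.2 &&
    !(decide (e.1 ∈ bad a)) && !(decide (e.2 ∈ bad a))) ?_ ?_
  · refine NPC.Poly.flatMap (F := fun a s => (List.range (m a)).map fun t => (s, t)) hm.range ?_
    exact NPC.Poly.map (F := fun (p : α × ℕ) t => (p.2, t))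
      (hm.range.comp (NPC.Poly.fst NPC.Poly.id))
      (NPC.Poly.pair (NPC.Poly.snd (NPC.Poly.fst NPC.Poly.id)) (NPC.Poly.snd NPC.Poly.id))
  · have e1 : Poly (fun x : α × (ℕ × ℕ) => x.2.1) := NPC.Poly.fst (NPC.Poly.snd NPC.Poly.id)
    have e2 : Poly (fun x : α × (ℕ × ℕ) => x.2.2) := NPC.Poly.snd (NPC.Poly.snd NPC.Poly.id)
    have hb' := hb.comp (NPC.Poly.fst (NPC.Poly.id (α := α × (ℕ × ℕ))))
    exact NPC.Poly.and (NPC.Poly.and (NPC.Poly.and (NPC.Poly.decide_lt e1 e2)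
      (hh.app (NPC.Poly.fst NPC.Poly.id) e1 e2)) (NPC.Poly.not (NPC.Poly.decide_mem e1 hb')))
      (NPC.Poly.not (NPC.Poly.decide_mem e2 hb'))

theorem inst_poly {h : α → ℕ → ℕ → Bool} {m : α → ℕ} {bad : α → List ℕ} (hh : HPoly h)
    (hm : UPoly m) (hb : Poly bad) : Poly (fun a => inst (h a) (m a) (bad a)) :=
  NPC.Poly.pair (NPC.Poly.map (F := fun _ _ => (1 : ℚ)) hm.range (NPC.Poly.const 1))
    (eL_poly hh hm hb)

theorem back_poly {n N N₀ : α → ℕ} {C : α → List ℕ} (hn : UPoly n) (hN : UPoly N) (hN₀ : Poly N₀)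
    (hC : Poly C) : Poly (fun a => back (n a) (N a) (N₀ a) (C a)) := by
  refine NPC.Poly.filter (p := fun a v => decide (((List.range (N a)).filter fun x =>
    !(decide (v * N a + x ∈ C a))).length < 2 * N₀ a)) hn.range ?_
  refine NPC.Poly.decide_lt (NPC.Poly.length (NPC.Poly.filter
    (p := fun (p : α × ℕ) x => !(decide (p.2 * N p.1 + x ∈ C p.1)))
    (hN.range.comp (NPC.Poly.fst NPC.Poly.id)) ?_))
    (NPC.Poly.mul (NPC.Poly.const 2) (hN₀.comp (NPC.Poly.fst NPC.Poly.id)))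
  have f1 := NPC.Poly.fst (NPC.Poly.fst (NPC.Poly.id (α := (α × ℕ) × ℕ)))
  exact NPC.Poly.not (NPC.Poly.decide_mem (NPC.Poly.add (NPC.Poly.mul
    (NPC.Poly.snd (NPC.Poly.fst NPC.Poly.id)) (hN.toPoly.comp f1)) (NPC.Poly.snd NPC.Poly.id))
    (hC.comp f1))

theorem okB_poly {E : α → List (ℕ × ℕ)} {C : α → List ℕ} (hE : Poly E) (hC : Poly C) :
    Poly (fun a => okB (E a) (C a)) := by
  refine NPC.Poly.all (p := fun a (e : ℕ × ℕ) => decide (e.1 ∈ C a) || decide (e.2 ∈ C a)) hE ?_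
  have hC' := hC.comp (NPC.Poly.fst (NPC.Poly.id (α := α × (ℕ × ℕ))))
  exact NPC.Poly.or (NPC.Poly.decide_mem (NPC.Poly.fst (NPC.Poly.snd NPC.Poly.id)) hC')
    (NPC.Poly.decide_mem (NPC.Poly.snd (NPC.Poly.snd NPC.Poly.id)) hC')

theorem pick_poly {L : α → List (List ℕ)} (hL : Poly L) : Poly (fun a => pick (L a)) := by
  have h1 : Poly (fun a => ((L a).filter fun c =>
      (L a).all fun c' => decide (c.length ≤ c'.length)).head?) := by
    refine NPC.Poly.head? (NPC.Poly.filter (p := fun a c =>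
      (L a).all fun c' => decide (c.length ≤ c'.length)) hL ?_)
    refine NPC.Poly.all (p := fun (x : α × List ℕ) c' => decide (x.2.length ≤ c'.length))
      (hL.comp (NPC.Poly.fst NPC.Poly.id)) ?_
    exact NPC.Poly.decide_le (NPC.Poly.length (NPC.Poly.snd (NPC.Poly.fst NPC.Poly.id)))
      (NPC.Poly.length (NPC.Poly.snd NPC.Poly.id))
  refine (NPC.Poly.optCases (h := fun _ b => b) h1 (NPC.Poly.const ([] : List ℕ))
    (NPC.Poly.snd NPC.Poly.id)).congr fun a => ?_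
  unfold pick
  cases ((L a).filter fun c => (L a).all fun c' => decide (c.length ≤ c'.length)).head? <;> rfl

theorem isP_poly {p : α → ℕ} (hp : UPoly p) : Poly (fun a => isP (p a)) := by
  refine NPC.Poly.and (NPC.Poly.decide_le (NPC.Poly.const 2) hp.toPoly) (NPC.Poly.all
    (p := fun a d => decide (d < 2) || !(decide (p a % d = 0))) hp.range ?_)
  exact NPC.Poly.or (NPC.Poly.decide_lt (NPC.Poly.snd NPC.Poly.id) (NPC.Poly.const 2))
    (NPC.Poly.not (NPC.Poly.decide_eq (NPC.Poly.mod (hp.toPoly.comp (NPC.Poly.fst NPC.Poly.id))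
      (NPC.Poly.snd NPC.Poly.id)) (NPC.Poly.const 0)))

theorem prm_upoly {M : α → ℕ} (hM : UPoly M) : UPoly (fun a => prm (M a)) := by
  have hb : UPoly (fun a => 2 * M a + 2) :=
    UPoly.add (UPoly.mul (UPoly.const 2) hM) (UPoly.const 2)
  have h0 : Poly (fun a => (((List.range (2 * M a + 1)).filter fun p =>
      decide (M a < p) && isP p).head?)) := by
    refine NPC.Poly.head? ?_
    have h1 : Poly (fun a => (List.range (2 * M a + 1)).filter fun p =>
        decide (M a < p) && isP (min p (2 * M a + 2))) := by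
      refine NPC.Poly.filter (p := fun a p => decide (M a < p) && isP (min p (2 * M a + 2)))
        (UPoly.add (UPoly.mul (UPoly.const 2) hM) (UPoly.const 1)).range ?_
      refine NPC.Poly.and (NPC.Poly.decide_lt (hM.toPoly.comp (NPC.Poly.fst NPC.Poly.id))
        (NPC.Poly.snd NPC.Poly.id)) (isP_poly ?_)
      refine UPoly.of_le (nmin (NPC.Poly.snd NPC.Poly.id)
        (hb.toPoly.comp (NPC.Poly.fst NPC.Poly.id)))
        (hb.comp (NPC.Poly.fst NPC.Poly.id)) fun x => min_le_right _ _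
    refine h1.congr fun a => ?_
    refine List.filter_congr fun p hp => ?_
    rw [List.mem_range] at hp
    rw [min_eq_left (by omega)]
  have h2 : Poly (fun a => prm (M a)) := by
    refine (NPC.Poly.optCases (h := fun _ b => b) h0 (NPC.Poly.const 2)
      (NPC.Poly.snd NPC.Poly.id)).congr fun a => ?_
    unfold prm
    cases (((List.range (2 * M a + 1)).filter fun p => decide (M a < p) && isP p).head?) <;> rfl
  exact UPoly.of_le h2 hb fun a => prm_le _

variable {n : α → ℕ} (hn : UPoly n) (g κ K : ℕ)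

include hn

theorem D0_upoly : UPoly (fun a => D0 g κ K (n a)) :=
  upow (UPoly.mul (UPoly.const _) hn) 3

theorem N0_upoly : UPoly (fun a => N0 g κ K (n a)) :=
  UPoly.mul (UPoly.const _) (upow (UPoly.mul (UPoly.mul hn (UPoly.const _))
    (D0_upoly hn g κ K)) g)

theorem NN_upoly : UPoly (fun a => NN g κ K (n a)) :=
  UPoly.mul (UPoly.const _) (N0_upoly hn g κ K)

theorem mm_upoly : UPoly (fun a => mm g κ K (n a)) := UPoly.mul hn (NN_upoly hn g κ K)

theorem QQ_upoly : UPoly (fun a => QQ g κ K (n a)) :=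
  prm_upoly (UPoly.mul (mm_upoly hn g κ K) (mm_upoly hn g κ K))

theorem TT_poly : Poly (fun a => TT g κ K (n a)) :=
  NPC.Poly.div (NPC.Poly.mul (D0_upoly hn g κ K).toPoly (QQ_upoly hn g κ K).toPoly)
    (N0_upoly hn g κ K).toPoly

theorem Dl_poly : Poly (fun a => Dl g κ K (n a)) :=
  (UPoly.mul (UPoly.mul (UPoly.const 4) (upow (UPoly.mul hn (UPoly.const K)) 2))
    (D0_upoly hn g κ K)).toPoly

end

theorem prm_ne_zero (M : ℕ) : prm M ≠ 0 := by
  by_cases h : M = 0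
  · subst h; decide
  · exact (prm_spec M h).1.ne_zero

theorem alg_poly {A : Inst → List ℕ} (hA : Poly A) (g κ K : ℕ) : Poly (alg A g κ K) := by
  have hn : UPoly (fun I : Inst => I.1.length) := UPoly.length (NPC.Poly.fst NPC.Poly.id)
  have hcand : Poly (fun p : Inst × List ℕ => cand A g κ K p.1 p.2) := by
    have hn' : UPoly (fun p : Inst × List ℕ => p.1.1.length) :=
      hn.comp (NPC.Poly.fst NPC.Poly.id)
    have hh : HPoly (fun p : Inst × List ℕ => hB p.1.2 (NN g κ K p.1.1.length)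
        (mm g κ K p.1.1.length) (QQ g κ K p.1.1.length) (TT g κ K p.1.1.length) p.2) := by
      have hn'' : UPoly (fun p : (Inst × List ℕ) × ℕ × ℕ => p.1.1.1.length) :=
        hn'.comp (NPC.Poly.fst NPC.Poly.id)
      exact hB_poly (NPC.Poly.snd (NPC.Poly.fst (NPC.Poly.fst NPC.Poly.id)))
        (NN_upoly hn'' g κ K).toPoly (mm_upoly hn'' g κ K).toPoly (QQ_upoly hn'' g κ K).toPoly
        (fun x => prm_ne_zero _) (TT_poly hn'' g κ K) (NPC.Poly.snd (NPC.Poly.fst NPC.Poly.id))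
        (NPC.Poly.fst (NPC.Poly.snd NPC.Poly.id)) (NPC.Poly.snd (NPC.Poly.snd NPC.Poly.id))
    exact back_poly hn' (NN_upoly hn' g κ K) (N0_upoly hn' g κ K).toPoly
      (hA.comp (inst_poly hh (mm_upoly hn' g κ K)
        (badL_poly hh (mm_upoly hn' g κ K) (Dl_poly hn' g κ K) g)))
  refine pick_poly (NPC.Poly.cons hn.range (NPC.Poly.filter (p := fun I C => okB I.2 C)
    (NPC.Poly.map (F := fun I σ => cand A g κ K I σ)
      (tup_poly (QQ_upoly hn g κ K).range (2 * 2 ^ κ)) hcand) ?_))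
  exact okB_poly (NPC.Poly.snd (NPC.Poly.fst NPC.Poly.id)) (NPC.Poly.snd NPC.Poly.id)

/-- From sparse graphs of large girth to all graphs, for unit weights. -/
theorem unit_of_sparse (g₀ : ℕ) {ε c c' : ℝ} (hε : 0 < ε) (hcc : c < c')
    (h : Approx (fun I => UnitW I ∧ Sparse g₀ ε I) c) : Approx UnitW c' := by
  obtain ⟨A, hA, hA'⟩ := h
  obtain ⟨g₁, hg₁⟩ := exists_nat_gt (3 / ε)
  set g := max (max g₀ g₁) 1 with hg
  have hg1 : 1 ≤ g := le_max_right _ _
  have hg0 : g₀ ≤ g := (le_max_left _ _).trans (le_max_left _ _)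
  have hgε : 3 ≤ (g : ℝ) * ε := by
    have h1 : (g₁ : ℝ) ≤ g := by exact_mod_cast (le_max_right g₀ g₁).trans (le_max_left _ _)
    rw [div_lt_iff₀ hε] at hg₁
    nlinarith
  have hκ : 2 * g + 1 ≤ 2 ^ (2 * g + 1) := Nat.lt_two_pow_self.le
  obtain ⟨K₁, hK₁⟩ := exists_nat_gt (2 * c' / (c' - c))
  set K := max K₁ 3 with hK
  have hK3 : 3 ≤ K := le_max_right _ _
  have hKc : c * K ≤ c' * (K - 2) := by
    have h1 : (K₁ : ℝ) ≤ K := by exact_mod_cast le_max_left K₁ 3
    have h2 : 0 < c' - c := by linarith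
    rw [div_lt_iff₀ h2] at hK₁
    nlinarith
  refine ⟨alg A g (2 * g + 1) K, PTime.of_poly (alg_poly hA.toPoly g (2 * g + 1) K),
    fun I hI hU => ?_⟩
  obtain ⟨h1, h2⟩ := alg_correct (ε := ε) (c := c) hg1 hg0 hε hgε hκ hK3 A hA' I hI hU
  refine ⟨h1, fun D hD => ?_⟩
  have h3 := h2 D hD
  have hK2 : (0 : ℝ) < (K : ℝ) - 2 := by
    have : (3 : ℝ) ≤ K := by exact_mod_cast hK3
    linarith
  have h4 : (0 : ℝ) ≤ (cost I D : ℝ) := by
    rw [cost_unit hU]
    positivity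
  have h5 : (cost I (alg A g (2 * g + 1) K I) : ℝ) * (K - 2) ≤ (c' * (cost I D : ℝ)) * (K - 2) := by
    refine h3.trans ?_
    nlinarith [mul_le_mul_of_nonneg_right hKc h4]
  exact le_of_mul_le_mul_right h5 hK2

end Pool.Agent.K9h49.VC
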