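import Pool.Agent.K9h49.VC.Alg

/-!
# The reduction to sparse graphs of large girth: correctness
-/

namespace Pool.Agent.K9h49.VC

open Pool.Agent.NPC

/-- The number of elements of `C` below `n`. -/
def cnt (n : ℕ) (C : List ℕ) : ℕ := ∑ v ∈ Finset.range n, if v ∈ C then 1 else 0

theorem cost_unit {I : Inst} (hI : UnitW I) (C : List ℕ) : cost I C = cnt I.1.length C := by
  unfold cost cnt
  rw [Nat.cast_sum, ← Fin.sum_univ_eq_sum_range (fun v => ((if v ∈ C then 1 else 0 : ℕ) : ℚ))]
  refine Finset.sum_congr rfl fun v _ => ?_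
  rw [hI _ (List.get_mem _ _)]
  split_ifs <;> simp

theorem sum_blocks (f : ℕ → ℕ) (N : ℕ) : ∀ n, ∑ s ∈ Finset.range (n * N), f s =
    ∑ v ∈ Finset.range n, ∑ x ∈ Finset.range N, f (v * N + x)
  | 0 => by simp
  | n + 1 => by
    rw [Finset.sum_range_succ, add_mul, one_mul, Finset.sum_range_add, sum_blocks f N n]

theorem isCover_iff {I : Inst} (hI : WF I) (C : List ℕ) : IsCover I C ↔ okB I.2 C = true := by
  unfold okB IsCover gr
  rw [List.all_eq_true]
  constructor
  · intro h e he
    obtain ⟨h1, h2⟩ := hI.edge e he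
    have := h ⟨e.1, by omega⟩ ⟨e.2, h2⟩ (by
      rw [SimpleGraph.fromRel_adj]
      refine ⟨fun h3 => ?_, Or.inl he⟩
      have := congrArg Fin.val h3
      simp only at this
      omega)
    simpa using this
  · intro h u v huv
    rw [SimpleGraph.fromRel_adj] at huv
    obtain ⟨_, h1 | h1⟩ := huv
    · simpa using h _ h1
    · have := h _ h1
      rw [or_comm]
      simpa using this

theorem hB_symm (E : List (ℕ × ℕ)) (N m Q T : ℕ) (σ : List ℕ) (s t : ℕ) :
    hB E N m Q T σ s t = hB E N m Q T σ t s := by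
  unfold hB adjB
  rw [min_comm, max_comm, Bool.or_comm]

section

variable {h : ℕ → ℕ → Bool} {m : ℕ} {bad : List ℕ}

theorem inst_length : (inst h m bad).1.length = m := by simp [inst]

theorem inst_unit : UnitW (inst h m bad) := by
  intro w hw
  simp only [inst, List.mem_map] at hw
  obtain ⟨_, _, rfl⟩ := hw
  rfl

theorem inst_wf : WF (inst h m bad) := by
  refine ⟨fun w hw => ?_, fun e he => ?_, ?_⟩
  · rw [inst_unit w hw]; norm_num
  · obtain ⟨h1, h2, _⟩ := mem_eL.1 (show (e.1, e.2) ∈ eL h m bad from he)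
    rw [inst_length]
    exact ⟨h1, h2⟩
  · have : (List.range m ×ˢ List.range m).Nodup := List.nodup_range.product List.nodup_range
    exact this.filter _

theorem inst_adj (hs : ∀ s t, h s t = h t s) (s t : Fin (inst h m bad).1.length) :
    (gr (inst h m bad)).Adj s t ↔ s ≠ t ∧ h s.1 t.1 = true ∧ s.1 ∉ bad ∧ t.1 ∉ bad := by
  unfold gr
  rw [SimpleGraph.fromRel_adj]
  refine and_congr_right fun hne => ?_
  have hs' : s.1 < m := lt_of_lt_of_eq s.2 inst_length
  have ht' : t.1 < m := lt_of_lt_of_eq t.2 inst_length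
  have hne' : s.1 ≠ t.1 := fun h => hne (Fin.ext h)
  have e1 : (s.1, t.1) ∈ (inst h m bad).2 ↔ _ := mem_eL
  have e2 : (t.1, s.1) ∈ (inst h m bad).2 ↔ _ := mem_eL
  rw [e1, e2]
  constructor
  · rintro (⟨_, _, h3, h4, h5⟩ | ⟨_, _, h3, h4, h5⟩)
    · exact ⟨h3, h4, h5⟩
    · exact ⟨by rw [hs]; exact h3, h5, h4⟩
  · rintro ⟨h3, h4, h5⟩
    rcases Nat.lt_or_gt_of_ne hne' with h6 | h6
    · exact Or.inl ⟨h6, ht', h3, h4, h5⟩
    · exact Or.inr ⟨h6, hs', by rw [hs]; exact h3, h5, h4⟩

end

theorem inst_sparse {h : ℕ → ℕ → Bool} {m g Δ : ℕ} (hs : ∀ s t, h s t = h t s) (ε : ℝ)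
    (hΔ : (Δ : ℝ) ≤ (m : ℝ) ^ ε) : Sparse g ε (inst h m (badL h m g Δ)) := by
  refine ⟨fun v p hp => ?_, fun v => ?_⟩
  · by_contra hlen
    have hlen' : p.length ≤ g := by omega
    have h3 := hp.three_le_length
    set k := p.length with hk
    have hm := inst_length (h := h) (m := m) (bad := badL h m g Δ)
    have hcyc : cycB h k m v.1 = true := by
      rw [cycB_iff]
      have hget : ∀ i < k, ((List.range k).map fun i => (p.getVert i).1).getD i 0 =
          (p.getVert i).1 := by
        intro i hi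
        rw [List.getD_eq_getElem _ _ (by simpa using hi)]
        simp
      refine ⟨(List.range k).map fun i => (p.getVert i).1, by simp, ?_, ?_, ?_, ?_⟩
      · intro x hx
        obtain ⟨i, _, rfl⟩ := List.mem_map.1 hx
        exact lt_of_lt_of_eq (p.getVert i).2 hm
      · refine List.mem_map.2 ⟨0, List.mem_range.2 (by omega), ?_⟩
        rw [p.getVert_zero]
      · intro i hi j hj hij
        rw [hget i hi, hget j hj] at hij
        exact hp.getVert_injOn' (show i ≤ p.length - 1 by omega) (show j ≤ p.length - 1 by omega)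
          (Fin.ext hij)
      · intro i hi
        rw [hget i hi, hget _ (Nat.mod_lt _ (by omega))]
        have hadj := p.adj_getVert_succ (i := i) (by omega)
        have h4 := ((inst_adj hs _ _).1 hadj).2.1
        by_cases hi' : i + 1 < k
        · rw [Nat.mod_eq_of_lt hi']
          exact h4
        · have : i + 1 = k := by omega
          rw [this, Nat.mod_self, p.getVert_zero]
          rw [this, hk, p.getVert_length] at h4
          exact h4
    have hbad : v.1 ∈ badL h m g Δ :=
      mem_badL.2 ⟨lt_of_lt_of_eq v.2 hm, Or.inl (shortB_iff.2 ⟨k, h3, hlen', hcyc⟩)⟩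
    have hadj := p.adj_getVert_succ (i := 0) (by omega)
    have h5 := ((inst_adj hs _ _).1 hadj).2.2.1
    rw [p.getVert_zero] at h5
    exact h5 hbad
  · have eL : (((inst h m (badL h m g Δ)).1.length : ℕ) : ℝ) = (m : ℝ) :=
      congrArg _ inst_length
    rw [eL]
    by_cases hv : v.1 ∈ badL h m g Δ
    · have : (gr (inst h m (badL h m g Δ))).neighborSet v = ∅ := by
        ext t
        simp only [SimpleGraph.mem_neighborSet, Set.mem_empty_iff_false, iff_false]
        intro h1
        exact ((inst_adj hs _ _).1 h1).2.2.1 hv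
      rw [this]
      simp only [Set.ncard_empty, Nat.cast_zero]
      positivity
    · have hdeg : degB h m Δ v.1 = false := by
        by_contra h1
        rw [Bool.not_eq_false] at h1
        exact hv (mem_badL.2 ⟨lt_of_lt_of_eq v.2 inst_length, Or.inr h1⟩)
      unfold degB at hdeg
      rw [decide_eq_false_iff_not, not_lt] at hdeg
      refine le_trans ?_ hΔ
      norm_cast
      refine le_trans ?_ hdeg
      have h1 : ((gr (inst h m (badL h m g Δ))).neighborSet v).ncard ≤
          (((List.range m).filter fun t => h v.1 t).toFinset : Set ℕ).ncard := by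
        refine Set.ncard_le_ncard_of_injOn Fin.val ?_ (fun a _ b _ hab => Fin.ext hab)
        intro t ht
        have h2 := (inst_adj hs _ _).1 ht
        rw [Finset.mem_coe, List.mem_toFinset, List.mem_filter, List.mem_range]
        exact ⟨lt_of_lt_of_eq t.2 inst_length, h2.2.1⟩
      refine h1.trans ?_
      rw [Set.ncard_coe_finset, List.toFinset_card_of_nodup (List.nodup_range.filter _)]

theorem Dl_le {g κ K n : ℕ} (hg : 1 ≤ g) (hK : 1 ≤ K) (hn : 1 ≤ n) {ε : ℝ} (hε : 0 < ε)
    (hgε : 3 ≤ (g : ℝ) * ε) : (Dl g κ K n : ℝ) ≤ (mm g κ K n : ℝ) ^ ε := by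
  have hD : (16 : ℝ) ≤ D0 g κ K n := by exact_mod_cast (D0_ge (κ := κ) hg hK hn).2
  have hn' : (1 : ℝ) ≤ n := by exact_mod_cast hn
  have hK' : (1 : ℝ) ≤ K := by exact_mod_cast hK
  set b : ℝ := n * K * D0 g κ K n with hb
  have hb1 : 1 ≤ b := by
    have : (1 : ℝ) ≤ n * K := by nlinarith
    nlinarith
  have h1 : b ^ g ≤ (mm g κ K n : ℝ) := by
    have h2 : (n * K * D0 g κ K n) ^ g ≤ mm g κ K n := by
      refine le_trans ?_ (N0_le_mm hK hn)
      unfold N0
      exact Nat.le_mul_of_pos_left _ (by positivity)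
    rw [hb]
    exact_mod_cast h2
  have h2 : (Dl g κ K n : ℝ) ≤ b ^ 3 := by
    unfold Dl
    push_cast
    have e : b ^ 3 = (n * K) ^ 2 * D0 g κ K n * (n * K * (D0 g κ K n : ℝ) ^ 2) := by
      rw [hb]; ring
    rw [e]
    have h3 : (4 : ℝ) ≤ n * K * (D0 g κ K n : ℝ) ^ 2 := by
      have : (1 : ℝ) ≤ n * K := by nlinarith
      nlinarith
    have h4 : (0 : ℝ) ≤ (n * K) ^ 2 * D0 g κ K n := by positivity
    nlinarith
  calc (Dl g κ K n : ℝ) ≤ b ^ 3 := h2
    _ = b ^ (3 : ℝ) := by norm_cast
    _ ≤ b ^ ((g : ℝ) * ε) := Real.rpow_le_rpow_of_exponent_le hb1 hgε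
    _ = (b ^ g) ^ ε := by rw [Real.rpow_mul (by linarith), Real.rpow_natCast]
    _ ≤ (mm g κ K n : ℝ) ^ ε := Real.rpow_le_rpow (by positivity) h1 hε.le

theorem sparse_mono {g g' : ℕ} (hg : g ≤ g') {ε : ℝ} {I : Inst} (h : Sparse g' ε I) :
    Sparse g ε I :=
  ⟨fun v p hp => lt_of_le_of_lt hg (h.1 v p hp), h.2⟩

/-- Lifting a cover. -/
theorem lift_cover {I : Inst} (hI : WF I) {D : List ℕ} (hD : IsCover I D) (n N m Q T : ℕ)
    (hm : m = n * N) (σ bad : List ℕ) :
    IsCover (inst (hB I.2 N m Q T σ) m bad) ((List.range m).filter fun s => decide (s / N ∈ D)) ∧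
      cnt m ((List.range m).filter fun s => decide (s / N ∈ D)) = N * cnt n D := by
  constructor
  · intro s t hst
    rw [inst_adj (hB_symm _ _ _ _ _ _)] at hst
    obtain ⟨_, h1, _, _⟩ := hst
    have hs : s.1 < m := lt_of_lt_of_eq s.2 inst_length
    have ht : t.1 < m := lt_of_lt_of_eq t.2 inst_length
    unfold hB adjB at h1
    rw [Bool.and_eq_true, Bool.or_eq_true, decide_eq_true_iff, decide_eq_true_iff] at h1
    have h2 : s.1 / N ∈ D ∨ t.1 / N ∈ D := by
      have hD' := (isCover_iff hI D).1 hD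
      unfold okB at hD'
      rw [List.all_eq_true] at hD'
      rcases h1.1 with h3 | h3
      · simpa using hD' _ h3
      · rw [or_comm]
        simpa using hD' _ h3
    simp only [List.mem_filter, List.mem_range, decide_eq_true_eq]
    exact h2.imp (fun h => ⟨hs, h⟩) fun h => ⟨ht, h⟩
  · unfold cnt
    have e1 : ∑ v ∈ Finset.range m, (if v ∈ (List.range m).filter fun s => decide (s / N ∈ D)
        then 1 else 0) = ∑ v ∈ Finset.range (n * N), if v / N ∈ D then 1 else 0 := by
      rw [← hm]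
      refine Finset.sum_congr rfl fun v hv => ?_
      simp only [List.mem_filter, List.mem_range, decide_eq_true_eq, Finset.mem_range.1 hv,
        true_and]
    rw [e1, sum_blocks, Finset.mul_sum]
    refine Finset.sum_congr rfl fun v _ => ?_
    have e2 : ∀ x ∈ Finset.range N, (if (v * N + x) / N ∈ D then 1 else 0) =
        if v ∈ D then 1 else 0 := by
      intro x hx
      have hx' := Finset.mem_range.1 hx
      have : (v * N + x) / N = v := by
        rw [mul_comm, Nat.mul_add_div (by omega), Nat.div_eq_of_lt hx', add_zero]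
      rw [this]
    rw [Finset.sum_congr rfl e2, Finset.sum_const, Finset.card_range, smul_eq_mul]

theorem back_cost (n N N₀ : ℕ) (C : List ℕ) :
    (back n N N₀ C).length * (N - 2 * N₀) ≤ cnt (n * N) C := by
  unfold cnt
  rw [sum_blocks]
  have h1 : ∀ v ∈ Finset.range n, (if v ∈ back n N N₀ C then N - 2 * N₀ else 0) ≤
      ∑ x ∈ Finset.range N, if v * N + x ∈ C then 1 else 0 := by
    intro v hv
    split_ifs with h
    · unfold back at h
      rw [List.mem_filter, decide_eq_true_iff] at h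
      have h2 := h.2
      have e1 : ((List.range N).filter fun x => !(decide (v * N + x ∈ C))).length =
          ∑ x ∈ Finset.range N, if v * N + x ∈ C then 0 else 1 := by
        rw [← List.toFinset_card_of_nodup (List.nodup_range.filter _), Finset.card_eq_sum_ones]
        have e2 : ((List.range N).filter fun x => !(decide (v * N + x ∈ C))).toFinset =
            (Finset.range N).filter fun x => ¬ (v * N + x ∈ C) := by
          ext x
          simp
        rw [e2, Finset.sum_filter]
        refine Finset.sum_congr rfl fun x _ => ?_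
        by_cases hx : v * N + x ∈ C <;> simp [hx]
      have e3 : (∑ x ∈ Finset.range N, if v * N + x ∈ C then 0 else 1) +
          (∑ x ∈ Finset.range N, if v * N + x ∈ C then 1 else 0) = N := by
        rw [← Finset.sum_add_distrib]
        have : ∀ x ∈ Finset.range N, ((if v * N + x ∈ C then 0 else 1) +
            (if v * N + x ∈ C then 1 else 0)) = 1 := by
          intro x _
          split_ifs <;> rfl
        rw [Finset.sum_congr rfl this]
        simp
      omega
    · exact Nat.zero_le _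
  refine le_trans (le_of_eq ?_) (Finset.sum_le_sum h1)
  rw [← Finset.sum_filter, Finset.sum_const, smul_eq_mul]
  congr 1
  have hnd : (back n N N₀ C).Nodup := List.nodup_range.filter _
  rw [← List.toFinset_card_of_nodup hnd]
  congr 1
  ext v
  simp only [back, List.mem_toFinset, List.mem_filter, List.mem_range, Finset.mem_filter,
    Finset.mem_range]
  tauto

theorem cnt_back (n N N₀ : ℕ) (C : List ℕ) : cnt n (back n N N₀ C) = (back n N N₀ C).length := by
  have hnd : (back n N N₀ C).Nodup := List.nodup_range.filter _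
  unfold cnt
  rw [← Finset.sum_filter, Finset.sum_const, smul_eq_mul, mul_one,
    ← List.toFinset_card_of_nodup hnd]
  congr 1
  ext v
  simp only [back, List.mem_toFinset, List.mem_filter, List.mem_range, Finset.mem_filter,
    Finset.mem_range]
  tauto

/-- The candidate of a good seed is a cover. -/
theorem back_ok {I : Inst} (hI : WF I) {Q r : ℕ} [NeZero Q] (n N m T g Δ N₀ : ℕ)
    (hn : n = I.1.length) (hm : m = n * N) (σ : Fin r → ZMod Q)
    (hfew : ∀ F : Finset (Fin m), (∀ s ∈ F, badC T (BB I.2 N m) g σ s ∨ badD T (BB I.2 N m) Δ σ s) →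
      F.card ≤ N₀)
    (hmix : ∀ X Y : Finset (Fin m), N₀ ≤ X.card → N₀ ≤ Y.card →
      (∀ s ∈ X, ∀ t ∈ Y, BB I.2 N m s t) → ∃ s ∈ X, ∃ t ∈ Y, HA T (BB I.2 N m) σ s t)
    (C : List ℕ)
    (hC : IsCover (inst (hB I.2 N m Q T (List.ofFn fun i => (σ i).val)) m
      (badL (hB I.2 N m Q T (List.ofFn fun i => (σ i).val)) m g Δ)) C) :
    okB I.2 (back n N N₀ C) = true := by
  classical
  set h := hB I.2 N m Q T (List.ofFn fun i => (σ i).val) with hh
  set bad := badL h m g Δ with hbad
  unfold okB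
  rw [List.all_eq_true]
  intro e he
  by_contra hcon
  rw [Bool.or_eq_true, decide_eq_true_iff, decide_eq_true_iff, not_or] at hcon
  obtain ⟨he1, he2⟩ := hI.edge e he
  have key : ∀ u < n, u ∉ back n N N₀ C → ∃ X : Finset (Fin m), N₀ ≤ X.card ∧
      ∀ s ∈ X, s.1 / N = u ∧ s.1 ∉ C ∧ s.1 ∉ bad := by
    intro u hu hub
    have h1 : 2 * N₀ ≤ ((List.range N).filter fun x => !(decide (u * N + x ∈ C))).length := by
      by_contra h2
      apply hub
      unfold back
      rw [List.mem_filter, List.mem_range, decide_eq_true_iff]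
      exact ⟨hu, by omega⟩
    have hlt : ∀ x < N, u * N + x < m := by
      intro x hx
      rw [hm]
      calc u * N + x < u * N + N := by omega
        _ = (u + 1) * N := by ring
        _ ≤ n * N := Nat.mul_le_mul_right _ hu
    set U : Finset (Fin m) := Finset.univ.filter fun s => s.1 / N = u ∧ s.1 ∉ C with hU
    have hUc : 2 * N₀ ≤ U.card := by
      refine h1.trans ?_
      rw [← List.toFinset_card_of_nodup (List.nodup_range.filter _)]
      refine Finset.card_le_card_of_surjOn (fun s : Fin m => s.1 - u * N) ?_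
      intro x hx
      rw [Finset.mem_coe, List.mem_toFinset, List.mem_filter, List.mem_range] at hx
      have hN : 0 < N := lt_of_le_of_lt (Nat.zero_le _) hx.1
      refine ⟨⟨u * N + x, hlt x hx.1⟩, ?_, ?_⟩
      · rw [hU, Finset.mem_coe, Finset.mem_filter]
        refine ⟨Finset.mem_univ _, ?_, ?_⟩
        · show (u * N + x) / N = u
          rw [mul_comm, Nat.mul_add_div hN, Nat.div_eq_of_lt hx.1, add_zero]
        · simpa using hx.2
      · show u * N + x - u * N = x
        exact Nat.add_sub_cancel_left _ _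
    refine ⟨U.filter fun s => s.1 ∉ bad, ?_, ?_⟩
    · have h2 := Finset.card_filter_add_card_filter_not (s := U) (fun s => s.1 ∉ bad)
      have h3 : (U.filter fun s => ¬ s.1 ∉ bad).card ≤ N₀ := by
        refine hfew _ fun s hs => ?_
        have h4 := (Finset.mem_filter.1 hs).2
        rw [not_not] at h4
        exact bad_few I.2 N m T g Δ σ s h4
      omega
    · intro s hs
      rw [Finset.mem_filter, hU, Finset.mem_filter] at hs
      exact ⟨hs.1.2.1, hs.1.2.2, hs.2⟩
  obtain ⟨X, hX1, hX2⟩ := key e.1 (by omega) hcon.1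
  obtain ⟨Y, hY1, hY2⟩ := key e.2 (by omega) hcon.2
  obtain ⟨s, hs, t, ht, hst⟩ := hmix X Y hX1 hY1 (by
    intro s hs t ht
    unfold BB adjB
    rw [(hX2 s hs).1, (hY2 t ht).1, Bool.or_eq_true, decide_eq_true_iff]
    exact Or.inl he)
  obtain ⟨h1, h2, h3⟩ := hX2 s hs
  obtain ⟨h4, h5, h6⟩ := hY2 t ht
  have hlen := inst_length (h := h) (m := m) (bad := bad)
  have hadj : (gr (inst h m bad)).Adj (Fin.cast hlen.symm s) (Fin.cast hlen.symm t) := by
    rw [inst_adj (hB_symm _ _ _ _ _ _)]
    refine ⟨fun h7 => ?_, ?_, h3, h6⟩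
    · have := congrArg Fin.val h7
      simp only [Fin.val_cast] at this
      rw [this, h4] at h1
      omega
    · exact (hB_iff I.2 N m T σ s t).2 hst
  rcases hC _ _ hadj with h7 | h7
  · exact h2 h7
  · exact h5 h7

/-- Correctness of the reduction. -/
theorem alg_correct {g₀ g κ K : ℕ} {ε c : ℝ} (hg : 1 ≤ g) (hg₀ : g₀ ≤ g) (hε : 0 < ε)
    (hgε : 3 ≤ (g : ℝ) * ε) (hκ : 2 * g + 1 ≤ 2 ^ κ) (hK : 3 ≤ K)
    (A : Inst → List ℕ)
    (hA : ∀ J, WF J → (UnitW J ∧ Sparse g₀ ε J) →
      IsCover J (A J) ∧ ∀ D, IsCover J D → (cost J (A J) : ℝ) ≤ c * (cost J D : ℝ))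
    (I : Inst) (hI : WF I) (hU : UnitW I) :
    IsCover I (alg A g κ K I) ∧ ∀ D, IsCover I D →
      (cost I (alg A g κ K I) : ℝ) * (K - 2) ≤ c * K * (cost I D : ℝ) := by
  classical
  set n := I.1.length with hn
  set L := List.range I.1.length ::
    ((tup (2 * 2 ^ κ) (List.range (QQ g κ K I.1.length))).map (cand A g κ K I)).filter (okB I.2)
    with hL
  have halg : alg A g κ K I = pick L := rfl
  obtain ⟨hp1, hp2⟩ := pick_spec L (by rw [hL]; simp)
  have hsub : ∀ C ∈ L, okB I.2 C = true ∧ cnt n C = C.length := by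
    intro C hC
    rw [hL] at hC
    rcases List.mem_cons.1 hC with rfl | hC
    · constructor
      · unfold okB
        rw [List.all_eq_true]
        intro e he
        obtain ⟨h1, h2⟩ := hI.edge e he
        rw [Bool.or_eq_true, decide_eq_true_iff, List.mem_range]
        exact Or.inl (by omega)
      · unfold cnt
        rw [List.length_range]
        have : ∀ v ∈ Finset.range n, (if v ∈ List.range I.1.length then 1 else 0) = 1 := by
          intro v hv
          rw [if_pos (List.mem_range.2 (Finset.mem_range.1 hv))]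
        rw [Finset.sum_congr rfl this]
        simp [hn]
    · obtain ⟨h1, h2⟩ := List.mem_filter.1 hC
      refine ⟨h2, ?_⟩
      obtain ⟨σ, _, rfl⟩ := List.mem_map.1 h1
      exact cnt_back _ _ _ _
  rw [halg]
  refine ⟨(isCover_iff hI _).2 (hsub _ hp1).1, fun D hD => ?_⟩
  rw [cost_unit hU, cost_unit hU]
  by_cases hn0 : n = 0
  · have h0 : ∀ C, cnt I.1.length C = 0 := by
      intro C
      rw [← hn, hn0]
      simp [cnt]
    rw [h0, h0]
    simp
  have hn1 : 1 ≤ n := Nat.one_le_iff_ne_zero.2 hn0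
  have hK1 : 1 ≤ K := by omega
  obtain ⟨hQp, hQ1, hQ2, hQ3, hQ4⟩ := QQ_spec (κ := κ) hg hK1 hn1
  have : Fact (QQ g κ K n).Prime := ⟨hQp⟩
  have : NeZero (QQ g κ K n) := ⟨hQp.ne_zero⟩
  obtain ⟨σ, hσ1, hσ2⟩ := exists_good (r := 2 * 2 ^ κ) (TT_le (κ := κ) hg hK1 hn1) hQ4 κ le_rfl g
    (by omega) (mm_pos hg hK1 hn1) hQ1 (BB I.2 (NN g κ K n) (mm g κ K n)) (BB_symm _ _ _)
    (N0 g κ K n) (Dl g κ K n) (N0_pos hg hK1 hn1) (by
      have := (D0_ge (κ := κ) hg hK1 hn1).2
      unfold Dl
      positivity) (TT_pos hg hK1 hn1) (par0 hg hK1 hn1) (par1 hg hK1 hn1) (par2 hg hK1 hn1)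
      (par3 hg hκ hK1 hn1)
  set τ : List ℕ := List.ofFn fun i => (σ i).val with hτ
  set h := hB I.2 (NN g κ K n) (mm g κ K n) (QQ g κ K n) (TT g κ K n) τ with hh
  set J := inst h (mm g κ K n) (badL h (mm g κ K n) g (Dl g κ K n)) with hJ
  have hJs : Sparse g₀ ε J :=
    sparse_mono hg₀ (inst_sparse (hB_symm _ _ _ _ _ _) ε (Dl_le hg hK1 hn1 hε hgε))
  obtain ⟨hA1, hA2⟩ := hA J inst_wf ⟨inst_unit, hJs⟩
  have hcand : cand A g κ K I τ = back n (NN g κ K n) (N0 g κ K n) (A J) := rfl
  have hok : okB I.2 (cand A g κ K I τ) = true := by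
    rw [hcand]
    refine back_ok hI n (NN g κ K n) (mm g κ K n) (TT g κ K n) g (Dl g κ K n) (N0 g κ K n) hn rfl σ
      (fun F hF => ?_) hσ2 (A J) hA1
    refine le_trans (Finset.card_le_card fun s hs => ?_) hσ1
    exact Finset.mem_filter.2 ⟨Finset.mem_univ _, hF s hs⟩
  have hτmem : τ ∈ tup (2 * 2 ^ κ) (List.range (QQ g κ K I.1.length)) := by
    rw [mem_tup]
    refine ⟨by simp [hτ], fun x hx => ?_⟩
    rw [hτ, List.mem_ofFn] at hx
    obtain ⟨i, rfl⟩ := hx
    exact List.mem_range.2 (ZMod.val_lt _)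
  have hmemL : cand A g κ K I τ ∈ L := by
    rw [hL]
    exact List.mem_cons_of_mem _ (List.mem_filter.2 ⟨List.mem_map.2 ⟨τ, hτmem, rfl⟩, hok⟩)
  have h1 := hp2 _ hmemL
  have h2 := back_cost n (NN g κ K n) (N0 g κ K n) (A J)
  rw [← hcand] at h2
  obtain ⟨h3, h4⟩ := lift_cover hI hD n (NN g κ K n) (mm g κ K n) (QQ g κ K n) (TT g κ K n) rfl τ
    (badL h (mm g κ K n) g (Dl g κ K n))
  have h5 := hA2 _ h3
  rw [cost_unit inst_unit, cost_unit inst_unit, inst_length, h4] at h5
  have h6 : cnt (n * NN g κ K n) (A J) = cnt (mm g κ K n) (A J) := rfl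
  rw [h6] at h2
  have hN : NN g κ K n = K * N0 g κ K n := rfl
  have hN0 : (0 : ℝ) < N0 g κ K n := by exact_mod_cast N0_pos (κ := κ) hg hK1 hn1
  have h7 : ((cand A g κ K I τ).length : ℝ) * ((K - 2) * N0 g κ K n) ≤
      c * (K * N0 g κ K n * cnt n D) := by
    have a1 : (((cand A g κ K I τ).length * (NN g κ K n - 2 * N0 g κ K n) : ℕ) : ℝ) ≤
        cnt (mm g κ K n) (A J) := by exact_mod_cast h2
    have a2 : NN g κ K n - 2 * N0 g κ K n = (K - 2) * N0 g κ K n := by
      rw [hN, Nat.sub_mul]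
    rw [a2] at a1
    push_cast [Nat.cast_sub (show 2 ≤ K by omega)] at a1
    refine a1.trans ?_
    push_cast at h5
    rw [hN] at h5
    push_cast at h5
    exact h5
  rw [(hsub _ hp1).2]
  have h8 : ((pick L).length : ℝ) ≤ (cand A g κ K I τ).length := by exact_mod_cast h1
  have hK2 : (0 : ℝ) < (K : ℝ) - 2 := by
    have : (3 : ℝ) ≤ K := by exact_mod_cast hK
    linarith
  have h9 : ((cand A g κ K I τ).length : ℝ) * (K - 2) ≤ c * K * cnt n D := by
    have : ((cand A g κ K I τ).length : ℝ) * (K - 2) * N0 g κ K n ≤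
        (c * K * cnt n D) * N0 g κ K n := by linarith
    exact le_of_mul_le_mul_right this hN0
  push_cast
  calc ((pick L).length : ℝ) * (K - 2) ≤ ((cand A g κ K I τ).length : ℝ) * (K - 2) :=
        mul_le_mul_of_nonneg_right h8 hK2.le
    _ ≤ _ := h9

end Pool.Agent.K9h49.VC
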