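import Pool.Agent.K9h49.VC.Pt

/-!
# From unit weights to arbitrary weights: the algorithm and its correctness
-/

namespace Pool.Agent.K9h49.VC

open Pool.Agent.NPC

/-- The product of the denominators. -/
def dn (W : List ℚ) : ℕ := (W.map fun w => w.den).prod

/-- The weights, multiplied by the product of the denominators. -/
def zs (W : List ℚ) : List ℕ := W.map fun w => w.num.natAbs * (dn W / w.den)

/-- The rounded weights. -/
def wt (n K B τ : ℕ) (Z : List ℕ) (v : ℕ) : ℕ :=
  if Z.getD v 0 ≤ τ then Z.getD v 0 * (n * K) / τ + 1 else B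

/-- The owners of the copies. -/
def own (n : ℕ) (w : ℕ → ℕ) : List ℕ := (List.range n).flatMap fun v =>
  (List.range (w v)).map fun _ => v

/-- The vertices all of whose copies are in `C`. -/
def backW (n : ℕ) (o : List ℕ) (C : List ℕ) : List ℕ := (List.range n).filter fun v =>
  (List.range o.length).all fun s => !(decide (o.getD s 0 = v)) || decide (s ∈ C)

/-- The total weight of the set `C`. -/
def zc (n : ℕ) (Z : List ℕ) (C : List ℕ) : ℕ :=
  ((List.range n).map fun v => if v ∈ C then Z.getD v 0 else 0).sum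

/-- A member of least weight of a list of lists. -/
def pickW (n : ℕ) (Z : List ℕ) (L : List (List ℕ)) : List ℕ :=
  ((L.filter fun c => L.all fun c' => decide (zc n Z c ≤ zc n Z c')).head?).getD []

/-- The candidate for the threshold `τ`. -/
def candW (A : Inst → List ℕ) (K b : ℕ) (I : Inst) (τ : ℕ) : List ℕ :=
  let n := I.1.length
  let o := own n (wt n K (b * (n * (n * K + 1)) + 1) τ (zs I.1))
  backW n o (A (inst (fun s t => adjB I.2 (o.getD s 0) (o.getD t 0)) o.length []))

/-- The algorithm for arbitrary weights. -/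
def algW (A : Inst → List ℕ) (K b : ℕ) (I : Inst) : List ℕ :=
  pickW I.1.length (zs I.1) ((0 :: zs I.1).map (candW A K b I))

theorem pickW_spec (n : ℕ) (Z : List ℕ) (L : List (List ℕ)) (hL : L ≠ []) :
    pickW n Z L ∈ L ∧ ∀ c ∈ L, zc n Z (pickW n Z L) ≤ zc n Z c := by
  have h1 : ∃ c ∈ L, ∀ c' ∈ L, zc n Z c ≤ zc n Z c' := by
    obtain ⟨c, hc⟩ := List.exists_mem_of_ne_nil L hL
    obtain ⟨d, hd, hmin⟩ := Finset.exists_min_image L.toFinset (zc n Z)
      ⟨c, List.mem_toFinset.2 hc⟩
    exact ⟨d, List.mem_toFinset.1 hd, fun c' hc' => hmin c' (List.mem_toFinset.2 hc')⟩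
  obtain ⟨c, hc, hmin⟩ := h1
  have hne : (L.filter fun c => L.all fun c' => decide (zc n Z c ≤ zc n Z c')) ≠ [] := by
    apply List.ne_nil_of_mem (a := c)
    rw [List.mem_filter, List.all_eq_true]
    exact ⟨hc, fun c' hc' => decide_eq_true (hmin c' hc')⟩
  obtain ⟨q, l, hq⟩ := List.exists_cons_of_ne_nil hne
  have h3 : pickW n Z L = q := by
    unfold pickW
    rw [hq]
    rfl
  have h4 : q ∈ (L.filter fun c => L.all fun c' => decide (zc n Z c ≤ zc n Z c')) := by
    rw [hq]; exact List.mem_cons_self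
  rw [List.mem_filter, List.all_eq_true] at h4
  rw [h3]
  exact ⟨h4.1, fun c' hc' => of_decide_eq_true (h4.2 c' hc')⟩

theorem zc_eq (n : ℕ) (Z : List ℕ) (C : List ℕ) :
    zc n Z C = ∑ v ∈ Finset.range n, if v ∈ C then Z.getD v 0 else 0 := by
  unfold zc
  have : ∀ (f : ℕ → ℕ) (n : ℕ), ((List.range n).map f).sum = ∑ v ∈ Finset.range n, f v := by
    intro f n
    induction n with
    | zero => simp
    | succ n ih => rw [List.range_succ, List.map_append, List.sum_append, ih,
        Finset.sum_range_succ]; simp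
  exact this _ _

theorem dn_pos (W : List ℚ) : 0 < dn W := by
  unfold dn
  refine Nat.pos_of_ne_zero fun h => ?_
  rw [List.prod_eq_zero_iff, List.mem_map] at h
  obtain ⟨w, _, h⟩ := h
  exact w.den_ne_zero h

theorem zs_get (W : List ℚ) (hW : ∀ w ∈ W, 0 ≤ w) (v : ℕ) (hv : v < W.length) :
    ((zs W).getD v 0 : ℚ) = W[v] * dn W := by
  have h1 : (zs W).getD v 0 = (W[v]).num.natAbs * (dn W / (W[v]).den) := by
    unfold zs
    rw [List.getD_eq_getElem _ _ (by simpa using hv)]
    simp
  have hmem : W[v] ∈ W := List.getElem_mem _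
  have h0 := hW _ hmem
  have hdvd : (W[v]).den ∣ dn W := List.dvd_prod (List.mem_map.2 ⟨_, hmem, rfl⟩)
  rw [h1]
  push_cast
  rw [Nat.cast_div hdvd (by exact_mod_cast (W[v]).den_ne_zero)]
  have h2 : (((W[v]).num.natAbs : ℕ) : ℚ) = ((W[v]).num : ℚ) := by
    have h3 : (((W[v]).num.natAbs : ℕ) : ℤ) = (W[v]).num :=
      Int.natAbs_of_nonneg (Rat.num_nonneg.2 h0)
    have h4 := congrArg (Int.cast : ℤ → ℚ) h3
    rwa [Int.cast_natCast] at h4
  have h4 : ((W[v]).num : ℚ) = W[v] * (W[v]).den := (Rat.mul_den_eq_num _).symm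
  rw [h2, h4]
  have h5 : ((W[v]).den : ℚ) ≠ 0 := by exact_mod_cast (W[v]).den_ne_zero
  field_simp

theorem zc_cost {I : Inst} (hI : WF I) (C : List ℕ) :
    (zc I.1.length (zs I.1) C : ℚ) = cost I C * dn I.1 := by
  rw [zc_eq]
  unfold cost
  rw [Nat.cast_sum, ← Fin.sum_univ_eq_sum_range
    (fun v => ((if v ∈ C then (zs I.1).getD v 0 else 0 : ℕ) : ℚ)), Finset.sum_mul]
  refine Finset.sum_congr rfl fun v _ => ?_
  split_ifs with h
  · rw [zs_get I.1 hI.nonneg v.1 v.2]
    rfl
  · simp

theorem sum_getD (f : ℕ → ℕ) : ∀ l : List ℕ,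
    ∑ s ∈ Finset.range l.length, f (l.getD s 0) = (l.map f).sum
  | [] => by simp
  | x :: l => by
    rw [List.length_cons, Finset.sum_range_succ']
    simp only [List.getD_cons_succ, List.getD_cons_zero, List.map_cons, List.sum_cons]
    rw [sum_getD f l, add_comm]

theorem own_sum (f w : ℕ → ℕ) : ∀ n, ((own n w).map f).sum = ∑ v ∈ Finset.range n, w v * f v
  | 0 => by simp [own]
  | n + 1 => by
    have ih := own_sum f w n
    unfold own at ih ⊢
    rw [List.range_succ, List.flatMap_append, List.map_append, List.sum_append, ih,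
      Finset.sum_range_succ]
    simp

theorem mem_own {n : ℕ} {w : ℕ → ℕ} {x : ℕ} : x ∈ own n w ↔ x < n ∧ 0 < w x := by
  unfold own
  simp only [List.mem_flatMap, List.mem_range, List.mem_map]
  constructor
  · rintro ⟨v, hv, y, hy, rfl⟩
    exact ⟨hv, by omega⟩
  · rintro ⟨h1, h2⟩
    exact ⟨x, h1, 0, h2, rfl⟩

theorem mem_backW {n : ℕ} {o C : List ℕ} {v : ℕ} : v ∈ backW n o C ↔
    v < n ∧ ∀ s < o.length, o.getD s 0 = v → s ∈ C := by
  unfold backW
  simp only [List.mem_filter, List.mem_range, List.all_eq_true, Bool.or_eq_true,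
    Bool.not_eq_true', decide_eq_false_iff_not, decide_eq_true_iff]
  refine and_congr_right fun _ => forall_congr' fun s => forall_congr' fun _ => ?_
  tauto

section

variable {I : Inst} (hI : WF I) (w : ℕ → ℕ)

include hI in
/-- Lifting a cover to the copies. -/
theorem lift_coverW {D : List ℕ} (hD : IsCover I D) :
    IsCover (inst (fun s t => adjB I.2 ((own I.1.length w).getD s 0)
      ((own I.1.length w).getD t 0)) (own I.1.length w).length [])
      ((List.range (own I.1.length w).length).filter fun s =>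
        decide ((own I.1.length w).getD s 0 ∈ D)) ∧
    cnt (own I.1.length w).length ((List.range (own I.1.length w).length).filter fun s =>
        decide ((own I.1.length w).getD s 0 ∈ D)) =
      ∑ v ∈ Finset.range I.1.length, w v * if v ∈ D then 1 else 0 := by
  set o := own I.1.length w with ho
  constructor
  · intro s t hst
    have hsym : ∀ s t, adjB I.2 (o.getD s 0) (o.getD t 0) = adjB I.2 (o.getD t 0) (o.getD s 0) := by
      intro s t
      unfold adjB
      rw [Bool.or_comm]
    rw [inst_adj hsym] at hst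
    obtain ⟨_, h1, _, _⟩ := hst
    have hs : s.1 < o.length := lt_of_lt_of_eq s.2 inst_length
    have ht : t.1 < o.length := lt_of_lt_of_eq t.2 inst_length
    unfold adjB at h1
    rw [Bool.or_eq_true, decide_eq_true_iff, decide_eq_true_iff] at h1
    have h2 : o.getD s.1 0 ∈ D ∨ o.getD t.1 0 ∈ D := by
      have hD' := (isCover_iff hI D).1 hD
      unfold okB at hD'
      rw [List.all_eq_true] at hD'
      rcases h1 with h3 | h3
      · simpa using hD' _ h3
      · rw [or_comm]
        simpa using hD' _ h3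
    simp only [List.mem_filter, List.mem_range, decide_eq_true_eq]
    exact h2.imp (fun h => ⟨hs, h⟩) fun h => ⟨ht, h⟩
  · rw [← own_sum (fun v => if v ∈ D then 1 else 0) w, ← sum_getD]
    unfold cnt
    refine Finset.sum_congr rfl fun s hs => ?_
    have hs' : s < o.length := Finset.mem_range.1 hs
    simp only [List.mem_filter, List.mem_range, decide_eq_true_eq, hs', true_and]
    rfl

theorem backW_cost (C : List ℕ) :
    ∑ v ∈ Finset.range I.1.length, w v * (if v ∈ backW I.1.length (own I.1.length w) C then 1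
      else 0) ≤ cnt (own I.1.length w).length C := by
  rw [← own_sum (fun v => if v ∈ backW I.1.length (own I.1.length w) C then 1 else 0) w,
    ← sum_getD]
  unfold cnt
  refine Finset.sum_le_sum fun s hs => ?_
  by_cases h : (own I.1.length w).getD s 0 ∈ backW I.1.length (own I.1.length w) C
  · have h1 := (mem_backW.1 h).2 s (Finset.mem_range.1 hs) rfl
    rw [if_pos h, if_pos h1]
  · rw [if_neg h]
    exact Nat.zero_le _

include hI in
theorem backW_ok (C : List ℕ)
    (hC : IsCover (inst (fun s t => adjB I.2 ((own I.1.length w).getD s 0)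
      ((own I.1.length w).getD t 0)) (own I.1.length w).length []) C) :
    IsCover I (backW I.1.length (own I.1.length w) C) := by
  rw [isCover_iff hI]
  set o := own I.1.length w with ho
  unfold okB
  rw [List.all_eq_true]
  intro e he
  by_contra hcon
  rw [Bool.or_eq_true, decide_eq_true_iff, decide_eq_true_iff, not_or] at hcon
  obtain ⟨he1, he2⟩ := hI.edge e he
  have key : ∀ u < I.1.length, u ∉ backW I.1.length o C → ∃ s < o.length, o.getD s 0 = u ∧
      s ∉ C := by
    intro u hu hub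
    by_contra h
    push Not at h
    exact hub (mem_backW.2 ⟨hu, fun s hs hsu => h s hs hsu⟩)
  obtain ⟨s, hs, hs1, hs2⟩ := key e.1 (by omega) hcon.1
  obtain ⟨t, ht, ht1, ht2⟩ := key e.2 (by omega) hcon.2
  have hsym : ∀ s t, adjB I.2 (o.getD s 0) (o.getD t 0) = adjB I.2 (o.getD t 0) (o.getD s 0) := by
    intro s t
    unfold adjB
    rw [Bool.or_comm]
  have hlen := inst_length (h := fun s t => adjB I.2 (o.getD s 0) (o.getD t 0)) (m := o.length)
    (bad := [])
  have hadj := (inst_adj hsym (bad := []) (Fin.cast hlen.symm ⟨s, hs⟩)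
    (Fin.cast hlen.symm ⟨t, ht⟩)).2 ⟨fun h7 => by
      have := congrArg Fin.val h7
      simp only [Fin.val_cast] at this
      rw [this, ht1] at hs1
      omega, by
      simp only [Fin.val_cast]
      rw [hs1, ht1]
      unfold adjB
      rw [Bool.or_eq_true, decide_eq_true_iff]
      exact Or.inl he, by simp, by simp⟩
  rcases hC _ _ hadj with h7 | h7
  · exact hs2 h7
  · exact ht2 h7

end

/-- Correctness of the reduction to unit weights. -/
theorem algW_correct {K b : ℕ} {c : ℝ} (hK : 1 ≤ K) (hc : 0 ≤ c) (hb : c ≤ b)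
    (A : Inst → List ℕ)
    (hA : ∀ J, WF J → UnitW J →
      IsCover J (A J) ∧ ∀ D, IsCover J D → (cost J (A J) : ℝ) ≤ c * (cost J D : ℝ))
    (I : Inst) (hI : WF I) :
    IsCover I (algW A K b I) ∧ ∀ D, IsCover I D →
      (cost I (algW A K b I) : ℝ) * K ≤ c * (K + 1) * (cost I D : ℝ) := by
  classical
  set n := I.1.length with hn
  set Z := zs I.1 with hZ
  have hcov : ∀ τ, IsCover I (candW A K b I τ) := by
    intro τ
    refine backW_ok hI _ _ ?_
    exact (hA _ inst_wf inst_unit).1
  obtain ⟨hp1, hp2⟩ := pickW_spec n Z ((0 :: Z).map (candW A K b I)) (by simp)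
  have halg : algW A K b I = pickW n Z ((0 :: Z).map (candW A K b I)) := rfl
  rw [halg]
  set out := pickW n Z ((0 :: Z).map (candW A K b I)) with hout
  constructor
  · obtain ⟨τ, _, h⟩ := List.mem_map.1 hp1
    rw [← h]
    exact hcov τ
  intro D hD
  -- the threshold
  set S := (Finset.range n).filter (fun v => v ∈ D) with hS
  set τ := S.sup (fun v => Z.getD v 0) with hτ
  have hτ1 : ∀ v ∈ S, Z.getD v 0 ≤ τ := fun v hv => Finset.le_sup (f := fun v => Z.getD v 0) hv
  have hτmem : τ ∈ 0 :: Z := by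
    by_cases hS0 : S.Nonempty
    · obtain ⟨v, hv, hv'⟩ := Finset.exists_mem_eq_sup S hS0 (fun v => Z.getD v 0)
      rw [← hτ] at hv'
      rw [hv']
      have hvn : v < Z.length := by
        have := Finset.mem_range.1 (Finset.mem_filter.1 hv).1
        rw [hZ]
        unfold zs
        simpa using this
      rw [List.getD_eq_getElem _ _ hvn]
      exact List.mem_cons_of_mem _ (List.getElem_mem _)
    · rw [Finset.not_nonempty_iff_eq_empty] at hS0
      rw [hτ, hS0]
      simp
  set B := b * (n * (n * K + 1)) + 1 with hB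
  set w := wt n K B τ Z with hw
  set o := own n w with ho
  set J := inst (fun s t => adjB I.2 (o.getD s 0) (o.getD t 0)) o.length [] with hJ
  obtain ⟨hA1, hA2⟩ := hA J inst_wf inst_unit
  obtain ⟨hl1, hl2⟩ := lift_coverW hI w hD
  have h1 := hA2 _ hl1
  rw [cost_unit inst_unit, cost_unit inst_unit, inst_length, hl2] at h1
  have hcand : candW A K b I τ = backW n o (A J) := rfl
  have h2 := backW_cost (I := I) w (A J)
  rw [← hn, ← ho, ← hcand] at h2
  set X := candW A K b I τ with hX
  have h3 : ((∑ v ∈ Finset.range n, w v * (if v ∈ X then 1 else 0) : ℕ) : ℝ) ≤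
      c * ((∑ v ∈ Finset.range n, w v * (if v ∈ D then 1 else 0) : ℕ) : ℝ) := by
    refine ((Nat.cast_le (α := ℝ)).2 h2).trans ?_
    rw [Rat.cast_natCast, Rat.cast_natCast] at h1
    exact h1
  -- sums over sets
  set SX := (Finset.range n).filter (fun v => v ∈ X) with hSX
  have e1 : ∀ (f : ℕ → ℕ) (C : List ℕ), ∑ v ∈ Finset.range n, f v * (if v ∈ C then 1 else 0) =
      ∑ v ∈ (Finset.range n).filter (fun v => v ∈ C), f v := by
    intro f C
    rw [Finset.sum_filter]
    refine Finset.sum_congr rfl fun v _ => ?_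
    split_ifs <;> simp
  rw [e1, e1, ← hSX, ← hS] at h3
  have hwS : ∀ v ∈ S, w v ≤ n * K + 1 ∧ w v * τ ≤ Z.getD v 0 * (n * K) + τ := by
    intro v hv
    have h4 := hτ1 v hv
    have h5 : w v = Z.getD v 0 * (n * K) / τ + 1 := by
      rw [hw]; unfold wt; rw [if_pos h4]
    rw [h5]
    constructor
    · have : Z.getD v 0 * (n * K) / τ ≤ n * K := by
        refine Nat.div_le_of_le_mul ?_
        exact Nat.mul_le_mul_right _ h4
      omega
    · rw [add_mul, one_mul]
      exact Nat.add_le_add_right (Nat.div_mul_le_self _ _) _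
  have hScard : S.card ≤ n := by
    refine (Finset.card_filter_le _ _).trans ?_
    rw [Finset.card_range]
  have h4 : ∑ v ∈ S, w v ≤ n * (n * K + 1) := by
    refine (Finset.sum_le_card_nsmul _ _ _ fun v hv => (hwS v hv).1).trans ?_
    rw [smul_eq_mul]
    exact Nat.mul_le_mul_right _ hScard
  -- the vertices of the candidate are light
  have h5 : ∀ v ∈ SX, Z.getD v 0 ≤ τ := by
    intro v hv
    by_contra h6
    have h7 : w v = B := by
      rw [hw]; unfold wt; rw [if_neg h6]
    have h8 : (w v : ℝ) ≤ ((∑ v ∈ SX, w v : ℕ) : ℝ) := by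
      exact_mod_cast Finset.single_le_sum (f := w) (fun _ _ => Nat.zero_le _) hv
    have h9 : (w v : ℝ) ≤ b * (n * (n * K + 1)) := by
      refine h8.trans (h3.trans ?_)
      have h10 : ((∑ v ∈ S, w v : ℕ) : ℝ) ≤ n * (n * K + 1) := by exact_mod_cast h4
      exact mul_le_mul hb h10 (by positivity) (by positivity)
    rw [h7, hB] at h9
    push_cast at h9
    linarith
  have hwX : ∀ v ∈ SX, Z.getD v 0 * (n * K) ≤ w v * τ := by
    intro v hv
    have h4 := h5 v hv
    have h6 : w v = Z.getD v 0 * (n * K) / τ + 1 := by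
      rw [hw]; unfold wt; rw [if_pos h4]
    rw [h6]
    by_cases h0 : τ = 0
    · have : Z.getD v 0 = 0 := by omega
      rw [this]
      simp
    · have := Nat.lt_mul_div_succ (Z.getD v 0 * (n * K)) (Nat.pos_of_ne_zero h0)
      rw [mul_comm]
      rw [mul_comm] at this
      linarith [this.le, mul_comm (Z.getD v 0 * (n * K) / τ + 1) τ]
  -- the weights
  have e2 : ∀ C : List ℕ, zc n Z C = ∑ v ∈ (Finset.range n).filter (fun v => v ∈ C),
      Z.getD v 0 := by
    intro C
    rw [zc_eq, Finset.sum_filter]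
  have hτS : τ ≤ ∑ v ∈ S, Z.getD v 0 := by
    by_cases hS0 : S.Nonempty
    · obtain ⟨v, hv, hv'⟩ := Finset.exists_mem_eq_sup S hS0 (fun v => Z.getD v 0)
      rw [hτ, hv']
      exact Finset.single_le_sum (f := fun v => Z.getD v 0) (fun _ _ => Nat.zero_le _) hv
    · rw [Finset.not_nonempty_iff_eq_empty] at hS0
      rw [hτ, hS0]
      simp
  have key : (zc n Z X : ℝ) * (n * K) ≤ c * ((zc n Z D : ℝ) * (n * (K + 1))) := by
    rw [e2, e2, ← hSX, ← hS]
    have k1 : ((∑ v ∈ SX, Z.getD v 0 : ℕ) : ℝ) * (n * K) ≤ ((∑ v ∈ SX, w v : ℕ) : ℝ) * τ := by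
      have : (∑ v ∈ SX, Z.getD v 0) * (n * K) ≤ (∑ v ∈ SX, w v) * τ := by
        rw [Finset.sum_mul, Finset.sum_mul]
        exact Finset.sum_le_sum hwX
      exact_mod_cast this
    have k2 : ((∑ v ∈ S, w v : ℕ) : ℝ) * τ ≤
        ((∑ v ∈ S, Z.getD v 0 : ℕ) : ℝ) * (n * (K + 1)) := by
      have : (∑ v ∈ S, w v) * τ ≤ (∑ v ∈ S, Z.getD v 0) * (n * (K + 1)) := by
        calc (∑ v ∈ S, w v) * τ = ∑ v ∈ S, w v * τ := by rw [Finset.sum_mul]
          _ ≤ ∑ v ∈ S, (Z.getD v 0 * (n * K) + τ) := Finset.sum_le_sum fun v hv => (hwS v hv).2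
          _ = (∑ v ∈ S, Z.getD v 0) * (n * K) + S.card * τ := by
              rw [Finset.sum_add_distrib, Finset.sum_mul, Finset.sum_const, smul_eq_mul]
          _ ≤ (∑ v ∈ S, Z.getD v 0) * (n * K) + n * ∑ v ∈ S, Z.getD v 0 :=
              Nat.add_le_add_left (Nat.mul_le_mul hScard hτS) _
          _ = (∑ v ∈ S, Z.getD v 0) * (n * (K + 1)) := by ring
      exact_mod_cast this
    calc ((∑ v ∈ SX, Z.getD v 0 : ℕ) : ℝ) * (n * K) ≤ ((∑ v ∈ SX, w v : ℕ) : ℝ) * τ := k1
      _ ≤ (c * ((∑ v ∈ S, w v : ℕ) : ℝ)) * τ := mul_le_mul_of_nonneg_right h3 (by positivity)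
      _ = c * (((∑ v ∈ S, w v : ℕ) : ℝ) * τ) := by ring
      _ ≤ _ := mul_le_mul_of_nonneg_left k2 hc
  have h6 := hp2 X (List.mem_map.2 ⟨τ, hτmem, rfl⟩)
  have hdn : (0 : ℝ) < dn I.1 := by exact_mod_cast dn_pos I.1
  have z1 : (zc n Z out : ℝ) = (cost I out : ℝ) * dn I.1 := by
    have := zc_cost hI out
    exact_mod_cast congrArg (fun x : ℚ => (x : ℝ)) this
  have z2 : (zc n Z D : ℝ) = (cost I D : ℝ) * dn I.1 := by
    have := zc_cost hI D
    exact_mod_cast congrArg (fun x : ℚ => (x : ℝ)) this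
  by_cases hn0 : n = 0
  · have h0 : ∀ C, cost I C = 0 := by
      intro C
      unfold cost
      have : IsEmpty (Fin I.1.length) := by
        rw [← hn, hn0]
        exact Fin.isEmpty
      simp
    rw [h0, h0]
    simp
  have hn1 : (0 : ℝ) < n := by exact_mod_cast Nat.pos_of_ne_zero hn0
  have h7 : (zc n Z out : ℝ) ≤ zc n Z X := by exact_mod_cast h6
  have h8 : (zc n Z out : ℝ) * K ≤ c * (K + 1) * (zc n Z D : ℝ) := by
    have : ((zc n Z out : ℝ) * K) * n ≤ (c * (K + 1) * (zc n Z D : ℝ)) * n := by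
      calc ((zc n Z out : ℝ) * K) * n = (zc n Z out : ℝ) * (n * K) := by ring
        _ ≤ (zc n Z X : ℝ) * (n * K) := mul_le_mul_of_nonneg_right h7 (by positivity)
        _ ≤ _ := key
        _ = _ := by ring
    exact le_of_mul_le_mul_right this hn1
  rw [z1, z2] at h8
  have : ((cost I out : ℝ) * K) * dn I.1 ≤ (c * (K + 1) * (cost I D : ℝ)) * dn I.1 := by
    linarith
  exact le_of_mul_le_mul_right this hdn

end Pool.Agent.K9h49.VC
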